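import Pool.Agent.Lib.MP_72e2e6_nt.Sm.E.Has2

/-!
# MP_72e2e6_nt, `Sm`, block E: the axioms `Ax2`
-/

set_option linter.unusedSectionVars false

namespace Pool.Agent.MP72S.E

open Polynomial Finset

attribute [local instance] Units.mulDistribMulActionRight

variable {k Q G N P : Type} [Field k] [Group G] [Field Q] [Algebra k Q] [MulSemiringAction G Q]
  [TopologicalSpace G] {D : Dat G N P} {t : Q} {q : ℕ} {dg : P → ℕ} {rt : P → k}
  [IsTopologicalGroup G] [CompactSpace G] [IsAlgClosed k]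

/-- `Ax2.has2`. -/
theorem has2 (h : Qd D k Q t q dg rt) (z : G → G → ZMod 2) (hz : IsC2 (fun _ r => r) z)
    (h0 : ∀ v, D.iv z v = 0) :
    ∃ l : G → ZMod 2, IsLocallyConstant l ∧ ∀ σ τ, z σ τ = l σ + l τ - l (σ * τ) := by
  classical
  have hχ2 : ∀ x : ZMod 2, (rho2 Q x).toMul ^ 2 = 1 := by
    intro x
    rcases zmod2' x with rfl | rfl
    · rw [map_zero, toMul_zero, one_pow]
    · rw [rho2_one, toMul_ofMul]
      exact neg_one_sq
  obtain ⟨l, ⟨s, hs⟩, hl2, hl⟩ := hasM h (z := fun g j => (rho2 Q (z g j)).toMul) (by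
    intro g j i
    have h1 := congrArg (fun x => (rho2 Q x).toMul) (hz.coc g j i)
    simp only [map_add, toMul_add] at h1
    rw [← rho2_smul]
    exact h1) (hz.lc.comp fun x => (rho2 Q x).toMul) (fun g j => hχ2 _) (fun v => by
      have h1 := iv_map (D := D) (rho2 Q) z v
      rw [h0 v, map_zero] at h1
      exact (congrArg Additive.toMul h1).symm)
  obtain ⟨l', hl'⟩ : ∃ l' : Qˣ → ZMod 2, ∀ x : Qˣ, x ^ 2 = 1 → rho2 Q (l' x) = Additive.ofMul x := by
    refine ⟨fun x => if x = 1 then 0 else 1, fun x hx => ?_⟩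
    by_cases h1 : x = 1
    · simp only [h1, if_true, map_zero, ofMul_one]
    · simp only [h1, if_false]
      rw [rho2_one]
      congr 1
      have h2 : (x : Q) * x = 1 := by
        rw [← Units.val_mul, ← sq, hx, Units.val_one]
      rcases mul_self_eq_one_iff.1 h2 with h3 | h3
      · exact absurd (Units.ext h3) h1
      · exact (Units.ext (by rw [h3]; rfl)).symm
  refine ⟨fun g => l' (l g), (lc_of_fx h.stab l s hs).comp l', fun σ τ => ?_⟩
  apply rho2_inj h
  rw [map_sub, map_add, hl' _ (hl2 _), hl' _ (hl2 _), hl' _ (hl2 _), ← ofMul_mul, ← ofMul_div,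
    ← hl σ τ]
  rfl

/-- The axioms `Ax2`. -/
theorem ax2 (h : Qd D k Q t q dg rt) : Ax2 D := ⟨rec2 h, has2 h⟩

end Pool.Agent.MP72S.E
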