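import Pool.Agent.Lib.MP_72e2e6_nt.Sm.Base

/-!
# MP_72e2e6_nt, `Sm`, block E: the hypotheses on the field `Q`

`k` is an algebraically closed field (an algebraic closure of `F_q`), `Q` a field which contains
`k(t)`, on which the compact group `G` acts (`Q` is the quadratic closure of `k(t)` and
`G = Gal(Q/F_q(t))` with the Krull topology). `Triv k g` says that `g` fixes the constants, that is
`g ∈ Gal(Q/k(t))`. The structure `Qd` is all that block E needs; block E gives for it the axioms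
`Ax2`, `Ax3.recR`, `Ax.rcp` and `Ax.uni`.
-/

namespace Pool.Agent.MP72S

open Polynomial

/-- `g` acts trivially on the constants. -/
def Triv (k : Type) {Q G : Type} [Field k] [Field Q] [Algebra k Q] [Group G]
    [MulSemiringAction G Q] (g : G) : Prop :=
  ∀ c : k, g • algebraMap k Q c = algebraMap k Q c

/-- The hypotheses of block E: `dg v` is the degree of the place `v`, `rt v ∈ k` one of the roots of
the monic irreducible polynomial of the place `v ≠ ∞`. -/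
structure Qd {G N P : Type} [Group G] [TopologicalSpace G] (D : Dat G N P) (k Q : Type) [Field k]
    [Field Q] [Algebra k Q] [MulSemiringAction G Q] (t : Q) (q : ℕ) (dg : P → ℕ) (rt : P → k) :
    Prop where
  q4 : q % 4 = 1
  q1 : 1 < q
  two : (2 : k) ≠ 0
  tr : Transcendental k t
  tfix : ∀ g : G, g • t = t
  sq : ∀ a : Q, ∃ b, b ^ 2 = a
  fix : ∀ a : Q, (∀ g : G, Triv k (Q := Q) g → g • a = a) →
    ∃ p s : k[X], a = aeval t p / aeval t s
  stab : ∀ a : Q, IsOpen {g : G | g • a = a}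
  bas : ∀ U : Set G, IsOpen U → 1 ∈ U → ∃ s : Finset Q, ∀ g : G, (∀ a ∈ s, g • a = a) → g ∈ U
  pro : ∀ U : Subgroup G, IsOpen (U : Set G) → U.Normal → ∀ g : G, Triv k (Q := Q) g →
    ∃ n : ℕ, g ^ 2 ^ n ∈ U
  kf : ∀ (g : G) (c : k), c ^ q = c → g • algebraMap k Q c = algebraMap k Q c
  kalg : ∀ c : k, ∃ n : ℕ, 0 < n ∧ c ^ q ^ n = c
  nq : ∀ v, D.nq v = q ^ dg v
  dg_inf : dg D.inf = 1
  phi : ∀ (v : P) (c : k), D.phi v • algebraMap k Q c = algebraMap k Q (c ^ q ^ dg v)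
  tau : ∀ v, Triv k (Q := Q) (D.tau v)
  rel : ∀ v, D.phi v * D.tau v = D.tau v ^ D.nq v * D.phi v
  orb : ∀ c : k, ∃! p : P × ℕ, p.1 ≠ D.inf ∧ p.2 < dg p.1 ∧ rt p.1 ^ q ^ p.2 = c
  rtd : ∀ v, v ≠ D.inf → rt v ^ q ^ dg v = rt v
  unr : ∀ (m : ℕ) (v : P) (c : k) (r : Q), v ≠ D.inf → c ≠ rt v →
    r ^ 2 ^ m = t - algebraMap k Q c → D.tau v • r = r
  ram : ∀ (m : ℕ) (v : P), v ≠ D.inf → ∃ ζ : k, IsPrimitiveRoot ζ (2 ^ m) ∧
    ∀ r : Q, r ^ 2 ^ m = t - algebraMap k Q (rt v) → D.tau v • r = algebraMap k Q ζ * r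
  rami : ∀ m : ℕ, ∃ ζ : k, IsPrimitiveRoot ζ (2 ^ m) ∧
    ∀ (c : k) (r : Q), r ^ 2 ^ m = t - algebraMap k Q c → D.tau D.inf • r = algebraMap k Q ζ * r

end Pool.Agent.MP72S
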