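import Pool.Agent.Lib.MP_72e2e6_nt.Sm.E.Frb

/-!
# MP_72e2e6_nt, `Sm`, block E: the Frobenius generates `G` modulo `Tr` and open subgroups
-/

set_option linter.unusedSectionVars false

namespace Pool.Agent.MP72S.E

open Polynomial Finset

attribute [local instance] Units.mulDistribMulActionRight

variable {k Q G N P : Type} [Field k] [Group G] [Field Q] [Algebra k Q] [MulSemiringAction G Q]
  [TopologicalSpace G] {D : Dat G N P} {t : Q} {q : ℕ} {dg : P → ℕ} {rt : P → k}
  [IsTopologicalGroup G] [CompactSpace G] [IsAlgClosed k]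

/-- `G` acts on an element of a finite field as a power of the Frobenius. -/
theorem frob_root (h : Qd D k Q t q dg rt) {m : ℕ} (hm : 0 < m) {w : k} (hw : w ^ q ^ m = w)
    (g : G) : ∃ j : ℕ, g • algebraMap k Q w = algebraMap k Q (w ^ q ^ j) := by
  classical
  set fk : k[X] := ∏ j ∈ range m, (X - C (w ^ q ^ j)) with hfk
  set f : Q[X] := fk.map (algebraMap k Q) with hf
  have hf' : f = ∏ j ∈ range m, (X - C (algebraMap k Q (w ^ q ^ j))) := by
    rw [hf, hfk, Polynomial.map_prod]
    refine prod_congr rfl fun j _ => ?_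
    rw [Polynomial.map_sub, Polynomial.map_X, Polynomial.map_C]
  have hmapF : f.map (MulSemiringAction.toRingHom G Q (D.phi D.inf)) = f := by
    have e1 : f.map (MulSemiringAction.toRingHom G Q (D.phi D.inf)) =
        ∏ j ∈ range m, (X - C (algebraMap k Q (w ^ q ^ (j + 1)))) := by
      rw [hf', Polynomial.map_prod]
      refine prod_congr rfl fun j _ => ?_
      rw [Polynomial.map_sub, Polynomial.map_X, Polynomial.map_C]
      congr 2
      have e := frob_k h 1 (w ^ q ^ j)
      rw [pow_one, pow_one, ← pow_mul, ← pow_succ] at e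
      exact e
    have e2 := prod_range_succ (fun j => (X - C (algebraMap k Q (w ^ q ^ j)) : Q[X])) m
    have e3 := prod_range_succ' (fun j => (X - C (algebraMap k Q (w ^ q ^ j)) : Q[X])) m
    rw [e2, pow_zero, pow_one, hw] at e3
    rw [e1, hf']
    exact (mul_right_cancel₀ (X_sub_C_ne_zero _) e3).symm
  have hcf : ∀ (g : G) (i : ℕ), g • f.coeff i = f.coeff i := by
    intro g i
    have e1 := congrArg (fun p : Q[X] => p.coeff i) hmapF
    simp only [Polynomial.coeff_map] at e1
    rw [hf, Polynomial.coeff_map] at e1 ⊢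
    have e2 : D.phi D.inf • algebraMap k Q (fk.coeff i) = algebraMap k Q (fk.coeff i) := e1
    have e3 := frob_k h 1 (fk.coeff i)
    rw [pow_one, pow_one, e2] at e3
    exact h.kf g _ ((algebraMap k Q).injective e3).symm
  have hmapg : f.map (MulSemiringAction.toRingHom G Q g) = f := by
    ext i
    rw [Polynomial.coeff_map]
    exact hcf g i
  have h0 : f.eval (algebraMap k Q w) = 0 := by
    rw [hf', eval_prod]
    refine prod_eq_zero (mem_range.2 hm) ?_
    rw [eval_sub, eval_X, eval_C, pow_zero, pow_one, sub_self]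
  have h1 : f.eval (g • algebraMap k Q w) = 0 := by
    have e := Polynomial.eval₂_hom (MulSemiringAction.toRingHom G Q g) (algebraMap k Q w) (p := f)
    rw [h0, map_zero, ← Polynomial.eval_map, hmapg] at e
    exact e
  rw [hf', eval_prod, prod_eq_zero_iff] at h1
  obtain ⟨j, -, hj⟩ := h1
  rw [eval_sub, eval_X, eval_C, sub_eq_zero] at hj
  exact ⟨j, hj⟩

theorem frob_unif (h : Qd D k Q t q dg rt) {m : ℕ} (hm : 0 < m) (g : G) :
    ∃ j : ℕ, ∀ c : k, c ^ q ^ m = c → g • algebraMap k Q c = algebraMap k Q (c ^ q ^ j) := by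
  have hq := h.q1
  have hn : 0 < q ^ m - 1 := by
    have := Nat.one_lt_pow hm.ne' hq
    omega
  have : NeZero (q ^ m - 1) := ⟨hn.ne'⟩
  have hsucc : q ^ m = q ^ m - 1 + 1 := by omega
  have hpw : ∀ x : k, x ^ (q ^ m - 1) = 1 → x ^ q ^ m = x := by
    intro x hx
    rw [hsucc, pow_succ, hx, one_mul]
  obtain ⟨w, hw⟩ := IsCyclic.exists_monoid_generator (α := rootsOfUnity (q ^ m - 1) k)
  have hw1 : ((w : kˣ) : k) ^ (q ^ m - 1) = 1 := by
    have := (mem_rootsOfUnity _ _).1 w.2
    rw [← Units.val_pow_eq_pow_val, this, Units.val_one]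
  obtain ⟨j, hj⟩ := frob_root h hm (hpw _ hw1) g
  refine ⟨j, fun c hc => ?_⟩
  by_cases hc0 : c = 0
  · have : q ^ j ≠ 0 := pow_ne_zero _ (by omega)
    rw [hc0, zero_pow this, map_zero, smul_zero]
  · have hc1 : c ^ (q ^ m - 1) = 1 := by
      rw [hsucc, pow_succ] at hc
      exact mul_right_cancel₀ hc0 (hc.trans (one_mul c).symm)
    obtain ⟨e, he⟩ := hw ⟨Units.mk0 c hc0, (mem_rootsOfUnity _ _).2 (Units.ext hc1)⟩
    have he' : c = ((w : kˣ) : k) ^ e := by
      have := congrArg (fun x : rootsOfUnity (q ^ m - 1) k => ((x : kˣ) : k)) he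
      simp only [Subgroup.coe_pow, Units.val_pow_eq_pow_val, Units.val_mk0] at this
      exact this.symm
    rw [he', map_pow, smul_pow', hj, ← map_pow, ← pow_mul, ← pow_mul, mul_comm]

theorem kalg_mul {c : k} {n : ℕ} (hc : c ^ q ^ n = c) (e : ℕ) :
    c ^ q ^ (n * e) = c := by
  induction e with
  | zero => rw [mul_zero, pow_zero, pow_one]
  | succ e ih => rw [mul_add, mul_one, pow_add, pow_mul, ih, hc]

theorem cof (h : Qd D k Q t q dg rt) {s : Finset Q} (g : G) :
    ∃ a : ℕ, ∃ σ ∈ Tr k Q G, ∃ u ∈ Fx G s, g = σ * D.phi D.inf ^ a * u := by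
  classical
  set V : Set G := {g | ∃ σ ∈ Tr k Q G, ∃ u ∈ Fx G s, g = σ * u} with hV
  have hVo : IsOpen V := by
    have e : V = ⋃ σ ∈ Tr k Q G, (fun g => σ⁻¹ * g) ⁻¹' (Fx G s : Set G) := by
      ext g
      simp only [hV, Set.mem_ofPred_eq, Set.mem_iUnion, Set.mem_preimage, SetLike.mem_coe,
        exists_prop]
      constructor
      · rintro ⟨σ, hσ, u, hu, rfl⟩
        exact ⟨σ, hσ, by rwa [inv_mul_cancel_left]⟩
      · rintro ⟨σ, hσ, hu⟩
        exact ⟨σ, hσ, _, hu, by rw [mul_inv_cancel_left]⟩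
    rw [e]
    exact isOpen_biUnion fun σ _ => (fx_open h.stab s).preimage (continuous_const.mul continuous_id)
  have hC : IsCompact Vᶜ := hVo.isClosed_compl.isCompact
  obtain ⟨T, hT⟩ := hC.elim_finite_subcover
    (fun c : k => {g : G | g • algebraMap k Q c = algebraMap k Q c}ᶜ)
    (fun c => ((orb_lc h.stab (algebraMap k Q c)).isClosed_fiber (algebraMap k Q c)).isOpen_compl)
    (fun g hg => by
      rw [Set.mem_iUnion]
      by_contra hcon
      push Not at hcon
      apply hg
      refine ⟨g, fun c => ?_, 1, one_mem _, (mul_one g).symm⟩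
      have := hcon c
      rwa [Set.notMem_compl_iff] at this)
  choose o ho ho' using h.kalg
  set m : ℕ := ∏ c ∈ T, o c with hm
  have hm0 : 0 < m := prod_pos fun c _ => ho c
  have hmT : ∀ c ∈ T, c ^ q ^ m = c := by
    intro c hc
    obtain ⟨e, he⟩ := dvd_prod_of_mem o hc
    rw [hm, he]
    exact kalg_mul (ho' c) e
  obtain ⟨j, hj⟩ := frob_unif h hm0 g
  have hg' : (D.phi D.inf ^ j)⁻¹ * g ∈ V := by
    by_contra hcon
    have h1 := hT hcon
    simp only [Set.mem_iUnion, exists_prop] at h1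
    obtain ⟨c, hc, h2⟩ := h1
    apply h2
    change ((D.phi D.inf ^ j)⁻¹ * g) • algebraMap k Q c = algebraMap k Q c
    rw [mul_smul, hj c (hmT c hc), frob_inv_k h]
  obtain ⟨σ, hσ, u, hu, e⟩ := hg'
  refine ⟨j, D.phi D.inf ^ j * σ * (D.phi D.inf ^ j)⁻¹, conj_tr h hσ _, u, hu, ?_⟩
  rw [inv_mul_cancel_right, mul_assoc, ← e, mul_inv_cancel_left]

end Pool.Agent.MP72S.E
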