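import Pool.Agent.Lib.MP_72e2e6_nt.Sm.E.Lc
import Pool.Agent.Lib.MP_7f581e_Z.FF.Tsen

/-!
# MP_72e2e6_nt, `Sm`, block E: conics over finite extensions of `k(t)` have points
-/

namespace Pool.Agent.MP72S.E

open Polynomial

/-- The fixed field of `g`. -/
def fixG (K' : Type) {Q G : Type} [Field K'] [Field Q] [Algebra K' Q] [Group G]
    [MulSemiringAction G Q] (g : G) (hg : ∀ c : K', g • algebraMap K' Q c = algebraMap K' Q c) :
    IntermediateField K' Q where
  carrier := {x | g • x = x}
  mul_mem' {x y} (hx : g • x = x) (hy : g • y = y) := by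
    change g • (x * y) = x * y
    rw [smul_mul', hx, hy]
  add_mem' {x y} (hx : g • x = x) (hy : g • y = y) := by
    change g • (x + y) = x + y
    rw [smul_add, hx, hy]
  algebraMap_mem' := hg
  inv_mem' x (hx : g • x = x) := by
    change g • x⁻¹ = x⁻¹
    rw [smul_inv'', hx]

variable {k G Q : Type} [Field k] [Group G] [Field Q] [Algebra k Q] [MulSemiringAction G Q] {t : Q}

theorem mem_k0 (fix : ∀ a : Q, (∀ g : G, Triv k (Q := Q) g → g • a = a) →
      ∃ p s : k[X], a = aeval t p / aeval t s) {a : Q}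
    (ha : ∀ g : G, Triv k (Q := Q) g → g • a = a) : a ∈ IntermediateField.adjoin k {t} := by
  rw [IntermediateField.mem_adjoin_simple_iff]
  exact fix a ha

theorem c1_k0 [IsAlgClosed k] (tr : Transcendental k t) :
    MP7Z.Tsen.C1 (IntermediateField.adjoin k {t}) := by
  refine MP7Z.Tsen.c1_of_gen (𝕜 := k) ⟨t, IntermediateField.mem_adjoin_simple_self k t⟩ ?_ ?_
  · intro halg
    apply tr
    exact halg.algebraMap (A := Q)
  · rintro ⟨a, ha⟩
    obtain ⟨p, q, h⟩ := (IntermediateField.mem_adjoin_simple_iff k a).1 ha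
    refine ⟨p, q, ?_⟩
    apply Subtype.ext
    change a = _
    rw [h]
    push_cast
    rw [← IntermediateField.algebraMap_apply, ← IntermediateField.algebraMap_apply,
      ← Polynomial.aeval_algebraMap_apply, ← Polynomial.aeval_algebraMap_apply]
    rfl

variable [TopologicalSpace G] [IsTopologicalGroup G] [CompactSpace G]

theorem int_k0 (stab : ∀ a : Q, IsOpen {g : G | g • a = a})
    (fix : ∀ a : Q, (∀ g : G, Triv k (Q := Q) g → g • a = a) →
      ∃ p s : k[X], a = aeval t p / aeval t s) (a : Q) :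
    IsIntegral (IntermediateField.adjoin k {t}) a := by
  classical
  set S : Finset Q := (orb_fin stab a).toFinset with hS
  have hSst : St G S := by
    intro g b hb
    rw [hS, Set.Finite.mem_toFinset] at hb ⊢
    obtain ⟨g', rfl⟩ := hb
    exact ⟨g * g', mul_smul g g' a⟩
  have haS : a ∈ S := by
    rw [hS, Set.Finite.mem_toFinset]
    exact ⟨1, one_smul G a⟩
  set f : Q[X] := ∏ b ∈ S, (X - C b) with hf
  have hfg : ∀ (g : G) (n : ℕ), g • f.coeff n = f.coeff n := by
    intro g n
    have h1 : f.map (MulSemiringAction.toRingHom G Q g) = f := by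
      rw [hf, Polynomial.map_prod]
      refine Finset.prod_nbij' (fun b => g • b) (fun b => g⁻¹ • b) (fun b hb => hSst g b hb)
        (fun b hb => hSst g⁻¹ b hb) (fun b _ => inv_smul_smul g b) (fun b _ => smul_inv_smul g b)
        (fun b _ => ?_)
      rw [Polynomial.map_sub, Polynomial.map_X, Polynomial.map_C]
      rfl
    have h2 := congrArg (fun p : Q[X] => p.coeff n) h1
    simp only [Polynomial.coeff_map] at h2
    exact h2
  have hlift : f ∈ Polynomial.lifts (algebraMap (IntermediateField.adjoin k {t}) Q) := by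
    rw [Polynomial.lifts_iff_coeff_lifts]
    intro n
    exact ⟨⟨_, mem_k0 fix fun g _ => hfg g n⟩, rfl⟩
  have hmon : f.Monic := monic_prod_of_monic _ _ fun b _ => monic_X_sub_C b
  obtain ⟨f', hf', -, hf'm⟩ := Polynomial.lifts_and_degree_eq_and_monic hlift hmon
  refine ⟨f', hf'm, ?_⟩
  rw [← Polynomial.eval_map, hf', hf, Polynomial.eval_prod]
  exact Finset.prod_eq_zero haS (by simp)

theorem conic [IsAlgClosed k] (tr : Transcendental k t) (tfix : ∀ g : G, g • t = t)
    (stab : ∀ a : Q, IsOpen {g : G | g • a = a})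
    (fix : ∀ a : Q, (∀ g : G, Triv k (Q := Q) g → g • a = a) →
      ∃ p s : k[X], a = aeval t p / aeval t s) (a b : Q) :
    ∃ u v w : Q, (∀ g : G, Triv k (Q := Q) g → g • a = a → g • b = b →
      g • u = u ∧ g • v = v ∧ g • w = w) ∧
      ¬ (u = 0 ∧ v = 0 ∧ w = 0) ∧ u ^ 2 = a * v ^ 2 + b * w ^ 2 := by
  classical
  set K0 := IntermediateField.adjoin k {t} with hK0
  set L := IntermediateField.adjoin K0 ({a, b} : Set Q) with hL
  have : FiniteDimensional K0 L :=
    IntermediateField.finiteDimensional_adjoin fun x _ => int_k0 stab fix x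
  have hC : MP7Z.Tsen.C1 L := (c1_k0 tr).finite
  have ha : a ∈ L := IntermediateField.subset_adjoin K0 _ (by simp)
  have hb : b ∈ L := IntermediateField.subset_adjoin K0 _ (by simp)
  let P : MvPolynomial (Fin 3) L := MvPolynomial.X 0 ^ 2 -
    MvPolynomial.C ⟨a, ha⟩ * MvPolynomial.X 1 ^ 2 - MvPolynomial.C ⟨b, hb⟩ * MvPolynomial.X 2 ^ 2
  have hP : P.IsHomogeneous 2 := by
    refine ((MvPolynomial.isHomogeneous_X_pow _ _).sub ?_).sub ?_
    · exact MvPolynomial.isHomogeneous_C_mul_X_pow _ _ _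
    · exact MvPolynomial.isHomogeneous_C_mul_X_pow _ _ _
  obtain ⟨c, hc, h⟩ := hC (Fin 3) 2 P two_pos (by simp) hP
  have hfixL : ∀ g : G, Triv k (Q := Q) g → g • a = a → g • b = b → ∀ x : L, g • (x : Q) = x := by
    intro g hg hga hgb x
    have h0 : K0 ≤ fixG k g hg := by
      rw [hK0, IntermediateField.adjoin_le_iff, Set.singleton_subset_iff]
      exact tfix g
    have h1 : L ≤ fixG K0 g fun c => h0 c.2 := by
      rw [hL, IntermediateField.adjoin_le_iff]
      rintro y (rfl | hy)
      · exact hga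
      · rw [Set.mem_singleton_iff] at hy
        rw [hy]
        exact hgb
    exact h1 x.2
  refine ⟨c 0, c 1, c 2, fun g hg hga hgb => ⟨hfixL g hg hga hgb _, hfixL g hg hga hgb _,
    hfixL g hg hga hgb _⟩, ?_, ?_⟩
  · rintro ⟨h0, h1, h2⟩
    apply hc
    funext i
    fin_cases i
    · exact Subtype.ext h0
    · exact Subtype.ext h1
    · exact Subtype.ext h2
  · have h3 : c 0 ^ 2 - (⟨a, ha⟩ : L) * c 1 ^ 2 - (⟨b, hb⟩ : L) * c 2 ^ 2 = 0 := by
      rw [← h]
      simp [P]
    have h4 := congrArg (fun x : L => (x : Q)) h3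
    push_cast at h4
    linear_combination h4

end Pool.Agent.MP72S.E
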