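import Pool.Agent.Lib.MP_72e2e6_nt.Sm.E.Lvl
import Pool.Agent.Lib.MP_72e2e6_nt.Sm.E.Tsn

/-!
# MP_72e2e6_nt, `Sm`, block E: the constants; cocycles are coboundaries over `k(t)`
-/

set_option linter.unusedSectionVars false

namespace Pool.Agent.MP72S.E

open Polynomial

attribute [local instance] Units.mulDistribMulActionRight

section

variable (k Q G : Type) [Field k] [Group G] [Field Q] [Algebra k Q] [MulSemiringAction G Q]

/-- The subgroup of the elements which fix the constants. -/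
def Tr : Subgroup G where
  carrier := {g | Triv k (Q := Q) g}
  mul_mem' {g h} hg hh c := by
    rw [mul_smul, hh c, hg c]
  one_mem' c := one_smul G _
  inv_mem' {g} hg c := by
    rw [inv_smul_eq_iff, hg c]

theorem mem_tr {g : G} : g ∈ Tr k Q G ↔ Triv k (Q := Q) g := Iff.rfl

/-- The units of the constants. -/
def Cs : Subgroup Qˣ where
  carrier := {x | ∃ c : k, algebraMap k Q c = x}
  mul_mem' {x y} hx hy := by
    obtain ⟨c, hc⟩ := hx
    obtain ⟨d, hd⟩ := hy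
    exact ⟨c * d, by rw [map_mul, hc, hd, Units.val_mul]⟩
  one_mem' := ⟨1, by rw [map_one, Units.val_one]⟩
  inv_mem' {x} hx := by
    obtain ⟨c, hc⟩ := hx
    exact ⟨c⁻¹, by rw [map_inv₀, hc, Units.val_inv_eq_inv_val]⟩

variable {k Q G}

theorem cs_smul {x : Qˣ} (hx : x ∈ Cs k Q) {g : G} (hg : g ∈ Tr k Q G) : g • x = x := by
  obtain ⟨c, hc⟩ := hx
  apply Units.ext
  rw [Units.coe_smul, ← hc]
  exact hg c

theorem const_of_int [IsAlgClosed k] {x : Q} (hx : IsIntegral k x) : ∃ c : k, algebraMap k Q c = x := by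
  have h1 := IsAlgClosed.degree_eq_one_of_irreducible k (minpoly.irreducible hx)
  exact minpoly.mem_range_of_degree_eq_one k x h1

theorem cs_of_pow [IsAlgClosed k] {x : Qˣ} {n : ℕ} (hn : 0 < n) (hx : x ^ n ∈ Cs k Q) :
    x ∈ Cs k Q := by
  obtain ⟨c, hc⟩ := hx
  refine const_of_int (IsIntegral.of_pow hn ?_)
  rw [Units.val_pow_eq_pow_val] at hc
  rw [← hc]
  exact isIntegral_algebraMap

theorem cs_of_pow_one [IsAlgClosed k] {x : Qˣ} {n : ℕ} (hn : 0 < n) (hx : x ^ n = 1) :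
    x ∈ Cs k Q := cs_of_pow hn (by rw [hx]; exact one_mem _)

theorem exists_pow_root (sq : ∀ a : Q, ∃ b, b ^ 2 = a) (m : ℕ) (a : Qˣ) :
    ∃ b : Qˣ, b ^ 2 ^ m = a := by
  induction m with
  | zero => exact ⟨a, by rw [pow_zero, pow_one]⟩
  | succ m ih =>
    obtain ⟨b, hb⟩ := ih
    obtain ⟨c, hc⟩ := sq b
    have hc0 : c ≠ 0 := by
      rintro rfl
      exact b.ne_zero (by rw [← hc]; ring)
    refine ⟨Units.mk0 c hc0, ?_⟩
    rw [pow_succ, mul_comm, pow_mul, ← hb]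
    congr 1
    exact Units.ext hc

end

section

variable {k Q G N P : Type} [Field k] [Group G] [Field Q] [Algebra k Q] [MulSemiringAction G Q]
  [TopologicalSpace G] {D : Dat G N P} {t : Q} {q : ℕ} {dg : P → ℕ} {rt : P → k}

theorem cs_pow_one (h : Qd D k Q t q dg rt) {x : Qˣ} (hx : x ∈ Cs k Q) :
    ∃ n : ℕ, 0 < n ∧ x ^ (q ^ n - 1) = 1 := by
  obtain ⟨c, hc⟩ := hx
  obtain ⟨n, hn, hcn⟩ := h.kalg c
  refine ⟨n, hn, ?_⟩
  have h1 : x ^ q ^ n = x := by
    apply Units.ext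
    rw [Units.val_pow_eq_pow_val, ← hc, ← map_pow, hcn]
  have h2 : q ^ n - 1 + 1 = q ^ n := Nat.sub_add_cancel (Nat.one_le_pow _ _ (by have := h.q1; omega))
  rw [← h2, pow_succ] at h1
  exact mul_eq_right.1 h1

theorem cs_stab [IsAlgClosed k] (h : Qd D k Q t q dg rt) {x : Qˣ} (hx : x ∈ Cs k Q) (g : G) :
    g • x ∈ Cs k Q := by
  obtain ⟨n, hn, hx1⟩ := cs_pow_one h hx
  have h2 : 0 < q ^ n - 1 := by
    have := Nat.one_lt_pow hn.ne' h.q1
    omega
  refine cs_of_pow_one h2 ?_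
  rw [← smul_pow', hx1, smul_one]

theorem tr_normal [IsAlgClosed k] (h : Qd D k Q t q dg rt) : (Tr k Q G).Normal := by
  refine ⟨fun g hg x c => ?_⟩
  by_cases hc : c = 0
  · rw [hc, map_zero, smul_zero]
  · have hc' : algebraMap k Q c ≠ 0 := by
      intro h0
      exact hc ((algebraMap k Q).injective (by rw [h0, map_zero]))
    have h1 : Units.mk0 _ hc' ∈ Cs k Q := ⟨c, rfl⟩
    have h2 := cs_smul (cs_stab h h1 x⁻¹) hg
    have h3 := congrArg Units.val h2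
    rw [Units.coe_smul, Units.coe_smul, Units.val_mk0] at h3
    rw [mul_smul, mul_smul, h3, smul_inv_smul]

variable [IsTopologicalGroup G] [CompactSpace G] [IsAlgClosed k]

theorem qtwo (h : Qd D k Q t q dg rt) : (2 : Q) ≠ 0 := by
  intro h0
  apply h.two
  apply (algebraMap k Q).injective
  rw [map_zero, map_ofNat, h0]

theorem fin_quot (h : Qd D k Q t q dg rt) (s : Finset Q) :
    Finite (Tr k Q G ⧸ (Fx G s).subgroupOf (Tr k Q G)) := by
  have : Finite (G ⧸ Fx G s) := Subgroup.quotient_finite_of_isOpen _ (fx_open h.stab s)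
  have : (Fx G s).FiniteIndex := Subgroup.finiteIndex_of_finite_quotient
  have : ((Fx G s).subgroupOf (Tr k Q G)).FiniteIndex := inferInstance
  exact Subgroup.finite_quotient_of_finiteIndex

theorem nrm_sub {s : Finset Q} (hs : St G s) : ((Fx G s).subgroupOf (Tr k Q G)).Normal := by
  have := fx_normal hs
  exact Subgroup.normal_subgroupOf

theorem faith_sub (s : Finset Q) (g : Tr k Q G)
    (hg : ∀ x : Q, (∀ w ∈ (Fx G s).subgroupOf (Tr k Q G), w • x = x) → g • x = x) :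
    g ∈ (Fx G s).subgroupOf (Tr k Q G) := by
  rw [Subgroup.mem_subgroupOf]
  intro a ha
  exact hg a fun w hw => hw a ha

/-- A function on `Tr` of level `s`. -/
def Lv (k : Type) {Q G X : Type} [Field k] [Group G] [Field Q] [Algebra k Q]
    [MulSemiringAction G Q] (s : Finset Q) (l : G → X) : Prop :=
  ∀ g ∈ Tr k Q G, ∀ u ∈ Tr k Q G, u ∈ Fx G s → l (g * u) = l g

theorem Lv.mono {X : Type} {s s' : Finset Q} {l : G → X} (h : Lv k s l) (hs : s ⊆ s') :
    Lv k s' l := fun g hg u hu hu' => h g hg u hu (fx_mono hs hu')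

/-- Hilbert 90 for `Tr`. -/
theorem h90T (h : Qd D k Q t q dg rt) (a : G → Qˣ) {s : Finset Q} (hs : St G s)
    (haL : Lv k s a) (ha : ∀ g ∈ Tr k Q G, ∀ j ∈ Tr k Q G, a (g * j) = a g * g • a j) :
    ∃ x : Qˣ, ∀ g ∈ Tr k Q G, a g = g • x / x := by
  have := nrm_sub (k := k) hs
  have := fin_quot h s
  obtain ⟨x, -, hx⟩ := h90A ((Fx G s).subgroupOf (Tr k Q G)) (faith_sub s)
    (fun g : Tr k Q G => a g) (fun g j => ha g g.2 j j.2)
    (fun g u hu => haL g g.2 u u.2 (Subgroup.mem_subgroupOf.1 hu))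
  exact ⟨x, fun g hg => hx ⟨g, hg⟩⟩

/-- The restriction of a `2`-cocycle to `Tr` is a coboundary. -/
theorem lvl (h : Qd D k Q t q dg rt) (z : G → G → Qˣ) (hz : IsM2 z)
    (hlc : IsLocallyConstant fun p : G × G => z p.1 p.2) (m : ℕ) (hN : ∀ g j, z g j ^ 2 ^ m = 1) :
    ∃ l : G → Qˣ, (∃ s : Finset Q, St G s ∧ Lv k s l) ∧ (∀ g, l g ^ 2 ^ m = 1) ∧
      ∀ g ∈ Tr k Q G, ∀ j ∈ Tr k Q G, z g j = l g * l j / l (g * j) := by
  classical
  have hN0 : 0 < 2 ^ m := pow_pos two_pos m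
  have hzc : ∀ g j, z g j ∈ Cs k Q := fun g j => cs_of_pow_one hN0 (hN g j)
  obtain ⟨s, hs, hsz⟩ := lc2 h.stab h.bas z hlc
  have := nrm_sub (k := k) hs
  have := fin_quot h s
  obtain ⟨c, hc1, hc2, hc3⟩ := splA ((Fx G s).subgroupOf (Tr k Q G)) (qtwo h) (faith_sub s)
    (fun g => by
      obtain ⟨n, hn⟩ := h.pro (Fx G s) (fx_open h.stab s) (fx_normal hs) g g.2
      exact ⟨n, Subgroup.mem_subgroupOf.2 hn⟩)
    (fun a b => by
      obtain ⟨u, v, w, h1, h2⟩ := conic h.tr h.tfix h.stab h.fix a b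
      exact ⟨u, v, w, fun g => h1 g g.2, h2⟩)
    (fun g j => z g j)
    (fun g j i => by
      have h1 := hz g j i
      rw [cs_smul (hzc _ _) g.2] at h1
      exact h1)
    (fun g j i => cs_smul (hzc _ _) g.2)
    (fun g j u hu u' hu' => hsz u (Subgroup.mem_subgroupOf.1 hu) u'
      (Subgroup.mem_subgroupOf.1 hu') g j)
  have hb1 : ∀ g j : Tr k Q G, c (g * j) ^ 2 ^ m = c g ^ 2 ^ m * g • c j ^ 2 ^ m := by
    intro g j
    have h1 := congrArg (fun x : Qˣ => x ^ 2 ^ m) (hc3 g j)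
    simp only [hN, div_pow, mul_pow] at h1
    rw [eq_comm, div_eq_one] at h1
    rw [← h1, smul_pow']
  obtain ⟨x, hx1, hx2⟩ := h90A ((Fx G s).subgroupOf (Tr k Q G)) (faith_sub s)
    (fun g : Tr k Q G => c g ^ 2 ^ m) hb1 (fun g u hu => by simp only [hc1 g u hu])
  obtain ⟨b, hb⟩ := exists_pow_root h.sq m x
  obtain ⟨s', hss', hs'⟩ := exists_st h.stab (insert (b : Q) s)
  have hl1 : ∀ g : Tr k Q G, (c g * b / (g • b)) ^ 2 ^ m = 1 := by
    intro g
    rw [div_pow, mul_pow, ← smul_pow', hb, hx2 g, div_mul_cancel, div_self']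
  obtain ⟨l, hl2, hl3⟩ : ∃ l : G → Qˣ, (∀ g (hg : g ∈ Tr k Q G), l g = c ⟨g, hg⟩ * b / (g • b)) ∧
      ∀ g, g ∉ Tr k Q G → l g = 1 :=
    ⟨fun g => if hg : g ∈ Tr k Q G then c ⟨g, hg⟩ * b / (g • b) else 1, fun g hg => dif_pos hg,
      fun g hg => dif_neg hg⟩
  refine ⟨l, ⟨s', hs', ?_⟩, ?_, ?_⟩
  · intro g hg u hu hus
    have hgu : g * u ∈ Tr k Q G := mul_mem hg hu
    rw [hl2 _ hgu, hl2 _ hg]
    have e1 : c ⟨g * u, hgu⟩ = c ⟨g, hg⟩ := hc1 ⟨g, hg⟩ ⟨u, hu⟩ (Subgroup.mem_subgroupOf.2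
      (fx_mono ((Finset.subset_insert _ _).trans hss') hus))
    have e2 : (g * u) • b = g • b := by
      rw [mul_smul]
      congr 1
      exact Units.ext (hus b (hss' (Finset.mem_insert_self _ _)))
    rw [e1, e2]
  · intro g
    by_cases hg : g ∈ Tr k Q G
    · rw [hl2 _ hg]
      exact hl1 ⟨g, hg⟩
    · rw [hl3 _ hg, one_pow]
  · intro g hg j hj
    have hgj : g * j ∈ Tr k Q G := mul_mem hg hj
    rw [hl2 _ hg, hl2 _ hj, hl2 _ hgj]
    have e1 : g • (c ⟨j, hj⟩ * b / (j • b)) = c ⟨j, hj⟩ * b / (j • b) :=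
      cs_smul (cs_of_pow_one hN0 (hl1 ⟨j, hj⟩)) hg
    have e2 : z g j = c ⟨g, hg⟩ * g • c ⟨j, hj⟩ / c ⟨g * j, hgj⟩ := hc3 ⟨g, hg⟩ ⟨j, hj⟩
    rw [e2, ← e1, smul_div', smul_mul', smul_smul]
    have e3 : ∀ A B C D E F : Qˣ, A * B / C = A * D / E * (B * E / F) / (C * D / F) := by
      intro A B C D E F
      simp only [div_eq_mul_inv, mul_inv, inv_inv]
      have : A * D * E⁻¹ * (B * E * F⁻¹) * (C⁻¹ * D⁻¹ * F) =
          A * B * C⁻¹ * (D * D⁻¹) * (E⁻¹ * E) * (F⁻¹ * F) := by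
        simp only [mul_comm, mul_left_comm, mul_assoc]
      rw [this]
      simp
    exact e3 _ _ _ _ _ _

end

end Pool.Agent.MP72S.E
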