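import Mathlib

/-!
# MP_72e2e6_nt, `Sm`, block E: the extension defined by a `2`-cocycle
-/

namespace Pool.Agent.MP72S.E

variable {G M : Type} [Group G] [CommGroup M] [MulDistribMulAction G M]

/-- Multiplicative `2`-cocycles. -/
def IsM2 (z : G → G → M) : Prop :=
  ∀ g h k, z g h * z (g * h) k = g • z h k * z g (h * k)

theorem IsM2.right {z : G → G → M} (hz : IsM2 z) (g : G) : z g 1 = g • z 1 1 := by
  have h := hz g 1 1
  rw [mul_one, mul_one] at h
  exact mul_right_cancel h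

theorem IsM2.left {z : G → G → M} (hz : IsM2 z) (g : G) : z 1 g = z 1 1 := by
  have h := hz 1 1 g
  rw [mul_one, one_mul, one_smul] at h
  exact (mul_right_cancel h).symm

/-- The extension of `G` by `M` defined by `z`. -/
@[ext] structure Ex {z : G → G → M} (hz : IsM2 z) where
  /-- the component in `M` -/
  m : M
  /-- the component in `G` -/
  g : G

namespace Ex

variable {z : G → G → M} {hz : IsM2 z}

instance : Mul (Ex hz) := ⟨fun a b => ⟨a.m * a.g • b.m * z a.g b.g, a.g * b.g⟩⟩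

instance : One (Ex hz) := ⟨⟨(z 1 1)⁻¹, 1⟩⟩

instance : Inv (Ex hz) := ⟨fun a => ⟨(z 1 1)⁻¹ * (z a.g⁻¹ a.g)⁻¹ * (a.g⁻¹ • a.m)⁻¹, a.g⁻¹⟩⟩

theorem mul_def (a b : Ex hz) : a * b = ⟨a.m * a.g • b.m * z a.g b.g, a.g * b.g⟩ := rfl

theorem one_def : (1 : Ex hz) = ⟨(z 1 1)⁻¹, 1⟩ := rfl

theorem inv_def (a : Ex hz) :
    a⁻¹ = ⟨(z 1 1)⁻¹ * (z a.g⁻¹ a.g)⁻¹ * (a.g⁻¹ • a.m)⁻¹, a.g⁻¹⟩ := rfl

instance : Group (Ex hz) := by
  refine Group.ofLeftAxioms ?_ ?_ ?_
  · intro a b c
    ext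
    · simp only [mul_def, smul_mul', smul_smul]
      have h := hz a.g b.g c.g
      have e1 : a.m * a.g • b.m * z a.g b.g * (a.g * b.g) • c.m * z (a.g * b.g) c.g =
          a.m * a.g • b.m * (a.g * b.g) • c.m * (z a.g b.g * z (a.g * b.g) c.g) := by
        simp only [mul_comm, mul_left_comm, mul_assoc]
      rw [e1, h]
      simp only [mul_assoc]
    · simp only [mul_def, mul_assoc]
  · intro a
    ext
    · simp only [mul_def, one_def, one_smul, hz.left]
      simp only [mul_comm, mul_left_comm, mul_inv_cancel, mul_one]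
    · simp only [mul_def, one_def, one_mul]
  · intro a
    ext
    · simp only [mul_def, one_def, inv_def]
      have e1 : (z 1 1)⁻¹ * (z a.g⁻¹ a.g)⁻¹ * (a.g⁻¹ • a.m)⁻¹ * a.g⁻¹ • a.m * z a.g⁻¹ a.g =
          (z 1 1)⁻¹ * ((z a.g⁻¹ a.g)⁻¹ * z a.g⁻¹ a.g) * ((a.g⁻¹ • a.m)⁻¹ * a.g⁻¹ • a.m) := by
        simp only [mul_comm, mul_left_comm, mul_assoc]
      rw [e1, inv_mul_cancel, inv_mul_cancel, mul_one, mul_one]
    · simp only [mul_def, one_def, inv_def, inv_mul_cancel]

variable (hz)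

/-- The projection. -/
def pr : Ex hz →* G where
  toFun a := a.g
  map_one' := rfl
  map_mul' _ _ := rfl

/-- The inclusion. -/
def inc : M →* Ex hz where
  toFun x := ⟨x * (z 1 1)⁻¹, 1⟩
  map_one' := by
    ext
    · simp only [one_def, one_mul]
    · rfl
  map_mul' x y := by
    ext
    · simp only [mul_def, one_smul]
      rw [mul_assoc (x * (z 1 1)⁻¹) _ (z 1 1), mul_assoc y, inv_mul_cancel, mul_one,
        mul_assoc x, mul_assoc x, mul_comm y]
    · simp only [mul_def, mul_one]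

/-- The canonical lift. -/
def sec (g : G) : Ex hz := ⟨1, g⟩

theorem pr_inc (x : M) : pr hz (inc hz x) = 1 := rfl

theorem pr_sec (g : G) : pr hz (sec hz g) = g := rfl

theorem inc_mul (x : M) (e : Ex hz) : inc hz x * e = ⟨x * e.m, e.g⟩ := by
  ext
  · change x * (z 1 1)⁻¹ * (1 : G) • e.m * z 1 e.g = x * e.m
    rw [one_smul, hz.left e.g, mul_assoc, mul_assoc, mul_comm e.m, inv_mul_cancel_left]
  · exact one_mul e.g

theorem inc_inj {x y : M} (h : inc hz x = inc hz y) : x = y := by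
  have h1 := congrArg Ex.m h
  exact mul_right_cancel h1

theorem mul_inc (e : Ex hz) (x : M) : e * inc hz x = inc hz (e.g • x) * e := by
  rw [inc_mul]
  ext
  · change e.m * e.g • (x * (z 1 1)⁻¹) * z e.g 1 = e.g • x * e.m
    rw [smul_mul', hz.right e.g, smul_inv', mul_assoc, mul_assoc, inv_mul_cancel, mul_one, mul_comm]
  · exact mul_one e.g

theorem eq_inc {e e' : Ex hz} (h : pr hz e = pr hz e') : ∃ x, e = inc hz x * e' := by
  refine ⟨e.m * e'.m⁻¹, ?_⟩
  rw [inc_mul]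
  ext
  · change e.m = e.m * e'.m⁻¹ * e'.m
    rw [inv_mul_cancel_right]
  · exact h

theorem mk_eq (x : M) (g : G) : (⟨x, g⟩ : Ex hz) = inc hz x * sec hz g := by
  rw [inc_mul]
  ext
  · change x = x * 1
    rw [mul_one]
  · rfl

theorem sec_mul (g h : G) : sec hz g * sec hz h = inc hz (z g h) * sec hz (g * h) := by
  rw [inc_mul]
  ext
  · change 1 * g • (1 : M) * z g h = z g h * 1
    rw [smul_one, one_mul, one_mul, mul_one]
  · rfl

theorem inc_comm (x y : M) : inc hz x * inc hz y = inc hz y * inc hz x := by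
  rw [← map_mul, mul_comm, map_mul]

end Ex

end Pool.Agent.MP72S.E
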