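import Pool.Agent.Lib.MP_72e2e6_nt.Sm.E.Kum

/-!
# MP_72e2e6_nt, `Sm`, block E: the local invariants in terms of the action of the Frobenius
-/

set_option linter.unusedSectionVars false

namespace Pool.Agent.MP72S.E

open Polynomial Finset

attribute [local instance] Units.mulDistribMulActionRight

section

variable {G M N P : Type} [Group G] [CommGroup M] [MulDistribMulAction G M]

/-- The local invariant, multiplicatively. -/
def ivM (D : Dat G N P) (z : G → G → M) (v : P) : M :=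
  z (D.phi v) (D.tau v) / (∏ i ∈ range (D.nq v - 1), z (D.tau v ^ (i + 1)) (D.tau v)) /
    z (D.tau v ^ D.nq v) (D.phi v)

theorem sec_pow {z : G → G → M} (hz : IsM2 z) (g : G) (n : ℕ) :
    Ex.sec hz g ^ (n + 1) =
      Ex.inc hz (∏ i ∈ range n, z (g ^ (i + 1)) g) * Ex.sec hz (g ^ (n + 1)) := by
  induction n with
  | zero => rw [range_zero, prod_empty, map_one, one_mul, zero_add, pow_one, pow_one]
  | succ n ih =>
    rw [pow_succ, ih, mul_assoc, Ex.sec_mul, ← mul_assoc, ← map_mul, prod_range_succ, ← pow_succ]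

theorem iv_rel {D : Dat G N P} {z : G → G → M} (hz : IsM2 z) (v : P) (hq : 0 < D.nq v)
    (hrel : D.phi v * D.tau v = D.tau v ^ D.nq v * D.phi v) :
    Ex.sec hz (D.phi v) * Ex.sec hz (D.tau v) =
      Ex.inc hz (ivM D z v) * Ex.sec hz (D.tau v) ^ D.nq v * Ex.sec hz (D.phi v) := by
  obtain ⟨n, hn⟩ : ∃ n, D.nq v = n + 1 := ⟨D.nq v - 1, by omega⟩
  rw [Ex.sec_mul, hn, sec_pow, mul_assoc, mul_assoc, Ex.sec_mul, ← mul_assoc, ← mul_assoc,
    ← map_mul, ← map_mul, ← hn, ← hrel]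
  congr 2
  rw [ivM, hn, Nat.add_sub_cancel, mul_assoc]
  have e : ∀ a b c : M, a = a / b / c * (b * c) := by
    intro a b c
    rw [div_div, div_mul_cancel]
  exact e _ _ _

end

section

variable {k Q G N P : Type} [Field k] [Group G] [Field Q] [Algebra k Q] [MulSemiringAction G Q]
  [TopologicalSpace G] {D : Dat G N P} {t : Q} {q : ℕ} {dg : P → ℕ} {rt : P → k}
  [IsTopologicalGroup G] [CompactSpace G] [IsAlgClosed k]

theorem phi_cs (h : Qd D k Q t q dg rt) (v : P) {x : Qˣ} (hx : x ∈ Cs k Q) :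
    D.phi v • x = x ^ q ^ dg v := by
  obtain ⟨c, hc⟩ := hx
  apply Units.ext
  rw [Units.coe_smul, ← hc, h.phi, map_pow, hc, Units.val_pow_eq_pow_val]

theorem frob_cs (h : Qd D k Q t q dg rt) (i : ℕ) {x : Qˣ} (hx : x ∈ Cs k Q) :
    D.phi D.inf ^ i • x = x ^ q ^ i := by
  induction i with
  | zero => rw [pow_zero, one_smul, pow_zero, pow_one]
  | succ i ih =>
    rw [pow_succ', mul_smul, ih, phi_cs h _ (pow_mem hx _), h.dg_inf, pow_one, ← pow_mul, pow_succ]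

theorem frob_k (h : Qd D k Q t q dg rt) (i : ℕ) (c : k) :
    D.phi D.inf ^ i • algebraMap k Q c = algebraMap k Q (c ^ q ^ i) := by
  induction i generalizing c with
  | zero => rw [pow_zero, one_smul, pow_zero, pow_one]
  | succ i ih => rw [pow_succ, mul_smul, h.phi, h.dg_inf, pow_one, ih, ← pow_mul, pow_succ']

theorem exists_qroot (h : Qd D k Q t q dg rt) (i : ℕ) (c : k) : ∃ c' : k, c' ^ q ^ i = c := by
  obtain ⟨c', hc'⟩ := IsAlgClosed.exists_pow_nat_eq c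
    (pow_pos (by have := h.q1; omega : 0 < q) i)
  exact ⟨c', hc'⟩

theorem frob_inv_k (h : Qd D k Q t q dg rt) (i : ℕ) (c : k) :
    (D.phi D.inf ^ i)⁻¹ • algebraMap k Q (c ^ q ^ i) = algebraMap k Q c := by
  rw [← frob_k h, inv_smul_smul]

theorem qpow_inj (h : Qd D k Q t q dg rt) (i : ℕ) {c c' : k} (hc : c ^ q ^ i = c' ^ q ^ i) :
    c = c' := by
  apply (algebraMap k Q).injective
  rw [← frob_inv_k h i, hc, frob_inv_k h]

theorem phi_tr (h : Qd D k Q t q dg rt) (v : P) :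
    D.phi v * (D.phi D.inf ^ dg v)⁻¹ ∈ Tr k Q G := by
  intro c
  obtain ⟨c', rfl⟩ := exists_qroot h (dg v) c
  rw [mul_smul, frob_inv_k h, h.phi]

theorem tau_tr (h : Qd D k Q t q dg rt) (v : P) : D.tau v ∈ Tr k Q G := h.tau v

theorem conj_tr (h : Qd D k Q t q dg rt) {σ : G} (hσ : σ ∈ Tr k Q G) (g : G) :
    g * σ * g⁻¹ ∈ Tr k Q G := (tr_normal h).conj_mem σ hσ g

variable (D) in
/-- The character by which the Frobenius changes the section over `Tr`. -/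
def chi (z : G → G → Qˣ) (l : G → Qˣ) (σ : G) : Qˣ :=
  z (D.phi D.inf) σ * l (D.phi D.inf * σ * (D.phi D.inf)⁻¹) / D.phi D.inf • l σ /
    z (D.phi D.inf * σ * (D.phi D.inf)⁻¹) (D.phi D.inf)

theorem chi_cs (h : Qd D k Q t q dg rt) {z : G → G → Qˣ} (hzc : ∀ g j, z g j ∈ Cs k Q)
    {l : G → Qˣ} (hlc : ∀ g, l g ∈ Cs k Q) (σ : G) : chi D z l σ ∈ Cs k Q :=
  div_mem (div_mem (mul_mem (hzc _ _) (hlc _)) (cs_stab h (hlc _) _)) (hzc _ _)

/-- The section over `Tr`. -/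
def s0 {z : G → G → Qˣ} (hz : IsM2 z) (l : G → Qˣ) (σ : G) : Ex hz :=
  Ex.inc hz (l σ)⁻¹ * Ex.sec hz σ

theorem comm_cs {z : G → G → Qˣ} (hz : IsM2 z) {x : Qˣ} (hx : x ∈ Cs k Q) {e : Ex hz}
    (he : e.g ∈ Tr k Q G) : e * Ex.inc hz x = Ex.inc hz x * e := by
  rw [Ex.mul_inc, cs_smul hx he]

theorem s0_mul {z : G → G → Qˣ} (hz : IsM2 z) {l : G → Qˣ}
    (hlc : ∀ g, l g ∈ Cs k Q)
    (hl : ∀ g ∈ Tr k Q G, ∀ j ∈ Tr k Q G, z g j = l g * l j / l (g * j)) {σ σ' : G}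
    (hσ : σ ∈ Tr k Q G) (hσ' : σ' ∈ Tr k Q G) :
    s0 hz l σ * s0 hz l σ' = s0 hz l (σ * σ') := by
  have e1 : s0 hz l σ * s0 hz l σ' =
      Ex.inc hz (l σ)⁻¹ * (Ex.sec hz σ * Ex.inc hz (l σ')⁻¹) * Ex.sec hz σ' := by
    rw [s0, s0]; simp only [mul_assoc]
  rw [e1, comm_cs (k := k) hz (inv_mem (hlc σ')) hσ, ← mul_assoc, ← map_mul, mul_assoc,
    Ex.sec_mul, ← mul_assoc, ← map_mul, s0, hl σ hσ σ' hσ']
  congr 2
  have e2 : ∀ a b c : Qˣ, a⁻¹ * b⁻¹ * (a * b / c) = c⁻¹ := by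
    intro a b c
    rw [← mul_inv, div_eq_mul_inv, inv_mul_cancel_left]
  exact e2 _ _ _

theorem frob_s0 {z : G → G → Qˣ} (hz : IsM2 z) {l : G → Qˣ}
    (σ : G) : Ex.sec hz (D.phi D.inf) * s0 hz l σ =
      Ex.inc hz (chi D z l σ) * s0 hz l (D.phi D.inf * σ * (D.phi D.inf)⁻¹) *
        Ex.sec hz (D.phi D.inf) := by
  rw [s0, ← mul_assoc, Ex.mul_inc, mul_assoc, Ex.sec_mul, ← mul_assoc, ← map_mul, s0,
    ← mul_assoc, ← map_mul, mul_assoc (Ex.inc hz _), Ex.sec_mul, ← mul_assoc, ← map_mul,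
    inv_mul_cancel_right]
  congr 2
  rw [chi, smul_inv']
  have e : ∀ a b c d : Qˣ, c⁻¹ * a = a * b / c / d * b⁻¹ * d := by
    intro a b c d
    simp only [div_eq_mul_inv]
    have : a * b * c⁻¹ * d⁻¹ * b⁻¹ * d = a * c⁻¹ * (b * b⁻¹) * (d⁻¹ * d) := by
      simp only [mul_comm, mul_left_comm, mul_assoc]
    rw [this, mul_inv_cancel, inv_mul_cancel, mul_one, mul_one, mul_comm]
  exact e _ _ _ _

variable (D) in
/-- The product in the formula for the local invariants. -/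
def prd (q : ℕ) (z : G → G → Qˣ) (l : G → Qˣ) (n : ℕ) (σ : G) : Qˣ :=
  ∏ i ∈ range n, chi D z l (D.phi D.inf ^ i * σ * (D.phi D.inf ^ i)⁻¹) ^ q ^ (n - 1 - i)

theorem prd_succ (z : G → G → Qˣ) (l : G → Qˣ) (n : ℕ) (σ : G) :
    prd D q z l (n + 1) σ = prd D q z l n σ ^ q *
      chi D z l (D.phi D.inf ^ n * σ * (D.phi D.inf ^ n)⁻¹) := by
  rw [prd, prod_range_succ, prd, ← prod_pow]
  congr 1
  · refine prod_congr rfl fun i hi => ?_
    rw [mem_range] at hi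
    rw [← pow_mul, ← pow_succ]
    congr 2
    omega
  · rw [Nat.add_sub_cancel, Nat.sub_self, pow_zero, pow_one]

theorem prd_cs (h : Qd D k Q t q dg rt) {z : G → G → Qˣ} (hzc : ∀ g j, z g j ∈ Cs k Q)
    {l : G → Qˣ} (hlc : ∀ g, l g ∈ Cs k Q) (n : ℕ) (σ : G) : prd D q z l n σ ∈ Cs k Q :=
  prod_mem fun _ _ => pow_mem (chi_cs h hzc hlc _) _

theorem frob_pow_s0 (h : Qd D k Q t q dg rt) {z : G → G → Qˣ} (hz : IsM2 z)
    (hzc : ∀ g j, z g j ∈ Cs k Q) {l : G → Qˣ} (hlc : ∀ g, l g ∈ Cs k Q) (n : ℕ) (σ : G) :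
    Ex.sec hz (D.phi D.inf) ^ n * s0 hz l σ =
      Ex.inc hz (prd D q z l n σ) * s0 hz l (D.phi D.inf ^ n * σ * (D.phi D.inf ^ n)⁻¹) *
        Ex.sec hz (D.phi D.inf) ^ n := by
  induction n with
  | zero =>
    rw [prd, range_zero, prod_empty, map_one, one_mul, pow_zero, pow_zero, one_mul, one_mul,
      inv_one, mul_one, mul_one]
  | succ n ih =>
    have e1 : Ex.sec hz (D.phi D.inf) ^ (n + 1) * s0 hz l σ =
        Ex.sec hz (D.phi D.inf) * (Ex.sec hz (D.phi D.inf) ^ n * s0 hz l σ) := by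
      rw [pow_succ', mul_assoc]
    have e2 := frob_cs h 1 (prd_cs h hzc hlc n σ)
    rw [pow_one, pow_one] at e2
    have e3 : D.phi D.inf * (D.phi D.inf ^ n * σ * (D.phi D.inf ^ n)⁻¹) * (D.phi D.inf)⁻¹ =
        D.phi D.inf ^ (n + 1) * σ * (D.phi D.inf ^ (n + 1))⁻¹ := by
      rw [pow_succ', mul_inv_rev]
      simp only [mul_assoc]
    have e4 : Ex.sec hz (D.phi D.inf) * Ex.inc hz (prd D q z l n σ) =
        Ex.inc hz (prd D q z l n σ ^ q) * Ex.sec hz (D.phi D.inf) := by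
      rw [Ex.mul_inc]
      congr 2
    rw [e1, ih, ← mul_assoc, ← mul_assoc, e4, mul_assoc (Ex.inc hz _), frob_s0, e3, prd_succ,
      map_mul, pow_succ' (Ex.sec hz (D.phi D.inf)) n]
    simp only [mul_assoc]

theorem ivf (h : Qd D k Q t q dg rt) {z : G → G → Qˣ} (hz : IsM2 z)
    (hzc : ∀ g j, z g j ∈ Cs k Q) {l : G → Qˣ} (hlc : ∀ g, l g ∈ Cs k Q)
    (hl : ∀ g ∈ Tr k Q G, ∀ j ∈ Tr k Q G, z g j = l g * l j / l (g * j)) (v : P) :
    ivM D z v = prd D q z l (dg v) (D.tau v) := by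
  set F := D.phi D.inf with hF
  set n := dg v with hn
  set g := D.phi v * (F ^ n)⁻¹ with hg
  have hgT : g ∈ Tr k Q G := phi_tr h v
  have hτ := tau_tr h v
  have hnq : D.nq v = q ^ n := h.nq v
  have hnq0 : 0 < D.nq v := by
    rw [hnq]
    exact pow_pos (by have := h.q1; omega) n
  -- powers of the lift of the Frobenius
  have hFn : ∀ i : ℕ, ∃ w ∈ Cs k Q, Ex.sec hz F ^ i = Ex.inc hz w * Ex.sec hz (F ^ i) := by
    intro i
    induction i with
    | zero =>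
      refine ⟨(z 1 1)⁻¹, inv_mem (hzc _ _), ?_⟩
      rw [pow_zero, pow_zero, Ex.inc_mul]
      refine Ex.ext ?_ rfl
      change (z 1 1)⁻¹ = (z 1 1)⁻¹ * 1
      rw [mul_one]
    | succ i ih =>
      obtain ⟨w, hw, hw'⟩ := ih
      exact ⟨w * z (F ^ i) F, mul_mem hw (hzc _ _), by
        rw [pow_succ, hw', mul_assoc, Ex.sec_mul, ← mul_assoc, ← map_mul, ← pow_succ]⟩
  obtain ⟨x, hx, hφ⟩ : ∃ x ∈ Cs k Q,
      Ex.sec hz (D.phi v) = Ex.inc hz x * (s0 hz l g * Ex.sec hz F ^ n) := by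
    obtain ⟨w, hw, hw'⟩ := hFn n
    refine ⟨(z g (F ^ n))⁻¹ * w⁻¹ * l g, mul_mem (mul_mem (inv_mem (hzc _ _)) (inv_mem hw))
      (hlc _), ?_⟩
    have e1 : s0 hz l g * Ex.sec hz F ^ n =
        Ex.inc hz (l g)⁻¹ * (Ex.sec hz g * Ex.inc hz w) * Ex.sec hz (F ^ n) := by
      rw [s0, hw']; simp only [mul_assoc]
    rw [e1, comm_cs (k := k) hz hw hgT, ← mul_assoc (Ex.inc hz _) (Ex.inc hz w), ← map_mul,
      mul_assoc (Ex.inc hz ((l g)⁻¹ * w)), Ex.sec_mul, ← mul_assoc, ← map_mul, ← mul_assoc,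
      ← map_mul, hg, inv_mul_cancel_right]
    have e2 : ∀ a b c : Qˣ, a⁻¹ * b⁻¹ * c * (c⁻¹ * b) * a = 1 := by
      intro a b c
      group
    rw [← hg, e2, map_one, one_mul]
  have hst : Ex.sec hz (D.tau v) = Ex.inc hz (l (D.tau v)) * s0 hz l (D.tau v) := by
    rw [s0, ← mul_assoc, ← map_mul, mul_inv_cancel, map_one, one_mul]
  have hs0p : ∀ i : ℕ, s0 hz l (D.tau v) ^ (i + 1) = s0 hz l (D.tau v ^ (i + 1)) := by
    intro i
    induction i with
    | zero => rw [zero_add, pow_one, pow_one]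
    | succ i ih =>
      rw [pow_succ, ih, s0_mul hz hlc hl (pow_mem hτ _) hτ, ← pow_succ]
  have hstN : Ex.sec hz (D.tau v) ^ D.nq v =
      Ex.inc hz (l (D.tau v) ^ D.nq v) * s0 hz l (D.tau v ^ D.nq v) := by
    have hc : Commute (Ex.inc hz (l (D.tau v))) (s0 hz l (D.tau v)) :=
      (comm_cs (k := k) hz (hlc _) (by
        change (1 : G) * D.tau v ∈ _
        rw [one_mul]; exact hτ)).symm
    rw [hst, hc.mul_pow, map_pow]
    obtain ⟨i, hi⟩ : ∃ i, D.nq v = i + 1 := ⟨D.nq v - 1, by omega⟩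
    rw [hi, hs0p]
  have hrel := iv_rel hz v hnq0 (h.rel v)
  have hL : Ex.sec hz (D.phi v) * Ex.sec hz (D.tau v) =
      Ex.inc hz (x * l (D.tau v) ^ q ^ n * prd D q z l n (D.tau v)) *
        (s0 hz l (g * (F ^ n * D.tau v * (F ^ n)⁻¹)) * Ex.sec hz F ^ n) := by
    have e1 : Ex.sec hz F ^ n * Ex.inc hz (l (D.tau v)) =
        Ex.inc hz (l (D.tau v) ^ q ^ n) * Ex.sec hz F ^ n := by
      rw [Ex.mul_inc]
      have e2 : (Ex.sec hz F ^ n).g = F ^ n := map_pow (Ex.pr hz) (Ex.sec hz F) n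
      rw [e2, frob_cs h n (hlc _)]
    have e2 : s0 hz l g * Ex.inc hz (l (D.tau v) ^ q ^ n) =
        Ex.inc hz (l (D.tau v) ^ q ^ n) * s0 hz l g := by
      refine comm_cs (k := k) hz (pow_mem (hlc _) _) ?_
      change (1 : G) * g ∈ _
      rw [one_mul]; exact hgT
    have e3 : s0 hz l g * Ex.inc hz (prd D q z l n (D.tau v)) =
        Ex.inc hz (prd D q z l n (D.tau v)) * s0 hz l g := by
      refine comm_cs (k := k) hz (prd_cs h hzc hlc _ _) ?_
      change (1 : G) * g ∈ _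
      rw [one_mul]; exact hgT
    calc Ex.sec hz (D.phi v) * Ex.sec hz (D.tau v)
        = Ex.inc hz x * s0 hz l g * (Ex.sec hz F ^ n * Ex.inc hz (l (D.tau v))) *
            s0 hz l (D.tau v) := by
          rw [hφ, hst]; simp only [mul_assoc]
      _ = Ex.inc hz x * (s0 hz l g * Ex.inc hz (l (D.tau v) ^ q ^ n)) *
            (Ex.sec hz F ^ n * s0 hz l (D.tau v)) := by
          rw [e1]; simp only [mul_assoc]
      _ = Ex.inc hz x * Ex.inc hz (l (D.tau v) ^ q ^ n) *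
            (s0 hz l g * Ex.inc hz (prd D q z l n (D.tau v))) *
            s0 hz l (F ^ n * D.tau v * (F ^ n)⁻¹) * Ex.sec hz F ^ n := by
          rw [e2, hF, frob_pow_s0 h hz hzc hlc]; simp only [mul_assoc]
      _ = Ex.inc hz x * Ex.inc hz (l (D.tau v) ^ q ^ n) * Ex.inc hz (prd D q z l n (D.tau v)) *
            (s0 hz l g * s0 hz l (F ^ n * D.tau v * (F ^ n)⁻¹)) * Ex.sec hz F ^ n := by
          rw [e3]; simp only [mul_assoc]
      _ = _ := by
          rw [s0_mul hz hlc hl hgT (conj_tr h hτ _), ← map_mul, ← map_mul]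
          simp only [mul_assoc]
  have hR : Ex.inc hz (ivM D z v) * Ex.sec hz (D.tau v) ^ D.nq v * Ex.sec hz (D.phi v) =
      Ex.inc hz (x * l (D.tau v) ^ q ^ n * ivM D z v) *
        (s0 hz l (g * (F ^ n * D.tau v * (F ^ n)⁻¹)) * Ex.sec hz F ^ n) := by
    have e1 : s0 hz l (D.tau v ^ D.nq v) * Ex.inc hz x =
        Ex.inc hz x * s0 hz l (D.tau v ^ D.nq v) := by
      refine comm_cs (k := k) hz hx ?_
      change (1 : G) * D.tau v ^ D.nq v ∈ _
      rw [one_mul]; exact pow_mem hτ _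
    have e2 : g * (F ^ n * D.tau v * (F ^ n)⁻¹) = D.tau v ^ D.nq v * g := by
      have e3 : g * (F ^ n * D.tau v * (F ^ n)⁻¹) = D.phi v * D.tau v * (F ^ n)⁻¹ := by
        rw [hg]; group
      rw [e3, h.rel v, hg, mul_assoc]
    calc Ex.inc hz (ivM D z v) * Ex.sec hz (D.tau v) ^ D.nq v * Ex.sec hz (D.phi v)
        = Ex.inc hz (ivM D z v) * Ex.inc hz (l (D.tau v) ^ D.nq v) *
            (s0 hz l (D.tau v ^ D.nq v) * Ex.inc hz x) * s0 hz l g * Ex.sec hz F ^ n := by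
          rw [hstN, hφ]; simp only [mul_assoc]
      _ = Ex.inc hz (ivM D z v) * Ex.inc hz (l (D.tau v) ^ D.nq v) * Ex.inc hz x *
            (s0 hz l (D.tau v ^ D.nq v) * s0 hz l g) * Ex.sec hz F ^ n := by
          rw [e1]; simp only [mul_assoc]
      _ = Ex.inc hz (ivM D z v * l (D.tau v) ^ D.nq v * x) *
            (s0 hz l (D.tau v ^ D.nq v * g) * Ex.sec hz F ^ n) := by
          rw [s0_mul hz hlc hl (pow_mem hτ _) hgT, ← map_mul, ← map_mul]
          simp only [mul_assoc]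
      _ = _ := by
          rw [e2, hnq]
          congr 2
          simp only [mul_comm, mul_left_comm]
  rw [hL, hR] at hrel
  exact (mul_left_cancel (Ex.inc_inj hz (mul_right_cancel hrel))).symm

end

end Pool.Agent.MP72S.E
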