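import Pool.Agent.Lib.MP_72e2e6_nt.Sm.E.Uni

/-!
# MP_72e2e6_nt, `Sm`, block E: a section over `Tr` which commutes with the Frobenius
-/

set_option linter.unusedSectionVars false

namespace Pool.Agent.MP72S.E

open Polynomial Finset

attribute [local instance] Units.mulDistribMulActionRight

variable {k Q G N P : Type} [Field k] [Group G] [Field Q] [Algebra k Q] [MulSemiringAction G Q]
  [TopologicalSpace G] {D : Dat G N P} {t : Q} {q : ℕ} {dg : P → ℕ} {rt : P → k}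
  [IsTopologicalGroup G] [CompactSpace G] [IsAlgClosed k]

theorem kap_cs (h : Qd D k Q t q dg rt) {m : ℕ} {r : k → Qˣ}
    (hr : ∀ c, (r c : Q) ^ 2 ^ m = t - algebraMap k Q c) {g : G} (hg : g ∈ Tr k Q G) (c : k) :
    g • r c / r c ∈ Cs k Q := cs_of_pow_one (pow_pos two_pos m) (kap_pow h hr hg c)

theorem kap_mul (h : Qd D k Q t q dg rt) {m : ℕ} {r : k → Qˣ}
    (hr : ∀ c, (r c : Q) ^ 2 ^ m = t - algebraMap k Q c) {g j : G} (hg : g ∈ Tr k Q G)
    (hj : j ∈ Tr k Q G) (c : k) :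
    (g * j) • r c / r c = (g • r c / r c) * (j • r c / r c) := by
  have h1 : g • (j • r c / r c) = j • r c / r c := cs_smul (kap_cs h hr hj c) hg
  rw [smul_div', smul_smul, div_eq_iff_eq_mul] at h1
  rw [h1, mul_div_assoc, mul_comm]

/-- The action of the Frobenius on the Kummer characters. -/
theorem kap_frob (h : Qd D k Q t q dg rt) {m : ℕ} {r : k → Qˣ}
    (hr : ∀ c, (r c : Q) ^ 2 ^ m = t - algebraMap k Q c) {σ : G} (hσ : σ ∈ Tr k Q G) (c : k) :
    (D.phi D.inf * σ * (D.phi D.inf)⁻¹) • r (c ^ q) / r (c ^ q) = (σ • r c / r c) ^ q := by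
  set F := D.phi D.inf with hF
  have e0 := frob_inv_k h 1 c
  rw [pow_one, pow_one] at e0
  have h1 : ((F⁻¹ • r (c ^ q)) / r c) ^ 2 ^ m = 1 := by
    rw [div_pow, ← smul_pow', div_eq_one]
    apply Units.ext
    rw [Units.coe_smul, Units.val_pow_eq_pow_val, Units.val_pow_eq_pow_val, hr, hr, smul_sub,
      h.tfix, e0]
  have h2 : (F⁻¹ • r (c ^ q)) / r c ∈ Cs k Q := cs_of_pow_one (pow_pos two_pos m) h1
  have h3 : σ • (F⁻¹ • r (c ^ q)) / (F⁻¹ • r (c ^ q)) = σ • r c / r c := by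
    have h4 := cs_smul h2 hσ
    rw [smul_div'] at h4
    rw [div_eq_div_iff_mul_eq_mul] at h4 ⊢
    rw [h4, mul_comm]
  have h5 := frob_cs h 1 (kap_cs h hr hσ c)
  rw [pow_one, pow_one, ← h3, smul_div', smul_inv_smul, smul_smul, smul_smul, h3] at h5
  exact h5

theorem exists_m (h : Qd D k Q t q dg rt) (n : k →₀ ℤ)
    (hn : ∀ v, v ≠ D.inf → (2 : ℤ) ∣ sS q dg rt n v) :
    ∃ m : k →₀ ℤ, ∀ c, ∃ e : ℤ, n c = m (c ^ q) - m c + 2 * e := by
  classical
  choose f hf huniq using fun c => (h.orb c)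
  have hf' : ∀ (v : P) (i : ℕ), v ≠ D.inf → i < dg v → f (rt v ^ q ^ i) = (v, i) :=
    fun v i hv hi => (huniq _ (v, i) ⟨hv, hi, rfl⟩).symm
  let M : k → ℤ := fun c => ∑ j ∈ range (f c).2, n (rt (f c).1 ^ q ^ j)
  have hM : ∀ c, M c ≠ 0 → c ∈ (n.support.image fun c => (f c).1).biUnion
      fun v => (range (dg v)).image fun i => rt v ^ q ^ i := by
    intro c hc
    obtain ⟨j, hj, hjn⟩ := exists_ne_zero_of_sum_ne_zero hc
    rw [mem_range] at hj
    rw [mem_biUnion]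
    refine ⟨(f c).1, ?_, ?_⟩
    · rw [mem_image]
      exact ⟨_, Finsupp.mem_support_iff.2 hjn, by rw [hf' _ j (hf c).1 (hj.trans (hf c).2.1)]⟩
    · rw [mem_image]
      exact ⟨(f c).2, mem_range.2 (hf c).2.1, (hf c).2.2⟩
  refine ⟨Finsupp.onFinset _ M hM, fun c => ?_⟩
  rw [Finsupp.onFinset_apply, Finsupp.onFinset_apply]
  obtain ⟨hv, hi, hc⟩ := hf c
  have hMc : M c = ∑ j ∈ range (f c).2, n (rt (f c).1 ^ q ^ j) := rfl
  have hcq : c ^ q = rt (f c).1 ^ q ^ ((f c).2 + 1) := by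
    conv_lhs => rw [← hc]
    rw [← pow_mul, ← pow_succ]
  have hsum : M c + n c = ∑ j ∈ range ((f c).2 + 1), n (rt (f c).1 ^ q ^ j) := by
    rw [sum_range_succ, hMc, hc]
  rcases Nat.lt_or_ge ((f c).2 + 1) (dg (f c).1) with h1 | h1
  · have h2 := hf' (f c).1 ((f c).2 + 1) hv h1
    rw [← hcq] at h2
    refine ⟨0, ?_⟩
    have h3 : M (c ^ q) = M c + n c := by
      rw [hsum]
      change ∑ j ∈ range (f (c ^ q)).2, n (rt (f (c ^ q)).1 ^ q ^ j) = _
      rw [h2]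
    rw [h3]
    ring
  · have h2 : (f c).2 + 1 = dg (f c).1 := by omega
    have h3 : c ^ q = rt (f c).1 ^ q ^ 0 := by
      rw [hcq, h2, h.rtd _ hv, pow_zero, pow_one]
    have h4 := hf' (f c).1 0 hv (by omega)
    rw [← h3] at h4
    have h5 : M (c ^ q) = 0 := by
      change ∑ j ∈ range (f (c ^ q)).2, n (rt (f (c ^ q)).1 ^ q ^ j) = _
      rw [h4, range_zero, sum_empty]
    obtain ⟨e, he⟩ := hn (f c).1 hv
    rw [sS, ← h2, ← hsum] at he
    refine ⟨e, ?_⟩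
    rw [h5]
    linear_combination he

/-- There is a section over `Tr` which commutes with the Frobenius. -/
theorem exists_eqv (h : Qd D k Q t q dg rt) {z : G → G → Qˣ} (hz : IsM2 z)
    (hlc : IsLocallyConstant fun p : G × G => z p.1 p.2) (hN : ∀ g j, z g j ^ 2 = 1)
    (h0 : ∀ v, ivM D z v = 1) :
    ∃ l : G → Qˣ, (∃ s : Finset Q, St G s ∧ Lv k s l) ∧ (∀ g, l g ^ 2 = 1) ∧
      (∀ g ∈ Tr k Q G, ∀ j ∈ Tr k Q G, z g j = l g * l j / l (g * j)) ∧
      ∀ σ ∈ Tr k Q G, chi D z l σ = 1 := by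
  classical
  have hN' : ∀ g j, z g j ^ 2 ^ 1 = 1 := fun g j => by rw [pow_one, hN]
  have hzc : ∀ g j, z g j ∈ Cs k Q := fun g j => cs_of_pow_one two_pos (hN g j)
  obtain ⟨l, ⟨s, hs, hsl⟩, hlN, hl⟩ := lvl h z hz hlc 1 hN'
  obtain ⟨s', hs', hsz⟩ := lc2 h.stab h.bas z hlc
  have hlc' : ∀ g, l g ∈ Cs k Q := fun g => cs_of_pow_one (by norm_num) (hlN g)
  obtain ⟨r, hr⟩ := exists_r h 1
  have hss : St G (s ∪ s') := hs.union hs'
  obtain ⟨n, hn⟩ := kum h hr (chi D z l) hss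
    (chi_lv h hss (fun u hu u' hu' => hsz u (fx_mono subset_union_right hu) u'
      (fx_mono subset_union_right hu')) (hsl.mono subset_union_left))
    (fun g hg j hj => chi_mul h hz hzc hlc' hl hg hj) (fun g _ => chi_pow hN' hlN g)
  obtain ⟨m, hm⟩ := exists_m h n fun v hv => by
    obtain ⟨Z, hZ, hZv⟩ := iv_fin h hz hzc hlc' hl hr hn v hv
    rw [h0 v] at hZv
    exact dvd_of_zpow hZ h.q4 hZv.symm
  have hK2 : ∀ g ∈ Tr k Q G, ∀ c, (g • r c / r c) ^ 2 = 1 := fun g hg c => by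
    have := kap_pow h hr hg c
    rwa [pow_one] at this
  have hodd : ∀ x : Qˣ, x ^ 2 = 1 → x ^ q = x := by
    intro x hx
    obtain ⟨a, ha⟩ : ∃ a, q = 2 * a + 1 := ⟨q / 2, by have := h.q4; omega⟩
    rw [ha, pow_succ, pow_mul, hx, one_pow, one_mul]
  -- the correction
  obtain ⟨θ, hθ⟩ : ∃ θ : G → Qˣ, ∀ g, θ g = fpr (fun c => g • r c / r c) m := ⟨_, fun _ => rfl⟩
  have hθ2 : ∀ g ∈ Tr k Q G, θ g ^ 2 = 1 := by
    intro g hg
    rw [hθ, ← fpr_pow]
    have : (fun c => (g • r c / r c) ^ 2) = fun _ : k => (1 : Qˣ) := funext fun c => hK2 g hg c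
    rw [this, fpr, Finsupp.prod]
    exact prod_eq_one fun c _ => one_zpow _
  have hθm : ∀ g ∈ Tr k Q G, ∀ j ∈ Tr k Q G, θ (g * j) = θ g * θ j := by
    intro g hg j hj
    rw [hθ, hθ, hθ, fpr, fpr, fpr, Finsupp.prod, Finsupp.prod, Finsupp.prod, ← prod_mul_distrib]
    refine prod_congr rfl fun c _ => ?_
    rw [kap_mul h hr hg hj, mul_zpow]
  set m' : k →₀ ℤ := m.comapDomain (fun c => c ^ q)
    (fun c _ c' _ hcc => qpow_inj h 1 (by simpa using hcc)) with hm'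
  have hinj : Function.Injective fun c : k => c ^ q := fun c c' hcc =>
    qpow_inj h 1 (by simpa using hcc)
  have hmm' : m'.mapDomain (fun c => c ^ q) = m := by
    refine Finsupp.mapDomain_comapDomain (f := fun c : k => c ^ q) hinj m fun c _ => ?_
    obtain ⟨c', hc'⟩ := exists_qroot h 1 c
    exact ⟨c', by simpa using hc'⟩
  have hθF : ∀ σ ∈ Tr k Q G, θ (D.phi D.inf * σ * (D.phi D.inf)⁻¹) =
      fpr (fun c => σ • r c / r c) m' := by
    intro σ hσ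
    rw [hθ]
    conv_lhs => rw [← hmm']
    rw [fpr, Finsupp.prod_mapDomain_index_inj hinj, fpr]
    refine Finsupp.prod_congr fun c _ => ?_
    rw [kap_frob h hr hσ, hodd _ (hK2 σ hσ c)]
  have hkey : ∀ σ ∈ Tr k Q G, chi D z l σ * θ σ =
      θ (D.phi D.inf * σ * (D.phi D.inf)⁻¹) := by
    intro σ hσ
    rw [hθF σ hσ, hn σ hσ, hθ, fpr_par (n := n) (n' := m' - m) (hK2 σ hσ) fun c => ?_]
    · rw [← fpr_add, sub_add_cancel]
    · obtain ⟨e, he⟩ := hm c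
      exact ⟨e, by rw [he, Finsupp.sub_apply]; rfl⟩
  -- the new section
  obtain ⟨l', hl1, hl2⟩ : ∃ l' : G → Qˣ, (∀ g ∈ Tr k Q G, l' g = l g * (θ g)⁻¹) ∧
      ∀ g, g ∉ Tr k Q G → l' g = l g :=
    ⟨fun g => if g ∈ Tr k Q G then l g * (θ g)⁻¹ else l g, fun g hg => if_pos hg,
      fun g hg => if_neg hg⟩
  obtain ⟨s₂, hs₂, hs₂'⟩ := exists_st (G := G) h.stab (s ∪ m.support.image fun c => (r c : Q))
  refine ⟨l', ⟨s₂, hs₂', ?_⟩, ?_, ?_, ?_⟩
  · intro g hg u hu hus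
    have hgu := mul_mem hg hu
    rw [hl1 _ hgu, hl1 _ hg, hsl g hg u hu (fx_mono (subset_union_left.trans hs₂) hus)]
    congr 2
    rw [hθ, hθ, fpr, fpr, Finsupp.prod, Finsupp.prod]
    refine prod_congr rfl fun c hc => ?_
    have e : u • r c = r c := Units.ext (hus _ (hs₂ (mem_union_right _
      (mem_image_of_mem (fun c => (r c : Q)) hc))))
    rw [mul_smul, e]
  · intro g
    have e := hlN g
    rw [pow_one] at e
    by_cases hg : g ∈ Tr k Q G
    · rw [hl1 _ hg, mul_pow, inv_pow, hθ2 g hg, e, inv_one, one_mul]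
    · rw [hl2 _ hg, e]
  · intro g hg j hj
    rw [hl1 _ hg, hl1 _ hj, hl1 _ (mul_mem hg hj), hl g hg j hj, hθm g hg j hj]
    have e : ∀ a b c x y : Qˣ, a * b / c = a * x⁻¹ * (b * y⁻¹) / (c * (x * y)⁻¹) := by
      intro a b c x y
      simp only [div_eq_mul_inv, mul_inv, inv_inv]
      have : a * x⁻¹ * (b * y⁻¹) * (c⁻¹ * (x * y)) = a * b * c⁻¹ * (x⁻¹ * x) * (y⁻¹ * y) := by
        simp only [mul_comm, mul_left_comm, mul_assoc]
      rw [this, inv_mul_cancel, inv_mul_cancel, mul_one, mul_one]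
    exact e _ _ _ _ _
  · intro σ hσ
    have h1 := hkey σ hσ
    rw [chi] at h1 ⊢
    have hF := frob_cs h 1 (cs_of_pow_one (k := k) two_pos (hθ2 σ hσ))
    rw [pow_one, pow_one, hodd _ (hθ2 σ hσ)] at hF
    rw [hl1 _ hσ, hl1 _ (conj_tr h hσ _), smul_mul', smul_inv', hF]
    have e : ∀ a b c d x y : Qˣ, a * b / c / d * x = y → a * (b * y⁻¹) / (c * x⁻¹) / d = 1 := by
      intro a b c d x y hy
      rw [← hy]
      simp only [div_eq_mul_inv, mul_inv, inv_inv]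
      have : a * (b * (a⁻¹ * b⁻¹ * c * d * x⁻¹)) * (c⁻¹ * x) * d⁻¹ =
          (a * a⁻¹) * (b * b⁻¹) * (c * c⁻¹) * (d * d⁻¹) * (x⁻¹ * x) := by
        simp only [mul_comm, mul_left_comm, mul_assoc]
      rw [this]
      simp
    exact e _ _ _ _ _ _ h1

end Pool.Agent.MP72S.E
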