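import Pool.Agent.Lib.MP_72e2e6_nt.Sm.E.Has1

/-!
# MP_72e2e6_nt, `Sm`, block E: the Hasse principle `Ax2.has2`
-/

set_option linter.unusedSectionVars false

namespace Pool.Agent.MP72S.E

open Polynomial Finset

attribute [local instance] Units.mulDistribMulActionRight

variable {k Q G N P : Type} [Field k] [Group G] [Field Q] [Algebra k Q] [MulSemiringAction G Q]
  [TopologicalSpace G] {D : Dat G N P} {t : Q} {q : ℕ} {dg : P → ℕ} {rt : P → k}
  [IsTopologicalGroup G] [CompactSpace G] [IsAlgClosed k]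

/-- The order `q` vanishes in `k`. -/
theorem q_zero (h : Qd D k Q t q dg rt) : (q : k) = 0 := by
  have hadd : ∀ x : k, (x + 1) ^ q = x ^ q + 1 := by
    intro x
    apply (algebraMap k Q).injective
    have e1 := frob_k h 1 (x + 1)
    have e2 := frob_k h 1 x
    have e3 := frob_k h 1 1
    rw [pow_one, pow_one] at e1 e2 e3
    rw [← e1, map_add, smul_add, e2, e3, one_pow, map_add]
  have h1 : ((X + 1) ^ q - X ^ q - 1 : k[X]) = 0 := by
    refine Polynomial.funext fun x => ?_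
    simp only [eval_sub, eval_pow, eval_add, eval_X, eval_one, eval_zero, hadd]
    ring
  have h2 := congrArg (fun p : k[X] => p.coeff 1) h1
  have hq := h.q1
  simp only [coeff_sub, coeff_X_add_one_pow, coeff_X_pow, coeff_one, coeff_zero,
    Nat.choose_one_right] at h2
  rw [if_neg (by omega), if_neg (by omega)] at h2
  simpa using h2

theorem exists_prim (h : Qd D k Q t q dg rt) {n : ℕ} (hn : 0 < n) :
    ∃ w : Qˣ, w ∈ Cs k Q ∧ IsPrimitiveRoot w (q ^ n - 1) := by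
  have hq := h.q1
  have h1 : ((q ^ n - 1 : ℕ) : k) ≠ 0 := by
    rw [Nat.cast_sub (Nat.one_le_pow _ _ (by omega)), Nat.cast_pow, q_zero h,
      zero_pow hn.ne', Nat.cast_one, zero_sub]
    exact neg_ne_zero.2 one_ne_zero
  have h2 : NeZero ((q ^ n - 1 : ℕ) : k) := ⟨h1⟩
  have hpos : 0 < q ^ n - 1 := by
    have := Nat.one_lt_pow hn.ne' hq
    omega
  obtain ⟨w, hw⟩ := IsAlgClosed.exists_root (cyclotomic (q ^ n - 1) k) (by
    rw [degree_cyclotomic]
    exact_mod_cast (Nat.totient_pos.2 hpos).ne')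
  have hw' := isRoot_cyclotomic_iff.1 hw
  have hw0 : algebraMap k Q w ≠ 0 := by
    intro h0
    have := hw'.pow_eq_one
    rw [(algebraMap k Q).injective (h0.trans (map_zero _).symm), zero_pow hpos.ne'] at this
    exact zero_ne_one this
  refine ⟨Units.mk0 _ hw0, ⟨w, rfl⟩, ?_⟩
  exact IsPrimitiveRoot.of_map_of_injective (f := Units.coeHom Q)
    (hw'.map_of_injective (algebraMap k Q).injective) Units.val_injective

/-- The lift of an element near `1`. -/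
def hat {z : G → G → Qˣ} (hz : IsM2 z) (u : G) : Ex hz := ⟨(z 1 1)⁻¹, u⟩

theorem sgn_smul {x : Qˣ} (hx : x ^ 2 = 1) (g : G) : g • x = x := by
  have h1 : (x : Q) * x = 1 := by
    rw [← Units.val_mul, ← sq, hx, Units.val_one]
  apply Units.ext
  rw [Units.coe_smul]
  rcases mul_self_eq_one_iff.1 h1 with h2 | h2 <;> rw [h2]
  · exact smul_one g
  · rw [smul_neg, smul_one]

section

variable {z : G → G → Qˣ} (hz : IsM2 z) {s : Finset Q}
  (hN : ∀ g j, z g j ^ 2 = 1)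
  (hzs : ∀ u ∈ Fx G s, ∀ u' ∈ Fx G s, ∀ g j, z (g * u) (j * u') = z g j)

include hz hN hzs

theorem z_left {u : G} (hu : u ∈ Fx G s) (g : G) : z u g = z 1 1 := by
  have h1 := hzs u hu 1 (one_mem _) 1 g
  rw [one_mul, mul_one] at h1
  rw [h1, hz.left]

theorem z_right {u : G} (hu : u ∈ Fx G s) (g : G) : z g u = z 1 1 := by
  have h1 := hzs 1 (one_mem _) u hu g 1
  rw [one_mul, mul_one] at h1
  rw [h1, hz.right, sgn_smul (hN 1 1)]

theorem hat_mul {u u' : G} (hu : u ∈ Fx G s) : hat hz u * hat hz u' = hat hz (u * u') := by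
  refine Ex.ext ?_ rfl
  change (z 1 1)⁻¹ * u • (z 1 1)⁻¹ * z u u' = (z 1 1)⁻¹
  rw [z_left hz hN hzs hu, smul_inv', sgn_smul (hN 1 1), inv_mul_cancel_right]

theorem hat_comm (hs : St G s) {u : G} (hu : u ∈ Fx G s) {e : Ex hz} (he : e.m ^ 2 = 1) :
    hat hz u * e = e * hat hz (e.g⁻¹ * u * e.g) := by
  have hu' : e.g⁻¹ * u * e.g ∈ Fx G s := by
    have := (fx_normal hs).conj_mem u hu e.g⁻¹
    rwa [inv_inv] at this
  refine Ex.ext ?_ ?_
  · change (z 1 1)⁻¹ * u • e.m * z u e.g = e.m * e.g • (z 1 1)⁻¹ * z e.g (e.g⁻¹ * u * e.g)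
    rw [z_left hz hN hzs hu, z_right hz hN hzs hu', smul_inv', sgn_smul (hN 1 1), sgn_smul he,
      inv_mul_cancel_right, mul_comm, mul_inv_cancel_left]
  · change u * e.g = e.g * (e.g⁻¹ * u * e.g)
    group

end

/-- The Hasse principle, multiplicatively. -/
theorem hasM (h : Qd D k Q t q dg rt) {z : G → G → Qˣ} (hz : IsM2 z)
    (hlc : IsLocallyConstant fun p : G × G => z p.1 p.2) (hN : ∀ g j, z g j ^ 2 = 1)
    (h0 : ∀ v, ivM D z v = 1) :
    ∃ l : G → Qˣ, (∃ s : Finset Q, ∀ u ∈ Fx G s, ∀ g, l (g * u) = l g) ∧ (∀ g, l g ^ 2 = 1) ∧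
      ∀ g j, z g j = l g * l j / l (g * j) := by
  classical
  obtain ⟨l, ⟨s, hs, hsl⟩, hlN, hl, hchi⟩ := exists_eqv h hz hlc hN h0
  obtain ⟨s', hs', hsz⟩ := lc2 h.stab h.bas z hlc
  have hlc' : ∀ g, l g ∈ Cs k Q := fun g => cs_of_pow_one two_pos (hlN g)
  set F := D.phi D.inf with hF
  set s₁ : Finset Q := s ∪ s' with hs₁
  have hst₁ : St G s₁ := hs.union hs'
  -- the order of the Frobenius at the level `s₁`
  obtain ⟨M, hM, hFM⟩ : ∃ M : ℕ, 0 < M ∧ F ^ M ∈ Fx G s₁ := by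
    have : Finite (G ⧸ Fx G s₁) := Subgroup.quotient_finite_of_isOpen _ (fx_open h.stab s₁)
    have : (Fx G s₁).FiniteIndex := Subgroup.finiteIndex_of_finite_quotient
    have := fx_normal hst₁
    exact ⟨(Fx G s₁).index, Nat.pos_of_ne_zero Subgroup.FiniteIndex.index_ne_zero,
      (Fx G s₁).pow_index_mem F⟩
  have h2M : 0 < 2 * M := by omega
  obtain ⟨w, hwc, hw⟩ := exists_prim h h2M
  have hn0 : 0 < q ^ (2 * M) - 1 := by
    have := Nat.one_lt_pow h2M.ne' h.q1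
    omega
  set W : Finset Q := nthRootsFinset (q ^ (2 * M) - 1) (1 : Q) with hW
  have hWm : ∀ x : Q, x ∈ W ↔ x ^ (q ^ (2 * M) - 1) = 1 := fun x => mem_nthRootsFinset hn0 _
  have hWst : St G W := by
    intro g x hx
    rw [hWm] at hx ⊢
    rw [← smul_pow', hx, smul_one]
  set s₂ : Finset Q := s₁ ∪ W with hs₂
  have hst₂ : St G s₂ := hst₁.union hWst
  have hzs : ∀ u ∈ Fx G s₂, ∀ u' ∈ Fx G s₂, ∀ g j, z (g * u) (j * u') = z g j :=
    fun u hu u' hu' => hsz u (fx_mono (subset_union_right.trans subset_union_left) hu) u'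
      (fx_mono (subset_union_right.trans subset_union_left) hu')
  have hzs₁ : ∀ u ∈ Fx G s₁, ∀ u' ∈ Fx G s₁, ∀ g j, z (g * u) (j * u') = z g j :=
    fun u hu u' hu' => hsz u (fx_mono subset_union_right hu) u' (fx_mono subset_union_right hu')
  have hls : Lv k s₂ l := hsl.mono (subset_union_left.trans subset_union_left)
  have hF2M : F ^ (2 * M) ∈ Fx G s₂ := by
    intro a ha
    rw [hs₂, mem_union] at ha
    rcases ha with ha | ha
    · have e : F ^ (2 * M) ∈ Fx G s₁ := by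
        rw [mul_comm, pow_mul]
        exact pow_mem hFM 2
      exact e a ha
    · rw [hWm] at ha
      have ha0 : a ≠ 0 := by
        rintro rfl
        rw [zero_pow hn0.ne'] at ha
        exact zero_ne_one ha
      have e1 : Units.mk0 a ha0 ∈ Cs k Q := cs_of_pow_one hn0 (Units.ext ha)
      have e2 := congrArg Units.val (frob_cs h (2 * M) e1)
      rw [Units.coe_smul, Units.val_mk0, Units.val_pow_eq_pow_val, Units.val_mk0] at e2
      rw [hF, e2]
      have e3 : q ^ (2 * M) = q ^ (2 * M) - 1 + 1 := by omega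
      rw [e3, pow_succ, ha, one_mul]
  -- squares
  have hsecF : ∀ a : ℕ, (Ex.sec hz F ^ a).m ^ 2 = 1 := by
    intro a
    induction a with
    | zero =>
      change ((z 1 1)⁻¹) ^ 2 = 1
      rw [inv_pow, hN, inv_one]
    | succ a ih =>
      have e : Ex.sec hz F ^ (a + 1) = Ex.sec hz F ^ a * Ex.sec hz F := pow_succ _ _
      rw [e]
      change ((Ex.sec hz F ^ a).m * (Ex.sec hz F ^ a).g • (1 : Qˣ) * z _ _) ^ 2 = 1
      rw [smul_one, mul_one, mul_pow, ih, hN, one_mul]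
  have hsecFg : ∀ a : ℕ, (Ex.sec hz F ^ a).g = F ^ a := fun a => map_pow (Ex.pr hz) _ a
  have hs0m : ∀ σ, (s0 hz l σ).m = (l σ)⁻¹ := by
    intro σ
    rw [s0, Ex.inc_mul]
    exact mul_one _
  have hs0g : ∀ σ, (s0 hz l σ).g = σ := by
    intro σ
    rw [s0, Ex.inc_mul]
    rfl
  have hs0m2 : ∀ σ, (s0 hz l σ).m ^ 2 = 1 := fun σ => by rw [hs0m, inv_pow, hlN, inv_one]
  -- (F)
  have hFhat : Ex.sec hz F ^ (2 * M) = hat hz (F ^ (2 * M)) := by
    obtain ⟨ε, hε⟩ := Ex.eq_inc hz (e := Ex.sec hz F ^ M) (e' := hat hz (F ^ M)) (hsecFg M)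
    have hε2 : ε ^ 2 = 1 := by
      have e1 := congrArg Ex.m hε
      rw [Ex.inc_mul] at e1
      change (Ex.sec hz F ^ M).m = ε * (z 1 1)⁻¹ at e1
      have e2 := hsecF M
      rw [e1, mul_pow, inv_pow, hN, inv_one, mul_one] at e2
      exact e2
    rw [mul_comm 2 M, pow_mul, hε, sq, mul_assoc, ← mul_assoc (hat hz (F ^ M)), Ex.mul_inc,
      sgn_smul hε2, mul_assoc, hat_mul hz hN hzs₁ hFM, ← mul_assoc, ← map_mul, ← sq, hε2, map_one,
      one_mul, ← pow_add, ← two_mul, mul_comm 2 M]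
  -- (E)
  have hE : ∀ u ∈ Tr k Q G, u ∈ Fx G s₂ → s0 hz l u = hat hz u := by
    intro u hu hus
    have e1 := hl 1 (one_mem _) 1 (one_mem _)
    rw [mul_one, mul_div_assoc, div_self', mul_one] at e1
    have e2 := hls 1 (one_mem _) u hu hus
    rw [one_mul] at e2
    refine Ex.ext ?_ ?_
    · rw [hs0m, e2, ← e1]
      rfl
    · rw [hs0g]
      rfl
  -- (C)
  have hC : ∀ (a : ℕ) (σ : G), σ ∈ Tr k Q G → Ex.sec hz F ^ a * s0 hz l σ =
      s0 hz l (F ^ a * σ * (F ^ a)⁻¹) * Ex.sec hz F ^ a := by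
    intro a σ hσ
    induction a with
    | zero => rw [pow_zero, pow_zero, one_mul, mul_one, one_mul, inv_one, mul_one]
    | succ a ih =>
      have e1 := frob_s0 (D := D) hz (l := l) (F ^ a * σ * (F ^ a)⁻¹)
      rw [hchi _ (conj_tr h hσ _), map_one, one_mul, ← hF] at e1
      have e2 : F * (F ^ a * σ * (F ^ a)⁻¹) * F⁻¹ = F ^ (a + 1) * σ * (F ^ (a + 1))⁻¹ := by
        rw [pow_succ', mul_inv_rev]
        simp only [mul_assoc]
      rw [e2] at e1
      rw [pow_succ' (Ex.sec hz F) a, mul_assoc, ih, ← mul_assoc, e1, mul_assoc]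
  have hFd : ∀ b : ℕ, Ex.sec hz F ^ (2 * M * b) = hat hz (F ^ (2 * M * b)) := by
    intro b
    induction b with
    | zero => rw [mul_zero, pow_zero, pow_zero]; rfl
    | succ b ih =>
      rw [mul_add, mul_one, pow_add, ih, hFhat, hat_mul hz hN hzs (by
        rw [pow_mul]; exact pow_mem hF2M b), ← pow_add]
  -- the complement
  set C : Set (Ex hz) := {e | ∃ σ ∈ Tr k Q G, ∃ a : ℕ, ∃ u ∈ Fx G s₂,
    e = s0 hz l σ * Ex.sec hz F ^ a * hat hz u} with hCdef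
  have hCg : ∀ σ a u, (s0 hz l σ * Ex.sec hz F ^ a * hat hz u).g = σ * F ^ a * u := by
    intro σ a u
    change (s0 hz l σ).g * (Ex.sec hz F ^ a).g * u = _
    rw [hs0g, hsecFg]
  have hhat : ∀ u ∈ Fx G s₂, ∀ (e : Ex hz), e.m ^ 2 = 1 → hat hz u * e =
      e * hat hz (e.g⁻¹ * u * e.g) := fun u hu e he => hat_comm hz hN hzs hst₂ hu he
  have hconjU : ∀ u ∈ Fx G s₂, ∀ g : G, g⁻¹ * u * g ∈ Fx G s₂ := by
    intro u hu g
    have := (fx_normal hst₂).conj_mem u hu g⁻¹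
    rwa [inv_inv] at this
  have hCmul : ∀ e ∈ C, ∀ e' ∈ C, e * e' ∈ C := by
    rintro _ ⟨σ, hσ, a, u, hu, rfl⟩ _ ⟨σ', hσ', b, u', hu', rfl⟩
    have hu1 := hconjU u hu σ'
    have hu2 := hconjU _ hu1 (F ^ b)
    refine ⟨σ * (F ^ a * σ' * (F ^ a)⁻¹), mul_mem hσ (conj_tr h hσ' _), a + b,
      (F ^ b)⁻¹ * (σ'⁻¹ * u * σ') * F ^ b * u', mul_mem hu2 hu', ?_⟩
    have e1 := hhat u hu _ (hs0m2 σ')
    rw [hs0g] at e1
    have e2 := hhat _ hu1 _ (hsecF b)
    rw [hsecFg] at e2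
    calc s0 hz l σ * Ex.sec hz F ^ a * hat hz u * (s0 hz l σ' * Ex.sec hz F ^ b * hat hz u')
        = s0 hz l σ * Ex.sec hz F ^ a * (hat hz u * s0 hz l σ') * Ex.sec hz F ^ b *
            hat hz u' := by simp only [mul_assoc]
      _ = s0 hz l σ * (Ex.sec hz F ^ a * s0 hz l σ') * (hat hz (σ'⁻¹ * u * σ') *
            Ex.sec hz F ^ b) * hat hz u' := by rw [e1]; simp only [mul_assoc]
      _ = (s0 hz l σ * s0 hz l (F ^ a * σ' * (F ^ a)⁻¹)) * (Ex.sec hz F ^ a * Ex.sec hz F ^ b) *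
            (hat hz ((F ^ b)⁻¹ * (σ'⁻¹ * u * σ') * F ^ b) * hat hz u') := by
          rw [e2, hC a σ' hσ']; simp only [mul_assoc]
      _ = _ := by
          rw [s0_mul hz hlc' hl hσ (conj_tr h hσ' _), ← pow_add, hat_mul hz hN hzs hu2]
  -- uniqueness, equal exponents
  have huniq0 : ∀ σ ∈ Tr k Q G, ∀ σ' ∈ Tr k Q G, ∀ a : ℕ, ∀ u ∈ Fx G s₂, ∀ u' ∈ Fx G s₂,
      σ * F ^ a * u = σ' * F ^ a * u' →
      s0 hz l σ * Ex.sec hz F ^ a * hat hz u = s0 hz l σ' * Ex.sec hz F ^ a * hat hz u' := by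
    intro σ hσ σ' hσ' a u hu u' hu' heq
    have hv : σ'⁻¹ * σ ∈ Tr k Q G := mul_mem (inv_mem hσ') hσ
    have hv1 : σ'⁻¹ * σ = F ^ a * (u' * u⁻¹) * (F ^ a)⁻¹ := by
      have e1 : σ = σ' * F ^ a * u' * u⁻¹ * (F ^ a)⁻¹ := by
        rw [← heq]; group
      rw [e1]; group
    have hv2 : σ'⁻¹ * σ ∈ Fx G s₂ := by
      rw [hv1]
      exact (fx_normal hst₂).conj_mem _ (mul_mem hu' (inv_mem hu)) _
    have e1 : s0 hz l σ = s0 hz l σ' * hat hz (σ'⁻¹ * σ) := by
      rw [← hE _ hv hv2, s0_mul hz hlc' hl hσ' hv, mul_inv_cancel_left]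
    have e2 := hhat _ hv2 _ (hsecF a)
    rw [hsecFg] at e2
    have e3 : (F ^ a)⁻¹ * (σ'⁻¹ * σ) * F ^ a = u' * u⁻¹ := by
      rw [hv1]; group
    rw [e3] at e2
    rw [e1, mul_assoc (s0 hz l σ'), e2, mul_assoc, mul_assoc,
      hat_mul hz hN hzs (mul_mem hu' (inv_mem hu)), inv_mul_cancel_right, ← mul_assoc]
  have hwW : (w : Q) ∈ s₂ := by
    rw [hs₂, mem_union, hWm]
    right
    rw [← Units.val_pow_eq_pow_val, hw.pow_eq_one, Units.val_one]
  have hact : ∀ σ ∈ Tr k Q G, ∀ a : ℕ, ∀ u ∈ Fx G s₂, (σ * F ^ a * u) • w = w ^ q ^ a := by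
    intro σ hσ a u hu
    have e1 : u • w = w := Units.ext (hu _ hwW)
    rw [mul_smul, mul_smul, e1, hF, frob_cs h a hwc, cs_smul (pow_mem hwc _) hσ]
  have huniq1 : ∀ σ ∈ Tr k Q G, ∀ σ' ∈ Tr k Q G, ∀ a' d : ℕ, ∀ u ∈ Fx G s₂, ∀ u' ∈ Fx G s₂,
      σ * F ^ (a' + d) * u = σ' * F ^ a' * u' →
      s0 hz l σ * Ex.sec hz F ^ (a' + d) * hat hz u =
        s0 hz l σ' * Ex.sec hz F ^ a' * hat hz u' := by
    intro σ hσ σ' hσ' a' d u hu u' hu' heq
    have e1 : w ^ q ^ (a' + d) = w ^ q ^ a' := by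
      rw [← hact σ hσ (a' + d) u hu, heq, hact σ' hσ' a' u' hu']
    have hd : 2 * M ∣ d := by
      have hq := h.q1
      have e2 : w ^ (q ^ a' * (q ^ d - 1)) = 1 := by
        have e3 : q ^ (a' + d) = q ^ a' * (q ^ d - 1) + q ^ a' := by
          have : 1 ≤ q ^ d := Nat.one_le_pow _ _ (by omega)
          rw [pow_add]
          obtain ⟨x, hx⟩ : ∃ x, q ^ d = x + 1 := ⟨q ^ d - 1, by omega⟩
          rw [hx, Nat.add_sub_cancel]
          ring
        rw [e3, pow_add] at e1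
        exact mul_eq_right.1 e1
      have e4 := (hw.pow_eq_one_iff_dvd _).1 e2
      have e5 : Nat.Coprime (q ^ (2 * M) - 1) (q ^ a') := by
        refine Nat.Coprime.pow_right _ ?_
        have e6 : Nat.Coprime (q ^ (2 * M) - 1) (q ^ (2 * M)) := by
          obtain ⟨x, hx⟩ : ∃ x, q ^ (2 * M) = x + 1 := ⟨q ^ (2 * M) - 1, by omega⟩
          rw [hx, Nat.add_sub_cancel]
          exact Nat.coprime_self_add_right.2 (Nat.coprime_one_right x)
        exact Nat.Coprime.coprime_dvd_right (dvd_pow_self q h2M.ne') e6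
      have e6 := e5.dvd_of_dvd_mul_left e4
      have e7 := Nat.pow_sub_one_gcd_pow_sub_one q (2 * M) d
      rw [Nat.gcd_eq_left e6] at e7
      have e8 : q ^ (2 * M) = q ^ Nat.gcd (2 * M) d := by
        have h1 : 1 ≤ q ^ (2 * M) := Nat.one_le_pow _ _ (by omega)
        have h2 : 1 ≤ q ^ Nat.gcd (2 * M) d := Nat.one_le_pow _ _ (by omega)
        omega
      have e9 := Nat.pow_right_injective (by omega : 2 ≤ q) e8
      rw [e9]
      exact Nat.gcd_dvd_right _ _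
    obtain ⟨b, rfl⟩ := hd
    have hFb : F ^ (2 * M * b) ∈ Fx G s₂ := by
      rw [pow_mul]; exact pow_mem hF2M b
    have e2 : s0 hz l σ * Ex.sec hz F ^ (a' + 2 * M * b) * hat hz u =
        s0 hz l σ * Ex.sec hz F ^ a' * hat hz (F ^ (2 * M * b) * u) := by
      rw [pow_add, hFd, ← hat_mul hz hN hzs hFb]
      simp only [mul_assoc]
    rw [e2]
    refine huniq0 σ hσ σ' hσ' a' _ (mul_mem hFb hu) u' hu' ?_
    rw [← heq, pow_add]
    simp only [mul_assoc]
  have huniq : ∀ e ∈ C, ∀ e' ∈ C, e.g = e'.g → e = e' := by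
    rintro _ ⟨σ, hσ, a, u, hu, rfl⟩ _ ⟨σ', hσ', a', u', hu', rfl⟩ heq
    rw [hCg, hCg] at heq
    rcases Nat.le_total a' a with h1 | h1
    · obtain ⟨d, rfl⟩ := Nat.exists_eq_add_of_le h1
      exact huniq1 σ hσ σ' hσ' a' d u hu u' hu' heq
    · obtain ⟨d, rfl⟩ := Nat.exists_eq_add_of_le h1
      exact (huniq1 σ' hσ' σ hσ a d u' hu' u hu heq.symm).symm
  have hex : ∀ g : G, ∃ e ∈ C, e.g = g := by
    intro g
    obtain ⟨a, σ, hσ, u, hu, rfl⟩ := cof h (s := s₂) g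
    exact ⟨_, ⟨σ, hσ, a, u, hu, rfl⟩, hCg σ a u⟩
  choose S hS hSg using hex
  have hSm : ∀ g j, S (g * j) = S g * S j := fun g j =>
    huniq _ (hS _) _ (hCmul _ (hS g) _ (hS j)) (by
      rw [hSg]
      change g * j = (S g).g * (S j).g
      rw [hSg, hSg])
  have hmul2 : ∀ e e' : Ex hz, e.m ^ 2 = 1 → e'.m ^ 2 = 1 → (e * e').m ^ 2 = 1 := by
    intro e e' he he'
    change (e.m * e.g • e'.m * z e.g e'.g) ^ 2 = 1
    rw [mul_pow, mul_pow, he, ← smul_pow', he', hN, smul_one, one_mul, one_mul]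
  have hS2 : ∀ g, (S g).m ^ 2 = 1 := by
    intro g
    obtain ⟨σ, hσ, a, u, hu, he⟩ := hS g
    rw [he]
    refine hmul2 _ _ (hmul2 _ _ (hs0m2 σ) (hsecF a)) ?_
    change ((z 1 1)⁻¹) ^ 2 = 1
    rw [inv_pow, hN, inv_one]
  refine ⟨fun g => (S g).m⁻¹, ⟨s₂, fun u hu g => ?_⟩, fun g => by
    rw [inv_pow, hS2, inv_one], fun g j => ?_⟩
  · have e1 : S (g * u) = S g * hat hz u := by
      refine huniq _ (hS _) _ ?_ ?_
      · obtain ⟨σ, hσ, a, u', hu', he⟩ := hS g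
        exact ⟨σ, hσ, a, u' * u, mul_mem hu' hu, by
          rw [he, mul_assoc, hat_mul hz hN hzs hu']⟩
      · rw [hSg]
        change g * u = (S g).g * u
        rw [hSg]
    have e2 : (S g * hat hz u).m = (S g).m := by
      change (S g).m * (S g).g • (z 1 1)⁻¹ * z (S g).g u = (S g).m
      rw [z_right hz hN hzs hu, smul_inv', sgn_smul (hN 1 1), inv_mul_cancel_right]
    change (S (g * u)).m⁻¹ = (S g).m⁻¹
    rw [e1, e2]
  · have e1 := congrArg Ex.m (hSm g j)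
    change (S (g * j)).m = (S g).m * (S g).g • (S j).m * z (S g).g (S j).g at e1
    rw [hSg, hSg, sgn_smul (hS2 j)] at e1
    change z g j = (S g).m⁻¹ * (S j).m⁻¹ / (S (g * j)).m⁻¹
    rw [e1, div_inv_eq_mul]
    have e2 : ∀ a b c : Qˣ, c = a⁻¹ * b⁻¹ * (a * b * c) := by
      intro a b c
      rw [← mul_inv, ← mul_assoc, inv_mul_cancel, one_mul]
    exact e2 _ _ _

end Pool.Agent.MP72S.E
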