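import Pool.Agent.Lib.MP_72e2e6_nt.Sm.E.Cst

/-!
# MP_72e2e6_nt, `Sm`, block E: Kummer theory over `k(t)`
-/

set_option linter.unusedSectionVars false

namespace Pool.Agent.MP72S.E

open Polynomial

attribute [local instance] Units.mulDistribMulActionRight

section

variable {k Q : Type} [Field k] [Field Q] [Algebra k Q]

/-- The product of the `T c ^ n c`. -/
noncomputable def fpr (T : k → Qˣ) (n : k →₀ ℤ) : Qˣ := n.prod fun c e => T c ^ e

theorem fpr_zero (T : k → Qˣ) : fpr T 0 = 1 := Finsupp.prod_zero_index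

theorem fpr_add (T : k → Qˣ) (n n' : k →₀ ℤ) : fpr T (n + n') = fpr T n * fpr T n' :=
  Finsupp.prod_add_index' (fun _ => zpow_zero _) fun _ _ _ => zpow_add _ _ _

theorem fpr_single (T : k → Qˣ) (c : k) : fpr T (Finsupp.single c 1) = T c := by
  rw [fpr, Finsupp.prod_single_index (zpow_zero _), zpow_one]

theorem fpr_neg (T : k → Qˣ) (n : k →₀ ℤ) : fpr T (-n) = (fpr T n)⁻¹ := by
  rw [eq_inv_iff_mul_eq_one, ← fpr_add, neg_add_cancel, fpr_zero]

theorem fpr_pow (T : k → Qˣ) (n : k →₀ ℤ) (N : ℕ) : fpr (fun c => T c ^ N) n = fpr T n ^ N := by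
  rw [fpr, fpr, Finsupp.prod, Finsupp.prod, ← Finset.prod_pow]
  refine Finset.prod_congr rfl fun c _ => ?_
  rw [← zpow_natCast, ← zpow_natCast, ← zpow_mul, ← zpow_mul, mul_comm]

theorem fpr_div (T T' : k → Qˣ) (n : k →₀ ℤ) :
    fpr (fun c => T c / T' c) n = fpr T n / fpr T' n := by
  rw [fpr, fpr, fpr, Finsupp.prod, Finsupp.prod, Finsupp.prod, ← Finset.prod_div_distrib]
  exact Finset.prod_congr rfl fun c _ => div_zpow _ _ _

theorem fpr_map (f : Qˣ →* Qˣ) (T : k → Qˣ) (n : k →₀ ℤ) :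
    f (fpr T n) = fpr (fun c => f (T c)) n := by
  rw [fpr, fpr, Finsupp.prod, Finsupp.prod, map_prod]
  exact Finset.prod_congr rfl fun c _ => map_zpow f _ _

variable (k) in
/-- The group generated by the constants and the `T c`. -/
noncomputable def Dv (T : k → Qˣ) : Subgroup Qˣ where
  carrier := {y | ∃ a ∈ Cs k Q, ∃ n : k →₀ ℤ, y = a * fpr T n}
  one_mem' := ⟨1, one_mem _, 0, by rw [fpr_zero, mul_one]⟩
  mul_mem' := by
    rintro _ _ ⟨a, ha, n, rfl⟩ ⟨b, hb, n', rfl⟩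
    exact ⟨a * b, mul_mem ha hb, n + n', by rw [fpr_add]; exact mul_mul_mul_comm _ _ _ _⟩
  inv_mem' := by
    rintro _ ⟨a, ha, n, rfl⟩
    exact ⟨a⁻¹, inv_mem ha, -n, by rw [fpr_neg, mul_inv]⟩

theorem dv_poly [IsAlgClosed k] {t : Q} {T : k → Qˣ} (hT : ∀ c, (T c : Q) = t - algebraMap k Q c)
    (p : k[X]) (y : Qˣ) (hy : (y : Q) = aeval t p) : y ∈ Dv k T := by
  have hp : p ≠ 0 := by
    rintro rfl
    exact y.ne_zero (by rw [hy, map_zero])
  have hlc : algebraMap k Q p.leadingCoeff ≠ 0 := by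
    intro h0
    exact hp (leadingCoeff_eq_zero.1 ((algebraMap k Q).injective (by rw [h0, map_zero])))
  have h1 : y = Units.mk0 _ hlc * (p.roots.map T).prod := by
    apply Units.ext
    rw [hy, Units.val_mul, Units.val_mk0]
    conv_lhs => rw [(IsAlgClosed.splits p).eq_prod_roots]
    rw [map_mul, aeval_C]
    congr 1
    rw [map_multiset_prod, Multiset.map_map]
    have h2 := map_multiset_prod (Units.coeHom Q) (p.roots.map T)
    rw [Multiset.map_map] at h2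
    refine Eq.trans ?_ h2.symm
    congr 1
    refine Multiset.map_congr rfl fun c _ => ?_
    rw [Function.comp_apply, Function.comp_apply, map_sub, aeval_X, aeval_C]
    exact (hT c).symm
  rw [h1]
  refine mul_mem ⟨Units.mk0 _ hlc, ⟨_, rfl⟩, 0, by rw [fpr_zero, mul_one]⟩ ?_
  refine Subgroup.multiset_prod_mem _ _ fun x hx => ?_
  rw [Multiset.mem_map] at hx
  obtain ⟨c, -, rfl⟩ := hx
  exact ⟨1, one_mem _, Finsupp.single c 1, by rw [fpr_single, one_mul]⟩

end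

section

variable {k Q G N P : Type} [Field k] [Group G] [Field Q] [Algebra k Q] [MulSemiringAction G Q]
  [TopologicalSpace G] {D : Dat G N P} {t : Q} {q : ℕ} {dg : P → ℕ} {rt : P → k}
  [IsTopologicalGroup G] [CompactSpace G] [IsAlgClosed k]

theorem tc_ne (h : Qd D k Q t q dg rt) (c : k) : t - algebraMap k Q c ≠ 0 := by
  intro h0
  apply h.tr
  rw [sub_eq_zero.1 h0]
  exact isAlgebraic_algebraMap c

theorem exists_r (h : Qd D k Q t q dg rt) (m : ℕ) :
    ∃ r : k → Qˣ, ∀ c, (r c : Q) ^ 2 ^ m = t - algebraMap k Q c := by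
  have h1 : ∀ c : k, ∃ r : Qˣ, (r : Q) ^ 2 ^ m = t - algebraMap k Q c := by
    intro c
    obtain ⟨b, hb⟩ := exists_pow_root h.sq m (Units.mk0 _ (tc_ne h c))
    exact ⟨b, by rw [← Units.val_pow_eq_pow_val, hb, Units.val_mk0]⟩
  choose r hr using h1
  exact ⟨r, hr⟩

/-- Kummer theory: the characters of `Tr` of order dividing `2 ^ m`. -/
theorem kum (h : Qd D k Q t q dg rt) {m : ℕ} {r : k → Qˣ}
    (hr : ∀ c, (r c : Q) ^ 2 ^ m = t - algebraMap k Q c) (χ : G → Qˣ) {s : Finset Q}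
    (hs : St G s) (hL : Lv k s χ)
    (hχ : ∀ g ∈ Tr k Q G, ∀ j ∈ Tr k Q G, χ (g * j) = χ g * χ j)
    (hN : ∀ g ∈ Tr k Q G, χ g ^ 2 ^ m = 1) :
    ∃ n : k →₀ ℤ, ∀ g ∈ Tr k Q G, χ g = fpr (fun c => g • r c / r c) n := by
  have hN0 : 0 < 2 ^ m := pow_pos two_pos m
  obtain ⟨x, hx⟩ := h90T h χ hs hL fun g hg j hj => by
    rw [hχ g hg j hj, cs_smul (cs_of_pow_one hN0 (hN j hj)) hg]
  obtain ⟨p, p', hp⟩ := h.fix ((x : Q) ^ 2 ^ m) fun g hg => by
    have h1 := hN g hg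
    rw [hx g hg, div_pow, div_eq_one, ← smul_pow'] at h1
    have h2 := congrArg Units.val h1
    rwa [Units.coe_smul, Units.val_pow_eq_pow_val] at h2
  have hT : ∀ c, ((r c ^ 2 ^ m : Qˣ) : Q) = t - algebraMap k Q c := fun c => by
    rw [Units.val_pow_eq_pow_val, hr]
  have hx0 : (x : Q) ^ 2 ^ m ≠ 0 := pow_ne_zero _ x.ne_zero
  have hp0 : aeval t p ≠ 0 := fun h0 => hx0 (by rw [hp, h0, zero_div])
  have hp'0 : aeval t p' ≠ 0 := fun h0 => hx0 (by rw [hp, h0, div_zero])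
  have hxD : x ^ 2 ^ m ∈ Dv k fun c => r c ^ 2 ^ m := by
    have e : x ^ 2 ^ m = Units.mk0 _ hp0 / Units.mk0 _ hp'0 := by
      apply Units.ext
      rw [Units.val_pow_eq_pow_val, hp, Units.val_div_eq_div_val, Units.val_mk0, Units.val_mk0]
    rw [e]
    exact div_mem (dv_poly hT p _ rfl) (dv_poly hT p' _ rfl)
  obtain ⟨a, ha, n, hn⟩ := hxD
  rw [fpr_pow] at hn
  obtain ⟨a', ha'⟩ := exists_pow_root h.sq m a
  have ha'c : a' ∈ Cs k Q := cs_of_pow hN0 (by rw [ha']; exact ha)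
  obtain ⟨ω, hω⟩ : ∃ ω : Qˣ, ω = x / (a' * fpr r n) := ⟨_, rfl⟩
  have hωc : ω ∈ Cs k Q := by
    refine cs_of_pow_one hN0 ?_
    rw [hω, div_pow, mul_pow, ha', hn, div_self']
  refine ⟨n, fun g hg => ?_⟩
  have h1 : x = ω * a' * fpr r n := by
    rw [hω, mul_assoc, div_mul_cancel]
  have h3 : g • fpr r n = fpr (fun c => g • r c) n :=
    fpr_map (MulDistribMulAction.toMonoidHom Qˣ g) r n
  rw [hx g hg, fpr_div, h1, smul_mul', smul_mul', cs_smul hωc hg, cs_smul ha'c hg, h3,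
    mul_div_mul_left_eq_div]

end

end Pool.Agent.MP72S.E
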