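import Pool.Agent.Lib.MP_72e2e6_nt.Sm.E.Spec

/-!
# MP_72e2e6_nt, `Sm`, block E: locally constant functions on a compact group
-/

namespace Pool.Agent.MP72S.E

section

variable (G : Type) {Q : Type} [Group G] [Field Q] [MulSemiringAction G Q]

/-- The pointwise stabilizer. -/
def Fx (s : Finset Q) : Subgroup G where
  carrier := {g | ∀ a ∈ s, g • a = a}
  mul_mem' {g h} hg hh a ha := by
    rw [mul_smul, hh a ha, hg a ha]
  one_mem' a _ := one_smul G a
  inv_mem' {g} hg a ha := by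
    rw [inv_smul_eq_iff, hg a ha]

theorem mem_fx {s : Finset Q} {g : G} : g ∈ Fx G s ↔ ∀ a ∈ s, g • a = a := Iff.rfl

/-- Stable finite sets. -/
def St (s : Finset Q) : Prop := ∀ g : G, ∀ a ∈ s, g • a ∈ s

variable {G}

theorem fx_mono {s s' : Finset Q} (h : s ⊆ s') : Fx G s' ≤ Fx G s := fun _ hg a ha => hg a (h ha)

theorem fx_normal {s : Finset Q} (hs : St G s) : (Fx G s).Normal := by
  refine ⟨fun g hg h a ha => ?_⟩
  rw [mul_smul, mul_smul, hg _ (hs h⁻¹ a ha), smul_inv_smul]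

theorem St.union [DecidableEq Q] {s s' : Finset Q} (h : St G s) (h' : St G s') :
    St G (s ∪ s') := by
  intro g a ha
  rw [Finset.mem_union] at ha ⊢
  rcases ha with h1 | h1
  · exact Or.inl (h g a h1)
  · exact Or.inr (h' g a h1)

end

section

variable {G Q : Type} [Group G] [Field Q] [MulSemiringAction G Q] [TopologicalSpace G]

theorem fx_open (stab : ∀ a : Q, IsOpen {g : G | g • a = a}) (s : Finset Q) :
    IsOpen (Fx G s : Set G) := by
  have : (Fx G s : Set G) = ⋂ a ∈ s, {g : G | g • a = a} := by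
    ext g
    simp [Fx]
  rw [this]
  exact isOpen_biInter_finset fun a _ => stab a

variable [IsTopologicalGroup G]

theorem orb_lc (stab : ∀ a : Q, IsOpen {g : G | g • a = a}) (a : Q) :
    IsLocallyConstant fun g : G => g • a := by
  rw [IsLocallyConstant.iff_isOpen_fiber]
  intro b
  by_cases hb : ∃ g₀ : G, g₀ • a = b
  · obtain ⟨g₀, rfl⟩ := hb
    have : (fun g : G => g • a) ⁻¹' {g₀ • a} = (fun g => g₀⁻¹ * g) ⁻¹' {g : G | g • a = a} := by
      ext g
      simp only [Set.mem_preimage, Set.mem_singleton_iff, Set.mem_ofPred_eq, mul_smul,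
        inv_smul_eq_iff]
    rw [this]
    exact (stab a).preimage (continuous_const.mul continuous_id)
  · have : (fun g : G => g • a) ⁻¹' {b} = ∅ := by
      ext g
      simp only [Set.mem_preimage, Set.mem_singleton_iff, Set.mem_empty_iff_false, iff_false]
      exact fun h => hb ⟨g, h⟩
    rw [this]
    exact isOpen_empty

theorem lc_of_fx (stab : ∀ a : Q, IsOpen {g : G | g • a = a}) {X : Type} (f : G → X)
    (s : Finset Q) (h : ∀ u ∈ Fx G s, ∀ g, f (g * u) = f g) : IsLocallyConstant f := by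
  rw [IsLocallyConstant.iff_exists_open]
  intro g
  refine ⟨(fun x => g⁻¹ * x) ⁻¹' (Fx G s : Set G),
    (fx_open stab s).preimage (continuous_const.mul continuous_id), ?_, fun x hx => ?_⟩
  · rw [Set.mem_preimage, inv_mul_cancel]
    exact one_mem _
  · have e := h _ hx g
    rwa [mul_inv_cancel_left] at e

variable [CompactSpace G]

theorem orb_fin (stab : ∀ a : Q, IsOpen {g : G | g • a = a}) (a : Q) :
    (Set.range fun g : G => g • a).Finite := (orb_lc stab a).range_finite

theorem exists_st (stab : ∀ a : Q, IsOpen {g : G | g • a = a}) (s : Finset Q) :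
    ∃ s' : Finset Q, s ⊆ s' ∧ St G s' := by
  classical
  refine ⟨s.biUnion fun a => (orb_fin stab a).toFinset, fun a ha => ?_, fun g b hb => ?_⟩
  · rw [Finset.mem_biUnion]
    exact ⟨a, ha, by
      rw [Set.Finite.mem_toFinset]
      exact ⟨1, one_smul G a⟩⟩
  · rw [Finset.mem_biUnion] at hb ⊢
    obtain ⟨a, ha, hb⟩ := hb
    rw [Set.Finite.mem_toFinset] at hb
    obtain ⟨g', rfl⟩ := hb
    exact ⟨a, ha, by
      rw [Set.Finite.mem_toFinset]
      exact ⟨g * g', mul_smul g g' a⟩⟩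

theorem lc2 (stab : ∀ a : Q, IsOpen {g : G | g • a = a})
    (bas : ∀ U : Set G, IsOpen U → 1 ∈ U →
      ∃ s : Finset Q, ∀ g : G, (∀ a ∈ s, g • a = a) → g ∈ U)
    {X : Type} (f : G → G → X) (hf : IsLocallyConstant fun p : G × G => f p.1 p.2) :
    ∃ s : Finset Q, St G s ∧ ∀ u ∈ Fx G s, ∀ u' ∈ Fx G s, ∀ g h, f (g * u) (h * u') = f g h := by
  classical
  have h1 : ∀ p : G × G, ∃ s : Finset Q, ∀ u ∈ Fx G s, ∀ u' ∈ Fx G s,
      f (p.1 * u) (p.2 * u') = f p.1 p.2 := by
    intro p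
    have ho : IsOpen {w : G × G | f (p.1 * w.1) (p.2 * w.2) = f p.1 p.2} := by
      have hc : Continuous fun w : G × G => (p.1 * w.1, p.2 * w.2) :=
        (continuous_const.mul continuous_fst).prodMk (continuous_const.mul continuous_snd)
      exact (hf.isOpen_fiber (f p.1 p.2)).preimage hc
    obtain ⟨U, V, hU, hV, h1U, h1V, hUV⟩ := isOpen_prod_iff.1 ho 1 1 (by simp)
    obtain ⟨s, hs⟩ := bas U hU h1U
    obtain ⟨s', hs'⟩ := bas V hV h1V
    refine ⟨s ∪ s', fun u hu u' hu' => ?_⟩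
    have e : ((u, u') : G × G) ∈ U ×ˢ V := ⟨hs u (fx_mono Finset.subset_union_left hu),
      hs' u' (fx_mono Finset.subset_union_right hu')⟩
    exact hUV e
  choose s hs using h1
  have hnh : ∀ p ∈ (Set.univ : Set (G × G)),
      {w : G × G | p.1⁻¹ * w.1 ∈ Fx G (s p) ∧ p.2⁻¹ * w.2 ∈ Fx G (s p)} ∈ nhds p := by
    intro p _
    refine IsOpen.mem_nhds ?_ ?_
    · exact ((fx_open stab (s p)).preimage (continuous_const.mul continuous_fst)).inter
        ((fx_open stab (s p)).preimage (continuous_const.mul continuous_snd))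
    · constructor
      · rw [inv_mul_cancel]; exact one_mem _
      · rw [inv_mul_cancel]; exact one_mem _
  obtain ⟨t, -, ht⟩ := isCompact_univ.elim_nhds_subcover _ hnh
  obtain ⟨s', hs', hst⟩ := exists_st stab (t.biUnion s)
  refine ⟨s', hst, fun u hu u' hu' g h => ?_⟩
  have hgh := ht (Set.mem_univ (g, h))
  simp only [Set.mem_iUnion] at hgh
  obtain ⟨p, hp, hp1, hp2⟩ := hgh
  have hle : Fx G s' ≤ Fx G (s p) :=
    (fx_mono hs').trans (fx_mono (Finset.subset_biUnion_of_mem s hp))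
  have e1 := hs p _ (mul_mem hp1 (hle hu)) _ (mul_mem hp2 (hle hu'))
  have e2 := hs p _ hp1 _ hp2
  simp only [← mul_assoc, mul_inv_cancel, one_mul] at e1 e2
  exact e1.trans e2.symm

theorem lc1 (stab : ∀ a : Q, IsOpen {g : G | g • a = a})
    (bas : ∀ U : Set G, IsOpen U → 1 ∈ U →
      ∃ s : Finset Q, ∀ g : G, (∀ a ∈ s, g • a = a) → g ∈ U)
    {X : Type} (f : G → X) (hf : IsLocallyConstant f) :
    ∃ s : Finset Q, St G s ∧ ∀ u ∈ Fx G s, ∀ g, f (g * u) = f g := by
  obtain ⟨s, hs, h⟩ := lc2 stab bas (fun g _ => f g) (hf.comp_continuous continuous_fst)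
  exact ⟨s, hs, fun u hu g => h u hu 1 (one_mem _) g 1⟩

end

end Pool.Agent.MP72S.E
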