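import Pool.Agent.Lib.MP_72e2e6_nt.Sm.E.Frb

/-!
# MP_72e2e6_nt, `Sm`, block E: the local invariants in terms of the Kummer exponents
-/

set_option linter.unusedSectionVars false

namespace Pool.Agent.MP72S.E

open Polynomial Finset

attribute [local instance] Units.mulDistribMulActionRight

variable {k Q G N P : Type} [Field k] [Group G] [Field Q] [Algebra k Q] [MulSemiringAction G Q]
  [TopologicalSpace G] {D : Dat G N P} {t : Q} {q : ℕ} {dg : P → ℕ} {rt : P → k}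
  [IsTopologicalGroup G] [CompactSpace G] [IsAlgClosed k]

theorem zpow_sum' {M ι : Type} [CommGroup M] (Z : M) (f : ι → ℤ) (s : Finset ι) :
    ∏ i ∈ s, Z ^ f i = Z ^ ∑ i ∈ s, f i := by
  classical
  induction s using Finset.induction_on with
  | empty => rw [prod_empty, sum_empty, zpow_zero]
  | insert i s hi ih => rw [prod_insert hi, sum_insert hi, zpow_add, ih]

theorem chi_mul (h : Qd D k Q t q dg rt) {z : G → G → Qˣ} (hz : IsM2 z)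
    (hzc : ∀ g j, z g j ∈ Cs k Q) {l : G → Qˣ} (hlc : ∀ g, l g ∈ Cs k Q)
    (hl : ∀ g ∈ Tr k Q G, ∀ j ∈ Tr k Q G, z g j = l g * l j / l (g * j)) {σ σ' : G}
    (hσ : σ ∈ Tr k Q G) (hσ' : σ' ∈ Tr k Q G) :
    chi D z l (σ * σ') = chi D z l σ * chi D z l σ' := by
  set F := D.phi D.inf with hF
  have h1 := conj_tr h hσ F
  have h1' := conj_tr h hσ' F
  have e0 := frob_s0 (D := D) hz (l := l) (σ * σ')
  rw [← s0_mul hz hlc hl hσ hσ', ← hF] at e0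
  have e1 : F * (σ * σ') * F⁻¹ = (F * σ * F⁻¹) * (F * σ' * F⁻¹) := by group
  have e2 : s0 hz l (F * σ * F⁻¹) * Ex.inc hz (chi D z l σ') =
      Ex.inc hz (chi D z l σ') * s0 hz l (F * σ * F⁻¹) := by
    refine comm_cs (k := k) hz (chi_cs h hzc hlc _) ?_
    change (1 : G) * _ ∈ _
    rw [one_mul]; exact h1
  have e3 : Ex.sec hz F * (s0 hz l σ * s0 hz l σ') =
      Ex.inc hz (chi D z l σ * chi D z l σ') *
        (s0 hz l (F * σ * F⁻¹) * s0 hz l (F * σ' * F⁻¹)) * Ex.sec hz F := by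
    calc Ex.sec hz F * (s0 hz l σ * s0 hz l σ')
        = Ex.inc hz (chi D z l σ) * s0 hz l (F * σ * F⁻¹) * (Ex.sec hz F * s0 hz l σ') := by
          rw [← mul_assoc, hF, frob_s0]; simp only [mul_assoc]
      _ = Ex.inc hz (chi D z l σ) * (s0 hz l (F * σ * F⁻¹) * Ex.inc hz (chi D z l σ')) *
            s0 hz l (F * σ' * F⁻¹) * Ex.sec hz F := by
          rw [hF, frob_s0]; simp only [mul_assoc]
      _ = _ := by
          rw [e2, map_mul]; simp only [mul_assoc]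
  rw [e3, e1, s0_mul hz hlc hl h1 h1'] at e0
  exact (Ex.inc_inj hz (mul_right_cancel (mul_right_cancel e0))).symm

theorem chi_lv (h : Qd D k Q t q dg rt) {z : G → G → Qˣ} {l : G → Qˣ} {s : Finset Q}
    (hs : St G s) (hz : ∀ u ∈ Fx G s, ∀ u' ∈ Fx G s, ∀ g j, z (g * u) (j * u') = z g j)
    (hl : Lv k s l) : Lv k s (chi D z l) := by
  intro σ hσ u hu hus
  have h1 : D.phi D.inf * (σ * u) * (D.phi D.inf)⁻¹ =
      (D.phi D.inf * σ * (D.phi D.inf)⁻¹) * (D.phi D.inf * u * (D.phi D.inf)⁻¹) := by group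
  have h2 : D.phi D.inf * u * (D.phi D.inf)⁻¹ ∈ Fx G s := (fx_normal hs).conj_mem u hus _
  have e1 := hz 1 (one_mem _) u hus (D.phi D.inf) σ
  have e2 := hz _ h2 1 (one_mem _) (D.phi D.inf * σ * (D.phi D.inf)⁻¹) (D.phi D.inf)
  rw [mul_one] at e1 e2
  rw [chi, chi, h1, e1, e2, hl _ hσ _ hu hus, hl _ (conj_tr h hσ _) _ (conj_tr h hu _) h2]

theorem chi_pow {z : G → G → Qˣ} {l : G → Qˣ} {n : ℕ} (hz : ∀ g j, z g j ^ n = 1)
    (hl : ∀ g, l g ^ n = 1) (σ : G) : chi D z l σ ^ n = 1 := by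
  rw [chi, div_pow, div_pow, mul_pow, hz, hl, hz, ← smul_pow', hl, smul_one]
  simp

theorem zeta_unit {m : ℕ} {ζ : k} (hζ : IsPrimitiveRoot ζ (2 ^ m)) :
    ∃ Z : Qˣ, Z ∈ Cs k Q ∧ IsPrimitiveRoot Z (2 ^ m) ∧ (Z : Q) = algebraMap k Q ζ := by
  have h0 : algebraMap k Q ζ ≠ 0 := by
    intro h0
    have := (hζ.map_of_injective (algebraMap k Q).injective)
    rw [h0] at this
    have h1 := this.pow_eq_one
    rw [zero_pow (pow_ne_zero _ two_ne_zero)] at h1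
    exact zero_ne_one h1
  refine ⟨Units.mk0 _ h0, ⟨ζ, rfl⟩, ?_, rfl⟩
  have h1 := hζ.map_of_injective (algebraMap k Q).injective
  exact IsPrimitiveRoot.of_map_of_injective (f := Units.coeHom Q) h1 Units.val_injective

/-- The action of a conjugate of `tau v` on a Kummer generator. -/
theorem kap (h : Qd D k Q t q dg rt) {m : ℕ} {r : k → Qˣ}
    (hr : ∀ c, (r c : Q) ^ 2 ^ m = t - algebraMap k Q c) (v : P) (i : ℕ) (c' : k) {Z : Qˣ}
    (hZ : Z ∈ Cs k Q) (hτ : ∀ r' : Q, r' ^ 2 ^ m = t - algebraMap k Q c' → D.tau v • r' = Z * r') :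
    (D.phi D.inf ^ i * D.tau v * (D.phi D.inf ^ i)⁻¹) • r (c' ^ q ^ i) / r (c' ^ q ^ i) =
      Z ^ q ^ i := by
  have h1 : ((D.phi D.inf ^ i)⁻¹ • (r (c' ^ q ^ i) : Q)) ^ 2 ^ m = t - algebraMap k Q c' := by
    rw [← smul_pow', hr, smul_sub, h.tfix, frob_inv_k h]
  have h2 := hτ _ h1
  have h3 : D.tau v • (D.phi D.inf ^ i)⁻¹ • r (c' ^ q ^ i) =
      Z * (D.phi D.inf ^ i)⁻¹ • r (c' ^ q ^ i) := Units.ext h2
  rw [mul_smul, mul_smul, h3, smul_mul', smul_inv_smul, frob_cs h i hZ, mul_div_cancel_right]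

/-- The sum of the exponents at a place. -/
def sS (q : ℕ) (dg : P → ℕ) (rt : P → k) (n : k →₀ ℤ) (v : P) : ℤ :=
  ∑ i ∈ range (dg v), n (rt v ^ q ^ i)

theorem val_fin (h : Qd D k Q t q dg rt) {m : ℕ} {r : k → Qˣ}
    (hr : ∀ c, (r c : Q) ^ 2 ^ m = t - algebraMap k Q c) {χ : G → Qˣ} {n : k →₀ ℤ}
    (hn : ∀ g ∈ Tr k Q G, χ g = fpr (fun c => g • r c / r c) n) (v : P) (hv : v ≠ D.inf) :
    ∃ Z : Qˣ, IsPrimitiveRoot Z (2 ^ m) ∧ ∀ i : ℕ,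
      χ (D.phi D.inf ^ i * D.tau v * (D.phi D.inf ^ i)⁻¹) =
        Z ^ ((q : ℤ) ^ i * n (rt v ^ q ^ i)) := by
  obtain ⟨ζ, hζ, hζr⟩ := h.ram m v hv
  obtain ⟨Z, hZc, hZ, hZζ⟩ := zeta_unit (Q := Q) hζ
  refine ⟨Z, hZ, fun i => ?_⟩
  rw [hn _ (conj_tr h (tau_tr h v) _), fpr, Finsupp.prod]
  have e1 : ∀ c : k, c ≠ rt v ^ q ^ i →
      (D.phi D.inf ^ i * D.tau v * (D.phi D.inf ^ i)⁻¹) • r c / r c = 1 := by
    intro c hc
    obtain ⟨c', rfl⟩ := exists_qroot h i c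
    have hc' : c' ≠ rt v := fun h0 => hc (by rw [h0])
    rw [kap h hr v i c' (one_mem _) (fun r' hr' => by
      rw [h.unr m v c' r' hv hc' hr', Units.val_one, one_mul]), one_pow]
  have e2 : (D.phi D.inf ^ i * D.tau v * (D.phi D.inf ^ i)⁻¹) • r (rt v ^ q ^ i) /
      r (rt v ^ q ^ i) = Z ^ q ^ i :=
    kap h hr v i (rt v) hZc fun r' hr' => by rw [hζr r' hr', hZζ]
  rw [Finset.prod_eq_single (rt v ^ q ^ i)]
  · rw [e2, ← zpow_natCast, ← zpow_mul]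
    push_cast
    rfl
  · intro c _ hc
    rw [e1 c hc, one_zpow]
  · intro hc
    rw [Finsupp.notMem_support_iff.1 hc, zpow_zero]

theorem iv_fin (h : Qd D k Q t q dg rt) {z : G → G → Qˣ} (hz : IsM2 z)
    (hzc : ∀ g j, z g j ∈ Cs k Q) {l : G → Qˣ} (hlc : ∀ g, l g ∈ Cs k Q)
    (hl : ∀ g ∈ Tr k Q G, ∀ j ∈ Tr k Q G, z g j = l g * l j / l (g * j)) {m : ℕ} {r : k → Qˣ}
    (hr : ∀ c, (r c : Q) ^ 2 ^ m = t - algebraMap k Q c) {n : k →₀ ℤ}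
    (hn : ∀ g ∈ Tr k Q G, chi D z l g = fpr (fun c => g • r c / r c) n) (v : P)
    (hv : v ≠ D.inf) :
    ∃ Z : Qˣ, IsPrimitiveRoot Z (2 ^ m) ∧
      ivM D z v = Z ^ ((q : ℤ) ^ (dg v - 1) * sS q dg rt n v) := by
  obtain ⟨Z, hZ, hval⟩ := val_fin h hr hn v hv
  refine ⟨Z, hZ, ?_⟩
  rw [ivf h hz hzc hlc hl v, prd, sS, mul_sum, ← zpow_sum']
  refine prod_congr rfl fun i hi => ?_
  rw [mem_range] at hi
  rw [hval, ← zpow_natCast, ← zpow_mul]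
  congr 1
  push_cast
  have e : (q : ℤ) ^ (dg v - 1) = (q : ℤ) ^ i * (q : ℤ) ^ (dg v - 1 - i) := by
    rw [← pow_add]; congr 1; omega
  rw [e]
  ring

theorem iv_inf (h : Qd D k Q t q dg rt) {z : G → G → Qˣ} (hz : IsM2 z)
    (hzc : ∀ g j, z g j ∈ Cs k Q) {l : G → Qˣ} (hlc : ∀ g, l g ∈ Cs k Q)
    (hl : ∀ g ∈ Tr k Q G, ∀ j ∈ Tr k Q G, z g j = l g * l j / l (g * j)) {m : ℕ} {r : k → Qˣ}
    (hr : ∀ c, (r c : Q) ^ 2 ^ m = t - algebraMap k Q c) {n : k →₀ ℤ}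
    (hn : ∀ g ∈ Tr k Q G, chi D z l g = fpr (fun c => g • r c / r c) n) :
    ∃ Z : Qˣ, IsPrimitiveRoot Z (2 ^ m) ∧ ivM D z D.inf = Z ^ ∑ c ∈ n.support, n c := by
  obtain ⟨ζ, hζ, hζr⟩ := h.rami m
  obtain ⟨Z, hZc, hZ, hZζ⟩ := zeta_unit (Q := Q) hζ
  refine ⟨Z, hZ, ?_⟩
  rw [ivf h hz hzc hlc hl, prd, h.dg_inf, range_one, prod_singleton, Nat.sub_self,
    pow_zero, pow_zero, pow_one, one_mul, inv_one, mul_one, hn _ (tau_tr h _), fpr, Finsupp.prod,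
    ← zpow_sum']
  refine prod_congr rfl fun c _ => ?_
  congr 1
  have e := kap h hr D.inf 0 c hZc fun r' hr' => by rw [hζr c r' hr', hZζ]
  rw [pow_zero, pow_zero, pow_one, pow_one, one_mul, inv_one, mul_one] at e
  exact e

end Pool.Agent.MP72S.E
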