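import Pool.Agent.Lib.MP_72e2e6_nt.Sm.E.Spl

/-!
# MP_72e2e6_nt, `Sm`, block E: cocycles and crossed homomorphisms of finite level
-/

namespace Pool.Agent.MP72S.E

attribute [local instance] Units.mulDistribMulActionRight

section

variable {A Q : Type} [Group A] [Field Q] [MulSemiringAction A Q] (W : Subgroup A)

/-- The field of the elements fixed by `W`. -/
abbrev LW : Subfield Q := FixedPoints.subfield W Q

variable {W}

theorem mem_LW {x : Q} : x ∈ LW (Q := Q) W ↔ ∀ w ∈ W, w • x = x :=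
  ⟨fun h w hw => h ⟨w, hw⟩, fun h w => h w.1 w.2⟩

theorem smul_mem_LW [hW : W.Normal] (g : A) {x : Q} (hx : x ∈ LW (Q := Q) W) :
    g • x ∈ LW (Q := Q) W := by
  rw [mem_LW] at hx ⊢
  intro w hw
  have h1 := hx _ (hW.conj_mem w hw g⁻¹)
  rw [inv_inv, mul_smul, mul_smul, inv_smul_eq_iff] at h1
  exact h1

/-- The action of the quotient group on the fixed field. -/
instance actL [hW : W.Normal] : MulSemiringAction (A ⧸ W) (LW (Q := Q) W) where
  smul := Quotient.lift (fun g x => ⟨g • (x : Q), smul_mem_LW g x.2⟩) (by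
    intro a b hab
    funext x
    apply Subtype.ext
    have h1 : a⁻¹ * b ∈ W := QuotientGroup.leftRel_apply.1 hab
    have h2 := mem_LW.1 x.2 _ h1
    rw [mul_smul, inv_smul_eq_iff] at h2
    exact h2.symm)
  one_smul b := Subtype.ext (one_smul A b.1)
  mul_smul := Quotient.ind₂ fun _ _ _ => Subtype.ext (mul_smul _ _ _)
  smul_zero := Quotient.ind fun _ => Subtype.ext (smul_zero _)
  smul_add := Quotient.ind fun _ _ _ => Subtype.ext (smul_add _ _ _)
  smul_one := Quotient.ind fun _ => Subtype.ext (smul_one _)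
  smul_mul := Quotient.ind fun _ _ _ => Subtype.ext (MulSemiringAction.smul_mul _ _ _)

theorem coe_actL [W.Normal] (g : A) (x : LW (Q := Q) W) :
    (((QuotientGroup.mk g : A ⧸ W) • x : LW (Q := Q) W) : Q) = g • (x : Q) := rfl

/-- A unit fixed by `W`. -/
def toLW (x : Qˣ) (hx : ∀ w ∈ W, w • x = x) : (LW (Q := Q) W)ˣ :=
  Units.mk0 ⟨(x : Q), mem_LW.2 fun w hw => congrArg Units.val (hx w hw)⟩
    (fun h => x.ne_zero (congrArg Subtype.val h))

theorem coe_toLW (x : Qˣ) (hx : ∀ w ∈ W, w • x = x) :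
    ((toLW (W := W) x hx : LW (Q := Q) W) : Q) = x := rfl

/-- The unit of `Q` given by a unit of the fixed field. -/
def ofLW (x : (LW (Q := Q) W)ˣ) : Qˣ := Units.map (LW (Q := Q) W).subtype.toMonoidHom x

theorem coe_ofLW (x : (LW (Q := Q) W)ˣ) : ((ofLW x : Qˣ) : Q) = ((x : LW (Q := Q) W) : Q) := rfl

theorem ofLW_toLW (x : Qˣ) (hx : ∀ w ∈ W, w • x = x) : ofLW (toLW (W := W) x hx) = x :=
  Units.ext rfl

theorem ofLW_mul (x y : (LW (Q := Q) W)ˣ) : ofLW (x * y) = ofLW x * ofLW y := map_mul _ _ _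

theorem ofLW_div (x y : (LW (Q := Q) W)ˣ) : ofLW (x / y) = ofLW x / ofLW y := map_div _ _ _

theorem ofLW_smul [W.Normal] (g : A) (x : (LW (Q := Q) W)ˣ) :
    ofLW ((QuotientGroup.mk g : A ⧸ W) • x) = g • ofLW x := Units.ext rfl

theorem ofLW_inj {x y : (LW (Q := Q) W)ˣ} (h : ofLW x = ofLW y) : x = y :=
  Units.ext (Subtype.ext (congrArg Units.val h))

theorem ofLW_fix (x : (LW (Q := Q) W)ˣ) (w : A) (hw : w ∈ W) : w • ofLW x = ofLW x :=
  Units.ext (mem_LW.1 (x : LW (Q := Q) W).2 w hw)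

variable (W)

theorem faithL [W.Normal]
    (hf : ∀ g : A, (∀ x : Q, (∀ w ∈ W, w • x = x) → g • x = x) → g ∈ W) :
    FaithfulSMul (A ⧸ W) (LW (Q := Q) W) := by
  refine ⟨fun {a b} h => ?_⟩
  induction a using QuotientGroup.induction_on with | _ a => ?_
  induction b using QuotientGroup.induction_on with | _ b => ?_
  rw [QuotientGroup.eq]
  refine hf _ fun x hx => ?_
  have h1 := congrArg Subtype.val (h ⟨x, mem_LW.2 hx⟩)
  rw [coe_actL, coe_actL] at h1
  change a • x = b • x at h1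
  rw [mul_smul, inv_smul_eq_iff, h1]

theorem h90A [W.Normal] [Finite (A ⧸ W)]
    (hf : ∀ g : A, (∀ x : Q, (∀ w ∈ W, w • x = x) → g • x = x) → g ∈ W) (a : A → Qˣ)
    (ha : ∀ g h, a (g * h) = a g * g • a h) (haW : ∀ g, ∀ u ∈ W, a (g * u) = a g) :
    ∃ x : Qˣ, (∀ w ∈ W, w • x = x) ∧ ∀ g, a g = g • x / x := by
  have := faithL W hf
  have ha1 : a 1 = 1 := by
    have h := ha 1 1
    rw [one_smul, mul_one] at h
    exact (mul_eq_left.1 h.symm)
  have hw1 : ∀ w ∈ W, a w = 1 := fun w hw => by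
    have h := haW 1 w hw
    rwa [one_mul, ha1] at h
  have hfx : ∀ g, ∀ w ∈ W, w • a g = a g := by
    intro g w hw
    have h1 := ha w g
    rw [hw1 w hw, one_mul] at h1
    rw [← h1]
    have h2 := haW g (g⁻¹ * w * g) (by
      have := Subgroup.Normal.conj_mem (H := W) inferInstance w hw g⁻¹
      rwa [inv_inv] at this)
    rw [← h2]
    congr 1
    group
  obtain ⟨x, hx⟩ := h90 (L := LW (Q := Q) W) (⊤ : Subgroup (A ⧸ W))
    (fun g => toLW (W := W) (a g.out) (hfx _)) (by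
      intro g _ h _
      apply ofLW_inj
      obtain ⟨g, rfl⟩ := QuotientGroup.mk_surjective g
      obtain ⟨h, rfl⟩ := QuotientGroup.mk_surjective h
      rw [ofLW_mul, ofLW_smul, ofLW_toLW, ofLW_toLW, ofLW_toLW]
      obtain ⟨u, hu⟩ := QuotientGroup.mk_out_eq_mul W g
      obtain ⟨u', hu'⟩ := QuotientGroup.mk_out_eq_mul W h
      obtain ⟨u'', hu''⟩ := QuotientGroup.mk_out_eq_mul W (g * h)
      rw [← QuotientGroup.mk_mul, hu, hu', hu'', haW _ _ u.2, haW _ _ u'.2, haW _ _ u''.2, ha])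
  refine ⟨ofLW x, ofLW_fix x, fun g => ?_⟩
  have h1 := congrArg ofLW (hx (QuotientGroup.mk g) trivial)
  rw [ofLW_div, ofLW_smul, ofLW_toLW] at h1
  obtain ⟨u, hu⟩ := QuotientGroup.mk_out_eq_mul W g
  rw [hu, haW _ _ u.2] at h1
  exact h1

theorem splA [W.Normal] [Finite (A ⧸ W)] (h2 : (2 : Q) ≠ 0)
    (hf : ∀ g : A, (∀ x : Q, (∀ w ∈ W, w • x = x) → g • x = x) → g ∈ W)
    (hp : ∀ g : A, ∃ n : ℕ, g ^ 2 ^ n ∈ W)
    (hcon : ∀ a b : Q, ∃ u v w : Q, (∀ g : A, g • a = a → g • b = b →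
      g • u = u ∧ g • v = v ∧ g • w = w) ∧
      ¬ (u = 0 ∧ v = 0 ∧ w = 0) ∧ u ^ 2 = a * v ^ 2 + b * w ^ 2)
    (z : A → A → Qˣ) (hz : ∀ g h j, z g h * z (g * h) j = z h j * z g (h * j))
    (hzt : ∀ (g : A) h j, g • z h j = z h j)
    (hzW : ∀ g h, ∀ u ∈ W, ∀ u' ∈ W, z (g * u) (h * u') = z g h) :
    ∃ c : A → Qˣ, (∀ g, ∀ u ∈ W, c (g * u) = c g) ∧ (∀ g, ∀ w ∈ W, w • c g = c g) ∧
      ∀ g h, z g h = c g * g • c h / c (g * h) := by
  have := faithL W hf
  have hT : HasC (A ⧸ W) (LW (Q := Q) W) := by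
    intro H a b ha hb
    obtain ⟨u, v, w, h1, h3, h4⟩ := hcon a b
    have hL : ∀ g ∈ W, g • u = u ∧ g • v = v ∧ g • w = w := fun g hg =>
      h1 g (mem_LW.1 a.2 g hg) (mem_LW.1 b.2 g hg)
    have hH : ∀ g : A, (QuotientGroup.mk g : A ⧸ W) ∈ H → g • u = u ∧ g • v = v ∧ g • w = w :=
      fun g hg => h1 g (congrArg Subtype.val (ha _ hg)) (congrArg Subtype.val (hb _ hg))
    refine ⟨⟨u, mem_LW.2 fun g hg => (hL g hg).1⟩, ⟨v, mem_LW.2 fun g hg => (hL g hg).2.1⟩,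
      ⟨w, mem_LW.2 fun g hg => (hL g hg).2.2⟩, fun h hh => ?_, fun h hh => ?_, fun h hh => ?_,
      fun h => h3 ⟨congrArg Subtype.val h.1, congrArg Subtype.val h.2.1,
        congrArg Subtype.val h.2.2⟩, Subtype.ext h4⟩
    · obtain ⟨g, rfl⟩ := QuotientGroup.mk_surjective h
      exact Subtype.ext (hH g hh).1
    · obtain ⟨g, rfl⟩ := QuotientGroup.mk_surjective h
      exact Subtype.ext (hH g hh).2.1
    · obtain ⟨g, rfl⟩ := QuotientGroup.mk_surjective h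
      exact Subtype.ext (hH g hh).2.2
  have hG : IsPGroup 2 (A ⧸ W) := by
    intro g
    obtain ⟨g, rfl⟩ := QuotientGroup.mk_surjective g
    obtain ⟨n, hn⟩ := hp g
    exact ⟨n, by rw [← QuotientGroup.mk_pow]; exact (QuotientGroup.eq_one_iff _).2 hn⟩
  obtain ⟨c, hc⟩ := spl (L := LW (Q := Q) W) (fun h => h2 (congrArg Subtype.val h)) hT hG
    (fun g h => toLW (W := W) (z g.out h.out) fun w _ => hzt w _ _) (by
      intro g h j
      apply ofLW_inj
      obtain ⟨g, rfl⟩ := QuotientGroup.mk_surjective g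
      obtain ⟨h, rfl⟩ := QuotientGroup.mk_surjective h
      obtain ⟨j, rfl⟩ := QuotientGroup.mk_surjective j
      rw [ofLW_mul, ofLW_mul, ofLW_smul, ofLW_toLW, ofLW_toLW, ofLW_toLW, ofLW_toLW,
        ← QuotientGroup.mk_mul, ← QuotientGroup.mk_mul]
      obtain ⟨u, hu⟩ := QuotientGroup.mk_out_eq_mul W g
      obtain ⟨u', hu'⟩ := QuotientGroup.mk_out_eq_mul W h
      obtain ⟨u'', hu''⟩ := QuotientGroup.mk_out_eq_mul W j
      obtain ⟨u3, hu3⟩ := QuotientGroup.mk_out_eq_mul W (g * h)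
      obtain ⟨u4, hu4⟩ := QuotientGroup.mk_out_eq_mul W (h * j)
      rw [hu, hu', hu'', hu3, hu4, hzW _ _ _ u.2 _ u'.2, hzW _ _ _ u3.2 _ u''.2,
        hzW _ _ _ u'.2 _ u''.2, hzW _ _ _ u.2 _ u4.2, hzt, hz])
  refine ⟨fun g => ofLW (c (QuotientGroup.mk g)), fun g u hu => ?_, fun g w hw => ofLW_fix _ w hw,
    fun g h => ?_⟩
  · exact congrArg (fun x => ofLW (c x)) (QuotientGroup.mk_mul_of_mem g hu)
  · have h1 := congrArg ofLW (hc (QuotientGroup.mk g) (QuotientGroup.mk h))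
    rw [ofLW_div, ofLW_mul, ofLW_smul, ofLW_toLW, ← QuotientGroup.mk_mul] at h1
    obtain ⟨u, hu⟩ := QuotientGroup.mk_out_eq_mul W g
    obtain ⟨u', hu'⟩ := QuotientGroup.mk_out_eq_mul W h
    rw [hu, hu', hzW _ _ _ u.2 _ u'.2] at h1
    exact h1

end

end Pool.Agent.MP72S.E
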