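import Pool.Agent.Lib.MP_72e2e6_nt.Sm.E.Loc

/-!
# MP_72e2e6_nt, `Sm`, block E: the reciprocity law
-/

set_option linter.unusedSectionVars false

namespace Pool.Agent.MP72S.E

open Polynomial Finset

attribute [local instance] Units.mulDistribMulActionRight

variable {k Q G N P : Type} [Field k] [Group G] [Field Q] [Algebra k Q] [MulSemiringAction G Q]
  [TopologicalSpace G] {D : Dat G N P} {t : Q} {q : ℕ} {dg : P → ℕ} {rt : P → k}
  [IsTopologicalGroup G] [CompactSpace G] [IsAlgClosed k]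

theorem exists_exp (h : Qd D k Q t q dg rt) {z : G → G → Qˣ} (hz : IsM2 z)
    (hlc : IsLocallyConstant fun p : G × G => z p.1 p.2) {m : ℕ} (hN : ∀ g j, z g j ^ 2 ^ m = 1) :
    ∃ n : k →₀ ℤ, (∀ v, v ≠ D.inf → ∃ Z : Qˣ, IsPrimitiveRoot Z (2 ^ m) ∧
      ivM D z v = Z ^ ((q : ℤ) ^ (dg v - 1) * sS q dg rt n v)) ∧
      ∃ Z : Qˣ, IsPrimitiveRoot Z (2 ^ m) ∧ ivM D z D.inf = Z ^ ∑ c ∈ n.support, n c := by
  classical
  have hN0 : 0 < 2 ^ m := pow_pos two_pos m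
  have hzc : ∀ g j, z g j ∈ Cs k Q := fun g j => cs_of_pow_one hN0 (hN g j)
  obtain ⟨l, ⟨s, hs, hsl⟩, hlN, hl⟩ := lvl h z hz hlc m hN
  obtain ⟨s', hs', hsz⟩ := lc2 h.stab h.bas z hlc
  have hlc' : ∀ g, l g ∈ Cs k Q := fun g => cs_of_pow_one hN0 (hlN g)
  obtain ⟨r, hr⟩ := exists_r h m
  have hss : St G (s ∪ s') := hs.union hs'
  obtain ⟨n, hn⟩ := kum h hr (chi D z l) hss
    (chi_lv h hss (fun u hu u' hu' => hsz u (fx_mono subset_union_right hu) u'
      (fx_mono subset_union_right hu')) (hsl.mono subset_union_left))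
    (fun g hg j hj => chi_mul h hz hzc hlc' hl hg hj) (fun g _ => chi_pow hN hlN g)
  exact ⟨n, fun v hv => iv_fin h hz hzc hlc' hl hr hn v hv, iv_inf h hz hzc hlc' hl hr hn⟩

theorem sum_sS (h : Qd D k Q t q dg rt) (n : k →₀ ℤ) :
    ∃ T : Finset P, D.inf ∉ T ∧ (∀ v, v ≠ D.inf → v ∉ T → sS q dg rt n v = 0) ∧
      ∑ v ∈ T, sS q dg rt n v = ∑ c ∈ n.support, n c := by
  classical
  choose f hf huniq using fun c => (h.orb c)
  have hf' : ∀ (v : P) (i : ℕ), v ≠ D.inf → i < dg v → f (rt v ^ q ^ i) = (v, i) :=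
    fun v i hv hi => (huniq _ (v, i) ⟨hv, hi, rfl⟩).symm
  refine ⟨n.support.image fun c => (f c).1, ?_, ?_, ?_⟩
  · intro h0
    rw [mem_image] at h0
    obtain ⟨c, -, hc⟩ := h0
    exact (hf c).1 hc
  · intro v hv hvT
    refine sum_eq_zero fun i hi => ?_
    by_contra h0
    apply hvT
    rw [mem_image]
    exact ⟨rt v ^ q ^ i, Finsupp.mem_support_iff.2 h0, by
      rw [hf' v i hv (mem_range.1 hi)]⟩
  · rw [← sum_fiberwise_of_maps_to (g := fun c => (f c).1)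
      (fun c hc => mem_image_of_mem (fun c => (f c).1) hc) fun c => n c]
    refine sum_congr rfl fun v hv => ?_
    have hvi : v ≠ D.inf := by
      rw [mem_image] at hv
      obtain ⟨c, -, rfl⟩ := hv
      exact (hf c).1
    rw [sS]
    refine (sum_bij_ne_zero (fun c _ _ => (f c).2) ?_ ?_ ?_ ?_).symm
    · intro c hc _
      rw [mem_filter] at hc
      rw [mem_range, ← hc.2]
      exact (hf c).2.1
    · intro c hc _ c' hc' _ e
      rw [mem_filter] at hc hc'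
      rw [← (hf c).2.2, ← (hf c').2.2, e, hc.2, hc'.2]
    · intro i hi h0
      have e := hf' v i hvi (mem_range.1 hi)
      exact ⟨rt v ^ q ^ i, mem_filter.2 ⟨Finsupp.mem_support_iff.2 h0, by rw [e]⟩, h0, by rw [e]⟩
    · intro c hc _
      rw [mem_filter] at hc
      have e := (hf c).2.2
      rw [hc.2] at e
      rw [e]

theorem zpow_half {Z : Qˣ} {m : ℕ} (hZ : IsPrimitiveRoot Z (2 ^ (m + 1))) (e : ℤ) :
    Z ^ (2 ^ m * e) = (-1) ^ e := by
  have h1 : (Z : Q) ^ 2 ^ m = -1 := by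
    have h2 : ((Z : Q) ^ 2 ^ m) ^ 2 = 1 := by
      rw [← pow_mul, ← pow_succ, ← Units.val_pow_eq_pow_val, hZ.pow_eq_one, Units.val_one]
    rw [sq] at h2
    rcases mul_self_eq_one_iff.1 h2 with h3 | h3
    · exfalso
      have h4 : Z ^ 2 ^ m = 1 := Units.ext (by rw [Units.val_pow_eq_pow_val, h3, Units.val_one])
      have h5 := (hZ.pow_eq_one_iff_dvd _).1 h4
      exact absurd (Nat.le_of_dvd (pow_pos two_pos m) h5)
        (not_le.2 (Nat.pow_lt_pow_right one_lt_two (Nat.lt_succ_self m)))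
    · exact h3
  have h6 : Z ^ 2 ^ m = -1 := Units.ext (by
    rw [Units.val_pow_eq_pow_val, h1]
    rfl)
  have h7 : Z ^ ((2 : ℤ) ^ m) = -1 := by
    rw [← h6, ← zpow_natCast]
    push_cast
    rfl
  rw [zpow_mul, h7]

/-- The reciprocity law for cocycles of `2`-power order. -/
theorem recP (h : Qd D k Q t q dg rt) {z : G → G → Qˣ} (hz : IsM2 z)
    (hlc : IsLocallyConstant fun p : G × G => z p.1 p.2) {m : ℕ} (hN : ∀ g j, z g j ^ 2 ^ m = 1)
    (h2 : ∀ v, ivM D z v ^ 2 = 1) :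
    ∃ T : Finset P, (∀ v, v ∉ T → ivM D z v = 1) ∧ ∏ v ∈ T, ivM D z v = 1 := by
  classical
  have hN' : ∀ g j, z g j ^ 2 ^ (m + 1) = 1 := fun g j => by
    rw [pow_succ, pow_mul, hN, one_pow]
  obtain ⟨n, hfin, hinf⟩ := exists_exp h hz hlc hN'
  obtain ⟨T, hT1, hT2, hT3⟩ := sum_sS h n
  have hqo : ∀ j : ℕ, ¬ (2 : ℤ) ∣ (q : ℤ) ^ j := by
    intro j hj
    have h3 := Int.prime_two.dvd_of_dvd_pow hj
    have h4 := h.q4
    omega
  -- the exponents
  have key : ∀ (Z : Qˣ) (A : ℤ) (j : ℕ), IsPrimitiveRoot Z (2 ^ (m + 1)) →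
      (Z ^ ((q : ℤ) ^ j * A)) ^ 2 = 1 →
      ∃ e : ℤ, A = 2 ^ m * e ∧ Z ^ ((q : ℤ) ^ j * A) = (-1) ^ e := by
    intro Z A j hZ hZ2
    rw [← zpow_natCast, ← zpow_mul] at hZ2
    have h3 := (hZ.zpow_eq_one_iff_dvd _).1 hZ2
    push_cast at h3
    have h4 : (2 : ℤ) ^ m ∣ (q : ℤ) ^ j * A := by
      rw [pow_succ] at h3
      exact Int.dvd_of_mul_dvd_mul_right (by norm_num) h3
    have h5 : IsCoprime ((2 : ℤ) ^ m) ((q : ℤ) ^ j) := by
      refine IsCoprime.pow_left ?_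
      rw [Int.isCoprime_iff_gcd_eq_one]
      rcases (Nat.dvd_prime Nat.prime_two).1 (Int.gcd_dvd_natAbs_left 2 ((q : ℤ) ^ j)) with h6 | h6
      · exact h6
      · exfalso
        have h7 := Int.gcd_dvd_right (a := 2) (b := (q : ℤ) ^ j)
        rw [h6] at h7
        exact hqo j h7
    obtain ⟨e, he⟩ := h5.dvd_of_dvd_mul_left h4
    refine ⟨e, he, ?_⟩
    have h6 : (q : ℤ) ^ j * A = 2 ^ m * ((q : ℤ) ^ j * e) := by rw [he]; ring
    rw [h6, zpow_half hZ, zpow_mul]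
    congr 1
    have h7 : Odd ((q : ℤ) ^ j) := Int.not_even_iff_odd.1 fun h8 => hqo j h8.two_dvd
    exact h7.neg_one_zpow
  have hv : ∀ v, v ≠ D.inf → ∃ e : ℤ, sS q dg rt n v = 2 ^ m * e ∧ ivM D z v = (-1) ^ e := by
    intro v hv
    obtain ⟨Z, hZ, hZv⟩ := hfin v hv
    have h3 := h2 v
    rw [hZv] at h3
    obtain ⟨e, he, he'⟩ := key Z _ _ hZ h3
    exact ⟨e, he, by rw [hZv, he']⟩
  obtain ⟨Z, hZ, hZi⟩ := hinf
  obtain ⟨ei, hei, hei'⟩ := key Z (∑ c ∈ n.support, n c) 0 hZ (by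
    have h3 := h2 D.inf
    rw [hZi] at h3
    rw [pow_zero, one_mul]
    exact h3)
  rw [pow_zero, one_mul, ← hZi] at hei'
  choose! e he he' using hv
  refine ⟨insert D.inf T, fun v hvT => ?_, ?_⟩
  · rw [mem_insert, not_or] at hvT
    have h3 := he v hvT.1
    rw [hT2 v hvT.1 hvT.2] at h3
    have h4 : e v = 0 := by
      rcases mul_eq_zero.1 h3.symm with h5 | h5
      · exact absurd h5 (pow_ne_zero _ two_ne_zero)
      · exact h5
    rw [he' v hvT.1, h4, zpow_zero]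
  · have hne : ∀ v ∈ T, v ≠ D.inf := fun v hv h0 => hT1 (h0 ▸ hv)
    rw [prod_insert hT1, prod_congr rfl fun v hv => he' v (hne v hv), zpow_sum', hei', ← zpow_add]
    have h3 : ∑ v ∈ T, e v = ei := by
      have h4 : (2 : ℤ) ^ m * ∑ v ∈ T, e v = 2 ^ m * ei := by
        rw [mul_sum, ← hei, ← hT3]
        exact sum_congr rfl fun v hv => (he v (hne v hv)).symm
      exact mul_left_cancel₀ (pow_ne_zero _ two_ne_zero) h4
    rw [h3]
    exact Even.neg_one_zpow ⟨ei, rfl⟩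

end Pool.Agent.MP72S.E
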