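import Pool.Agent.Lib.MP_72e2e6_nt.Sm.E.Rec

/-!
# MP_72e2e6_nt, `Sm`, block E: the reciprocity laws `recR`, `rec2`, `rcp`
-/

set_option linter.unusedSectionVars false

namespace Pool.Agent.MP72S.E

open Polynomial Finset

attribute [local instance] Units.mulDistribMulActionRight

section

variable {G M N P : Type} [Group G] [CommGroup M]

theorem ivM_pow (D : Dat G N P) (z : G → G → M) (n : ℕ) (v : P) :
    ivM D (fun g j => z g j ^ n) v = ivM D z v ^ n := by
  rw [ivM, ivM, div_pow, div_pow, prod_pow]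

end

variable {k Q G N P : Type} [Field k] [Group G] [Field Q] [Algebra k Q] [MulSemiringAction G Q]
  [TopologicalSpace G] {D : Dat G N P} {t : Q} {q : ℕ} {dg : P → ℕ} {rt : P → k}
  [IsTopologicalGroup G] [CompactSpace G] [IsAlgClosed k]

/-- The reciprocity law. -/
theorem recM (h : Qd D k Q t q dg rt) {z : G → G → Qˣ} (hz : IsM2 z)
    (hlc : IsLocallyConstant fun p : G × G => z p.1 p.2) (hzc : ∀ g j, z g j ∈ Cs k Q)
    (h2 : ∀ v, ivM D z v ^ 2 = 1) :
    ∃ T : Finset P, (∀ v, v ∉ T → ivM D z v = 1) ∧ ∏ v ∈ T, ivM D z v = 1 := by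
  classical
  have hord : ∀ x : Qˣ, ∃ n : ℕ, 0 < n ∧ (x ∈ Cs k Q → x ^ n = 1) := by
    intro x
    by_cases hx : x ∈ Cs k Q
    · obtain ⟨n, hn, hx1⟩ := cs_pow_one h hx
      refine ⟨q ^ n - 1, ?_, fun _ => hx1⟩
      have := Nat.one_lt_pow hn.ne' h.q1
      omega
    · exact ⟨1, one_pos, fun h => absurd h hx⟩
  choose o ho ho' using hord
  set R : Finset Qˣ := hlc.range_finite.toFinset with hR
  set M : ℕ := ∏ x ∈ R, o x with hM
  have hM0 : M ≠ 0 := prod_ne_zero_iff.2 fun x _ => (ho x).ne'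
  have hMz : ∀ g j, z g j ^ M = 1 := by
    intro g j
    have h1 : z g j ∈ R := by
      rw [hR, Set.Finite.mem_toFinset]
      exact ⟨(g, j), rfl⟩
    obtain ⟨e, he⟩ := dvd_prod_of_mem o h1
    rw [hM, he, pow_mul, ho' _ (hzc g j), one_pow]
  obtain ⟨m, M', hodd, hMM⟩ := Nat.exists_eq_two_pow_mul_odd hM0
  have hiv : ∀ v, ivM D (fun g j => z g j ^ M') v = ivM D z v := by
    intro v
    rw [ivM_pow]
    obtain ⟨a, ha⟩ := hodd
    rw [ha, pow_succ, pow_mul, h2, one_pow, one_mul]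
  obtain ⟨T, hT1, hT2⟩ := recP h (z := fun g j => z g j ^ M') (m := m) (by
    intro g j i
    rw [← mul_pow, hz g j i, mul_pow, smul_pow']) (hlc.comp fun x => x ^ M') (fun g j => by
      rw [← pow_mul, mul_comm, ← hMM, hMz]) (fun v => by rw [hiv, h2])
  exact ⟨T, fun v hv => by rw [← hiv, hT1 v hv], by
    rw [← hT2]
    exact prod_congr rfl fun v _ => (hiv v).symm⟩

theorem iv_map {R : Type} [AddCommGroup R] (ρ : R →+ Additive Qˣ) (z : G → G → R) (v : P) :
    ρ (D.iv z v) = Additive.ofMul (ivM D (fun g j => (ρ (z g j)).toMul) v) := by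
  rw [Dat.iv, ivM, map_sub, map_sub, map_sum]
  rfl

/-- The reciprocity law for additive coefficients. -/
theorem recG (h : Qd D k Q t q dg rt) {R : Type} [AddCommGroup R] (a : G → R → R)
    (ρ : R →+ Additive Qˣ) (hρ : Function.Injective ρ) (hρc : ∀ x, (ρ x).toMul ∈ Cs k Q)
    (hρa : ∀ g x, (ρ (a g x)).toMul = g • (ρ x).toMul) (z : G → G → R) (hz : IsC2 a z)
    (h2 : ∀ v, 2 • D.iv z v = 0) : ∑ᶠ v, D.iv z v = 0 := by
  obtain ⟨T, hT1, hT2⟩ := recM h (z := fun g j => (ρ (z g j)).toMul) (by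
    intro g j i
    have h1 := congrArg (fun x => (ρ x).toMul) (hz.coc g j i)
    simp only [map_add, toMul_add, hρa] at h1
    exact h1) (hz.lc.comp fun x => (ρ x).toMul) (fun g j => hρc _) (fun v => by
      have h1 := congrArg (fun x => (ρ x).toMul) (h2 v)
      simp only [map_nsmul, map_zero, toMul_nsmul, toMul_zero] at h1
      rw [iv_map] at h1
      exact h1)
  have h0 : ∀ v, v ∉ T → D.iv z v = 0 := by
    intro v hv
    apply hρ
    rw [iv_map, hT1 v hv, ofMul_one, map_zero]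
  rw [finsum_eq_sum_of_support_subset (s := T) _ (by
    intro v hv
    by_contra hvT
    exact hv (h0 v hvT))]
  apply hρ
  rw [map_sum, map_zero]
  have h3 : ∑ v ∈ T, ρ (D.iv z v) =
      Additive.ofMul (∏ v ∈ T, ivM D (fun g j => (ρ (z g j)).toMul) v) := by
    rw [ofMul_prod]
    exact sum_congr rfl fun v _ => iv_map ρ z v
  rw [h3, hT2, ofMul_one]

theorem zmod2' (a : ZMod 2) : a = 0 ∨ a = 1 := by
  revert a
  decide

variable (Q) in
/-- The embedding of `F₂` in the multiplicative group. -/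
def rho2 : ZMod 2 →+ Additive Qˣ where
  toFun x := if x = 0 then 0 else Additive.ofMul (-1)
  map_zero' := if_pos rfl
  map_add' x y := by
    have h1 : (1 : ZMod 2) ≠ 0 := one_ne_zero
    have h2 : (1 : ZMod 2) + 1 = 0 := rfl
    rcases zmod2' x with rfl | rfl <;> rcases zmod2' y with rfl | rfl
    · simp
    · simp
    · simp
    · rw [h2, if_pos rfl, if_neg h1, ← ofMul_mul, neg_mul_neg, one_mul, ofMul_one]

theorem rho2_one : rho2 Q 1 = Additive.ofMul (-1) := by
  change (if (1 : ZMod 2) = 0 then (0 : Additive Qˣ) else Additive.ofMul (-1)) = _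
  exact if_neg one_ne_zero

theorem rho2_cs (x : ZMod 2) : (rho2 Q x).toMul ∈ Cs k Q := by
  rcases zmod2' x with rfl | rfl
  · rw [map_zero]
    exact one_mem _
  · rw [rho2_one]
    exact ⟨-1, by rw [map_neg, map_one]; rfl⟩

theorem rho2_smul (g : G) (x : ZMod 2) : (rho2 Q x).toMul = g • (rho2 Q x).toMul := by
  rcases zmod2' x with rfl | rfl
  · rw [map_zero, toMul_zero, smul_one]
  · rw [rho2_one, toMul_ofMul]
    apply Units.ext
    rw [Units.coe_smul, Units.val_neg, Units.val_one, smul_neg, smul_one]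

theorem rho2_inj (h : Qd D k Q t q dg rt) : Function.Injective (rho2 Q) := by
  have h1 : Additive.ofMul (-1 : Qˣ) ≠ 0 := by
    intro h0
    have h1 : (-1 : Qˣ) = 1 := congrArg Additive.toMul h0
    have h2 := congrArg Units.val h1
    rw [Units.val_neg, Units.val_one] at h2
    apply qtwo h
    linear_combination -h2
  intro x y hxy
  rcases zmod2' x with rfl | rfl <;> rcases zmod2' y with rfl | rfl
  · rfl
  · rw [rho2_one, map_zero] at hxy
    exact absurd hxy.symm h1
  · rw [rho2_one, map_zero] at hxy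
    exact absurd hxy h1
  · rfl

/-- `Ax2.rec2`. -/
theorem rec2 (h : Qd D k Q t q dg rt) (z : G → G → ZMod 2) (hz : IsC2 (fun _ r => r) z) :
    ∑ᶠ v, D.iv z v = 0 :=
  recG h (fun _ r => r) (rho2 Q) (rho2_inj h) rho2_cs rho2_smul z hz fun v => by
    rcases zmod2' (D.iv z v) with h0 | h0 <;> rw [h0]
    · rfl
    · rfl

/-- `Ax3.recR`. -/
theorem recR (h : Qd D k Q t q dg rt) {R : Type} [AddCommGroup R] [DistribMulAction G R]
    (ρ : R →+ Additive Qˣ) (hρ : Function.Injective ρ) (hρc : ∀ x, (ρ x).toMul ∈ Cs k Q)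
    (hρa : ∀ (g : G) x, (ρ (g • x)).toMul = g • (ρ x).toMul) (z : G → G → R)
    (hz : IsC2 (fun g r => g • r) z) (h2 : ∀ v, 2 • D.iv z v = 0) : ∑ᶠ v, D.iv z v = 0 :=
  recG h (fun g r => g • r) ρ hρ hρc hρa z hz h2

theorem ch_pow {f : G → ZMod 2} (hf : IsCh f) (g : G) (n : ℕ) : f (g ^ n) = n * f g := by
  have h1 : f 1 = 0 := by
    have h := hf.mul 1 1
    rw [mul_one] at h
    exact (add_eq_left.1 h.symm)
  induction n with
  | zero => rw [pow_zero, h1, Nat.cast_zero, zero_mul]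
  | succ n ih => rw [pow_succ, hf.mul, ih]; push_cast; ring

theorem sum_four (a : ℕ) : ∑ i ∈ range (4 * a), ((i + 1 : ℕ) : ZMod 2) = 0 := by
  induction a with
  | zero => rfl
  | succ a ih =>
    have e : 4 * (a + 1) = 4 * a + 1 + 1 + 1 + 1 := by ring
    rw [e, sum_range_succ, sum_range_succ, sum_range_succ, sum_range_succ, ih]
    push_cast
    have h4 : (4 : ZMod 2) = 0 := rfl
    have h2 : (2 : ZMod 2) = 0 := rfl
    linear_combination ((4 * a + 2 : ZMod 2)) * h4 + h2

/-- `Ax.rcp`. -/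
theorem rcp (h : Qd D k Q t q dg rt) (f g : G → ZMod 2) (hf : IsCh f) (hg : IsCh g) :
    ∑ᶠ v, (f (D.tau v) * g (D.phi v) + f (D.phi v) * g (D.tau v)) = 0 := by
  have hz : IsC2 (fun (_ : G) (r : ZMod 2) => r) fun σ τ => f σ * g τ := by
    refine ⟨?_, fun a b c => ?_⟩
    · exact (hf.lc.comp_continuous continuous_fst).comp₂ (hg.lc.comp_continuous continuous_snd)
        fun a b => a * b
    · change f a * g b + f (a * b) * g c = f b * g c + f a * g (b * c)
      rw [hf.mul, hg.mul]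
      ring
  rw [← rec2 h _ hz]
  refine finsum_congr fun v => ?_
  rw [Dat.iv]
  have hn : D.nq v % 4 = 1 := by
    rw [h.nq, Nat.pow_mod, h.q4, one_pow]
    rfl
  obtain ⟨a, ha⟩ : ∃ a, D.nq v = 4 * a + 1 := ⟨D.nq v / 4, by omega⟩
  have e1 : ∑ i ∈ range (D.nq v - 1), f (D.tau v ^ (i + 1)) * g (D.tau v) = 0 := by
    have e2 : ∀ i, f (D.tau v ^ (i + 1)) * g (D.tau v) =
        ((i + 1 : ℕ) : ZMod 2) * (f (D.tau v) * g (D.tau v)) := fun i => by
      rw [ch_pow hf]; ring
    rw [sum_congr rfl fun i _ => e2 i, ← sum_mul, ha, Nat.add_sub_cancel, sum_four, zero_mul]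
  have e3 : f (D.tau v ^ D.nq v) = f (D.tau v) := by
    rw [ch_pow hf, ha]
    push_cast
    have h4 : (4 : ZMod 2) = 0 := rfl
    linear_combination (a * f (D.tau v)) * h4
  rw [e1, e3, sub_zero]
  have h2 : (2 : ZMod 2) = 0 := rfl
  linear_combination (f (D.tau v) * g (D.phi v)) * h2

end Pool.Agent.MP72S.E
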