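import Pool.Agent.Lib.MP_72e2e6_nt.Sm.E.Ext

/-!
# MP_72e2e6_nt, `Sm`, block E: extensions of a `2`-group by the units of a field split
-/

namespace Pool.Agent.MP72S.E

open Module

attribute [local instance] Units.mulDistribMulActionRight

section

variable {Γ L : Type} [Group Γ] [Field L] [MulSemiringAction Γ L]

/-- The automorphism given by `g`. -/
def tmh (g : Γ) : L →* L := MulDistribMulAction.toMonoidHom L g

theorem tmh_inj [FaithfulSMul Γ L] : Function.Injective (tmh : Γ → L →* L) := fun _ _ hgh =>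
  eq_of_smul_eq_smul fun x : L => DFunLike.congr_fun hgh x

variable [Finite Γ] [FaithfulSMul Γ L]

theorem dedekind (c : Γ → L) (hc : c ≠ 0) : ∃ w : L, ∑ᶠ g, c g * g • w ≠ 0 := by
  classical
  have := Fintype.ofFinite Γ
  by_contra hcon
  push Not at hcon
  apply hc
  have hli : LinearIndependent L (fun g : Γ => ((tmh g : L →* L) : L → L)) :=
    LinearIndependent.comp (linearIndependent_monoidHom L L) (fun g : Γ => tmh g) tmh_inj
  funext g
  refine Fintype.linearIndependent_iff.1 hli c ?_ g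
  funext w
  have h := hcon w
  rw [finsum_eq_sum_of_fintype] at h
  rw [Finset.sum_apply, Pi.zero_apply, ← h]
  rfl

theorem h90 (H : Subgroup Γ) (a : Γ → Lˣ)
    (ha : ∀ g ∈ H, ∀ h ∈ H, a (g * h) = a g * g • a h) :
    ∃ x : Lˣ, ∀ g ∈ H, a g = g • x / x := by
  classical
  have := Fintype.ofFinite Γ
  have ha1 : a 1 = 1 := by
    have h := ha 1 H.one_mem 1 H.one_mem
    rw [one_smul, mul_one] at h
    exact (mul_eq_left.1 h.symm)
  obtain ⟨w, hw⟩ := dedekind (Γ := Γ) (fun g => if g ∈ H then (a g : L) else 0) (by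
    intro h
    have h1 := congrFun h 1
    rw [if_pos H.one_mem, ha1] at h1
    exact one_ne_zero h1)
  rw [finsum_eq_sum_of_fintype] at hw
  refine ⟨(Units.mk0 _ hw)⁻¹, fun g hg => ?_⟩
  rw [smul_inv', div_inv_eq_mul, eq_comm, inv_mul_eq_iff_eq_mul]
  apply Units.ext
  rw [Units.val_mul, Units.coe_smul, Units.val_mk0, Finset.smul_sum, Finset.sum_mul]
  refine Fintype.sum_bijective (fun h => g⁻¹ * h) (Group.mulLeft_bijective g⁻¹) _ _ fun h => ?_
  rw [smul_mul', smul_smul, mul_inv_cancel_left]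
  by_cases hh : h ∈ H
  · have hgh : g⁻¹ * h ∈ H := H.mul_mem (H.inv_mem hg) hh
    rw [if_pos hh, if_pos hgh]
    have h1 := ha g hg (g⁻¹ * h) hgh
    rw [mul_inv_cancel_left] at h1
    rw [h1, Units.val_mul, Units.coe_smul]
    ring
  · have hgh : g⁻¹ * h ∉ H := fun h1 => hh (by
      have := H.mul_mem hg h1
      rwa [mul_inv_cancel_left] at this)
    rw [if_neg hh, if_neg hgh, smul_zero, zero_mul, zero_mul]

/-- The hypothesis: the conics have points over the fixed fields. -/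
def HasC (Γ L : Type) [Group Γ] [Field L] [MulSemiringAction Γ L] : Prop :=
  ∀ (H : Subgroup Γ) (a b : L), (∀ h ∈ H, h • a = a) → (∀ h ∈ H, h • b = b) → ∃ u v w : L,
    (∀ h ∈ H, h • u = u) ∧ (∀ h ∈ H, h • v = v) ∧ (∀ h ∈ H, h • w = w) ∧
    ¬ (u = 0 ∧ v = 0 ∧ w = 0) ∧ u ^ 2 = a * v ^ 2 + b * w ^ 2

theorem exists_moved (H' H : Subgroup Γ) (g₀ : Γ) (hle : H' ≤ H) (hg₀' : g₀ ∉ H')
    (hg₀ : g₀ ∈ H) (hc : ∀ g ∈ H, g ∈ H' ∨ g * g₀⁻¹ ∈ H') :
    ∃ w : L, (∀ h ∈ H', h • w = w) ∧ g₀ • w ≠ w := by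
  classical
  have := Fintype.ofFinite Γ
  by_contra hcon
  push Not at hcon
  have e1 : FixedPoints.subfield H' L = FixedPoints.subfield H L := by
    ext x
    constructor
    · intro hx
      have hx' : ∀ h ∈ H', h • x = x := fun h hh => hx ⟨h, hh⟩
      have h0 := hcon x hx'
      rintro ⟨h, hh⟩
      change h • x = x
      rcases hc h hh with h1 | h1
      · exact hx' h h1
      · have := hx' _ h1
        rw [mul_smul, inv_smul_eq_iff.2 h0.symm] at this
        exact this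
    · intro hx
      rintro ⟨h, hh⟩
      exact hx ⟨h, hle hh⟩
  have e2 : finrank (FixedPoints.subfield H' L) L = finrank (FixedPoints.subfield H L) L :=
    congrArg (fun S : Subfield L => finrank S L) e1
  rw [FixedPoints.finrank_eq_card, FixedPoints.finrank_eq_card] at e2
  have e3 : H' = H := Subgroup.eq_of_le_of_card_ge hle (by
    rw [Nat.card_eq_fintype_card, Nat.card_eq_fintype_card, e2])
  exact hg₀' (e3 ▸ hg₀)

theorem nrm (h2 : (2 : L) ≠ 0) (hT : HasC Γ L) (H' H : Subgroup Γ) (g₀ : Γ) (hle : H' ≤ H)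
    (hg₀ : g₀ ∈ H) (hg₀' : g₀ ∉ H') (hn : ∀ g ∈ H, ∀ γ ∈ H', g * γ * g⁻¹ ∈ H')
    (hc : ∀ g ∈ H, g ∈ H' ∨ g * g₀⁻¹ ∈ H') (hsq : g₀ * g₀ ∈ H') (y : Lˣ)
    (hy : ∀ g ∈ H, g • y = y) : ∃ x : Lˣ, (∀ g ∈ H', g • x = x) ∧ x * g₀ • x = y := by
  obtain ⟨w, hw, hw0⟩ := exists_moved (L := L) H' H g₀ hle hg₀' hg₀ hc
  have hgw : g₀ • g₀ • w = w := by rw [smul_smul]; exact hw _ hsq
  set r : L := w - g₀ • w with hr
  have hr0 : r ≠ 0 := sub_ne_zero.2 hw0.symm
  have hgr : g₀ • r = -r := by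
    rw [hr, smul_sub, hgw]
    ring
  have hrH : ∀ h ∈ H', h • r = r := by
    intro h hh
    rw [hr, smul_sub, hw h hh]
    have h1 := hn g₀⁻¹ (H.inv_mem hg₀) h hh
    rw [inv_inv] at h1
    have h2 : h • g₀ • w = g₀ • (g₀⁻¹ * h * g₀) • w := by
      rw [smul_smul, smul_smul]
      congr 1
      group
    rw [h2, hw _ h1]
  have hr2 : ∀ h ∈ H, h • r ^ 2 = r ^ 2 := by
    intro h hh
    rw [smul_pow']
    rcases hc h hh with h1 | h1
    · rw [hrH h h1]
    · have h2 := hrH _ h1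
      rw [mul_smul, smul_eq_iff_eq_inv_smul] at h2
      have h3 : g₀⁻¹ • r = -r := by
        rw [inv_smul_eq_iff, smul_neg, hgr, neg_neg]
      rw [h3] at h2
      have h4 : h • (-r) = r := by rw [h2, smul_inv_smul]
      rw [smul_neg] at h4
      have h5 : h • r = -r := by linear_combination -h4
      rw [h5, neg_sq]
  obtain ⟨u, v, w', hu, hv, hw', hne, he⟩ := hT H (r ^ 2) y hr2 fun h hh => by
    have := hy h hh
    exact congrArg Units.val this
  have hw'0 : w' ≠ 0 := by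
    intro h0
    rw [h0] at he hne
    have h1 : (u - r * v) * (u + r * v) = 0 := by linear_combination he
    have hv0 : v ≠ 0 := by
      intro hv0
      rw [hv0] at he
      apply hne
      refine ⟨?_, hv0, rfl⟩
      have : u ^ 2 = 0 := by rw [he]; ring
      exact pow_eq_zero_iff (two_ne_zero) |>.1 this
    have hgu := hu g₀ hg₀
    have hgv := hv g₀ hg₀
    have key : r * v = u ∨ r * v = -u := by
      rcases mul_eq_zero.1 h1 with h | h
      · left; linear_combination -h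
      · right; linear_combination h
    have h3 : g₀ • (r * v) = r * v := by
      rcases key with h | h
      · rw [h, hgu]
      · rw [h, smul_neg, hgu]
    rw [smul_mul', hgr, hgv] at h3
    have h4 : 2 * (r * v) = 0 := by linear_combination -h3
    rcases mul_eq_zero.1 h4 with h | h
    · exact h2 h
    · exact mul_ne_zero hr0 hv0 h
  have hx0 : (u + r * v) / w' ≠ 0 := by
    intro h0
    have h1 : u + r * v = 0 := by
      rcases div_eq_zero_iff.1 h0 with h | h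
      · exact h
      · exact absurd h hw'0
    have h2 : (y : L) * w' ^ 2 = 0 := by linear_combination (u - r * v) * h1 - he
    rcases mul_eq_zero.1 h2 with h | h
    · exact y.ne_zero h
    · exact pow_ne_zero 2 hw'0 h
  refine ⟨Units.mk0 _ hx0, fun g hg => ?_, ?_⟩
  · apply Units.ext
    rw [Units.coe_smul, Units.val_mk0, smul_div₀', smul_add, smul_mul', hu g (hle hg),
      hv g (hle hg), hw' g (hle hg), hrH g hg]
  · apply Units.ext
    rw [Units.val_mul, Units.coe_smul, Units.val_mk0, smul_div₀', smul_add, smul_mul', hu g₀ hg₀,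
      hv g₀ hg₀, hw' g₀ hg₀, hgr]
    field_simp
    linear_combination he

theorem splE {E : Type} [Group E] (h2 : (2 : L) ≠ 0) (hT : HasC Γ L) (pi : E →* Γ)
    (hpi : Function.Surjective pi) (i : Lˣ →* E) (hi : Function.Injective i)
    (hk : ∀ e e' : E, pi e = pi e' → ∃ x, e = i x * e')
    (hpi1 : ∀ x, pi (i x) = 1) (hc : ∀ (e : E) (x : Lˣ), e * i x = i (pi e • x) * e) :
    ∀ (n : ℕ) (H : Subgroup Γ), Nat.card H = 2 ^ n →
      ∃ s : Γ → E, (∀ g ∈ H, pi (s g) = g) ∧ ∀ g ∈ H, ∀ h ∈ H, s (g * h) = s g * s h := by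
  classical
  intro n
  induction n with
  | zero =>
    intro H hH
    rw [pow_zero, Subgroup.card_eq_one] at hH
    refine ⟨fun _ => 1, fun g hg => ?_, fun g _ h _ => (mul_one 1).symm⟩
    rw [hH, Subgroup.mem_bot] at hg
    rw [hg, map_one]
  | succ n ih =>
    intro H hH
    have : Fact (Nat.Prime 2) := ⟨Nat.prime_two⟩
    obtain ⟨K, hK⟩ := Sylow.exists_subgroup_card_pow_prime (G := H) 2 (n := n) (by
      rw [hH]; exact pow_dvd_pow 2 (Nat.le_succ n))
    have hKi : K.index = 2 := by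
      have h1 := K.card_mul_index
      rw [hK, hH, pow_succ] at h1
      exact Nat.eq_of_mul_eq_mul_left (pow_pos two_pos n) h1
    have hKn : K.Normal := Subgroup.normal_of_index_eq_two hKi
    set H' : Subgroup Γ := K.map H.subtype with hH'
    have hmem : ∀ g : H, (g : Γ) ∈ H' ↔ g ∈ K := by
      intro g
      rw [hH', Subgroup.mem_map]
      constructor
      · rintro ⟨x, hx, hxg⟩
        have : x = g := Subtype.ext hxg
        rwa [← this]
      · intro hg
        exact ⟨g, hg, rfl⟩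
    have hle : H' ≤ H := Subgroup.map_subtype_le K
    have hcard : Nat.card H' = 2 ^ n := by
      rw [hH', ← hK]
      exact Nat.card_congr (K.equivMapOfInjective H.subtype H.subtype_injective).symm.toEquiv
    obtain ⟨s, hs1, hs2⟩ := ih H' hcard
    obtain ⟨g₀', hg₀'⟩ : ∃ g : H, g ∉ K := by
      by_contra hcon
      push Not at hcon
      have : K = ⊤ := (Subgroup.eq_top_iff' K).2 hcon
      rw [this, Subgroup.index_top] at hKi
      omega
    obtain ⟨g₀, hg₀⟩ := g₀'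
    have hg₀n : g₀ ∉ H' := fun h => hg₀' ((hmem ⟨g₀, hg₀⟩).1 h)
    have hn : ∀ g ∈ H, ∀ γ ∈ H', g * γ * g⁻¹ ∈ H' := by
      intro g hg γ hγ
      have h1 := hKn.conj_mem ⟨γ, hle hγ⟩ ((hmem ⟨γ, hle hγ⟩).1 hγ) ⟨g, hg⟩
      exact (hmem _).2 h1
    have hcos : ∀ g ∈ H, g ∈ H' ∨ g * g₀⁻¹ ∈ H' := by
      intro g hg
      by_cases h : g ∈ H'
      · exact Or.inl h
      · right
        have h1 : (⟨g, hg⟩ : H) * (⟨g₀, hg₀⟩ : H)⁻¹ ∈ K := by
          rw [Subgroup.mul_mem_iff_of_index_two hKi, inv_mem_iff]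
          constructor
          · intro h3
            exact absurd ((hmem _).2 h3) h
          · intro h3
            exact absurd h3 hg₀'
        exact (hmem _).2 h1
    have hsq : g₀ * g₀ ∈ H' := by
      have h1 : (⟨g₀, hg₀⟩ : H) * (⟨g₀, hg₀⟩ : H) ∈ K := by
        rw [Subgroup.mul_mem_iff_of_index_two hKi]
      exact (hmem _).2 h1
    have hinH' : ∀ g ∈ H', g ∈ H := fun g hg => hle hg
    -- first lift
    obtain ⟨e₀, he₀⟩ := hpi g₀
    have hA : ∀ γ ∈ H', ∃ x : Lˣ, e₀ * s (g₀⁻¹ * γ * g₀) * e₀⁻¹ = i x * s γ := by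
      intro γ hγ
      have h1 : g₀⁻¹ * γ * g₀ ∈ H' := by
        have := hn g₀⁻¹ (H.inv_mem hg₀) γ hγ
        rwa [inv_inv] at this
      refine hk _ _ ?_
      rw [map_mul, map_mul, map_inv, hs1 _ h1, hs1 _ hγ, he₀]
      group
    choose! a ha using hA
    have hcj : ∀ γ ∈ H', g₀⁻¹ * γ * g₀ ∈ H' := by
      intro γ hγ
      have := hn g₀⁻¹ (H.inv_mem hg₀) γ hγ
      rwa [inv_inv] at this
    have haco : ∀ g ∈ H', ∀ h ∈ H', a (g * h) = a g * g • a h := by
      intro g hg h hh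
      apply hi
      have h1 := ha (g * h) (H'.mul_mem hg hh)
      have h2 : g₀⁻¹ * (g * h) * g₀ = (g₀⁻¹ * g * g₀) * (g₀⁻¹ * h * g₀) := by group
      rw [h2, hs2 _ (hcj g hg) _ (hcj h hh), hs2 g hg h hh] at h1
      have h3 : e₀ * (s (g₀⁻¹ * g * g₀) * s (g₀⁻¹ * h * g₀)) * e₀⁻¹ =
          (e₀ * s (g₀⁻¹ * g * g₀) * e₀⁻¹) * (e₀ * s (g₀⁻¹ * h * g₀) * e₀⁻¹) := by group
      rw [h3, ha g hg, ha h hh] at h1
      have h4 : i (a g) * s g * (i (a h) * s h) = i (a g) * (s g * i (a h)) * s h := by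
        simp only [mul_assoc]
      rw [h4, hc, hs1 g hg] at h1
      have h5 : i (a (g * h)) * (s g * s h) = i (a g) * i (g • a h) * (s g * s h) := by
        rw [← h1]; simp only [mul_assoc]
      rw [map_mul]
      exact mul_right_cancel h5
    obtain ⟨x, hx⟩ := h90 H' a haco
    -- second lift
    obtain ⟨e₁, he₁⟩ : ∃ e : E, e = i x * e₀ := ⟨_, rfl⟩
    have hpe₁ : pi e₁ = g₀ := by rw [he₁, map_mul, hpi1, one_mul, he₀]
    have h1 : ∀ γ ∈ H', e₁ * s (g₀⁻¹ * γ * g₀) * e₁⁻¹ = s γ := by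
      intro γ hγ
      have e1 : e₁ * s (g₀⁻¹ * γ * g₀) * e₁⁻¹ =
          i x * (e₀ * s (g₀⁻¹ * γ * g₀) * e₀⁻¹) * (i x)⁻¹ := by
        rw [he₁]; group
      rw [e1, ha γ hγ, ← map_inv, mul_assoc, mul_assoc, hc, hs1 γ hγ, ← mul_assoc, ← mul_assoc,
        ← map_mul, ← map_mul, hx γ hγ, smul_inv']
      have e2 : x * (γ • x / x) * (γ • x)⁻¹ = 1 := by
        rw [mul_div_cancel, mul_inv_cancel]
      rw [e2, map_one, one_mul]
    have h1' : ∀ γ ∈ H', e₁ * s γ = s (g₀ * γ * g₀⁻¹) * e₁ := by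
      intro γ hγ
      have e1 := h1 (g₀ * γ * g₀⁻¹) (hn g₀ hg₀ γ hγ)
      have e2 : g₀⁻¹ * (g₀ * γ * g₀⁻¹) * g₀ = γ := by group
      rw [e2] at e1
      rw [← e1]
      group
    obtain ⟨y, hy⟩ := hk (e₁ * e₁) (s (g₀ * g₀)) (by
      rw [map_mul, hpe₁, hs1 _ hsq])
    have hyH' : ∀ γ ∈ H', γ • y = y := by
      intro δ hδ
      set γ : Γ := (g₀ * g₀)⁻¹ * δ * (g₀ * g₀) with hγ
      have hγH : γ ∈ H' := H'.mul_mem (H'.mul_mem (H'.inv_mem hsq) hδ) hsq
      have e1 : e₁ * e₁ * s γ = s δ * (e₁ * e₁) := by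
        rw [mul_assoc, h1' γ hγH, ← mul_assoc, h1' _ (hn g₀ hg₀ γ hγH), mul_assoc]
        congr 2
        rw [hγ]; group
      have e3 : g₀ * g₀ * γ = δ * (g₀ * g₀) := by rw [hγ]; group
      have eL : e₁ * e₁ * s γ = i y * s (δ * (g₀ * g₀)) := by
        rw [hy, mul_assoc, ← hs2 _ hsq _ hγH, e3]
      have eR : s δ * (e₁ * e₁) = i (δ • y) * s (δ * (g₀ * g₀)) := by
        rw [hy, ← mul_assoc, hc, hs1 δ hδ, mul_assoc, ← hs2 _ hδ _ hsq]
      rw [eL, eR] at e1
      exact (hi (mul_right_cancel e1)).symm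
    have hyg₀ : g₀ • y = y := by
      have e1 : e₁ * (e₁ * e₁) = e₁ * e₁ * e₁ := (mul_assoc _ _ _).symm
      rw [hy, ← mul_assoc, hc, hpe₁, mul_assoc, h1' _ hsq, ← mul_assoc] at e1
      have e2 : g₀ * (g₀ * g₀) * g₀⁻¹ = g₀ * g₀ := by group
      rw [e2] at e1
      exact hi (mul_right_cancel (mul_right_cancel e1))
    have hyH : ∀ g ∈ H, g • y = y := by
      intro g hg
      rcases hcos g hg with h | h
      · exact hyH' g h
      · have e1 := hyH' _ h
        rw [mul_smul, inv_smul_eq_iff.2 hyg₀.symm] at e1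
        exact e1
    obtain ⟨x₁, hx₁, hx₁'⟩ := nrm h2 hT H' H g₀ hle hg₀ hg₀n hn hcos hsq y hyH
    -- third lift
    obtain ⟨e₂, he₂⟩ : ∃ e : E, e = i x₁⁻¹ * e₁ := ⟨_, rfl⟩
    have hpe₂ : pi e₂ = g₀ := by rw [he₂, map_mul, hpi1, one_mul, hpe₁]
    have h2' : ∀ γ ∈ H', e₂ * s γ = s (g₀ * γ * g₀⁻¹) * e₂ := by
      intro γ hγ
      have e1 := hn g₀ hg₀ γ hγ
      have e2 : s (g₀ * γ * g₀⁻¹) * i x₁⁻¹ = i x₁⁻¹ * s (g₀ * γ * g₀⁻¹) := by
        rw [hc, hs1 _ e1, smul_inv', hx₁ _ e1]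
      rw [he₂, mul_assoc, h1' γ hγ, ← mul_assoc, ← mul_assoc, e2]
    have h22 : e₂ * e₂ = s (g₀ * g₀) := by
      have e1 : e₂ * e₂ = i x₁⁻¹ * (e₁ * i x₁⁻¹) * e₁ := by
        rw [he₂]; simp only [mul_assoc]
      rw [e1, hc, hpe₁, ← mul_assoc, ← map_mul, mul_assoc, hy, ← mul_assoc, ← map_mul, ← hx₁',
        smul_inv']
      have e2 : x₁⁻¹ * (g₀ • x₁)⁻¹ * (x₁ * g₀ • x₁) = 1 := by
        rw [← mul_inv, inv_mul_cancel]
      rw [e2, map_one, one_mul]
    obtain ⟨s', hs'⟩ : ∃ s' : Γ → E, ∀ g, s' g = if g ∈ H' then s g else s (g * g₀⁻¹) * e₂ :=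
      ⟨_, fun _ => rfl⟩
    refine ⟨s', fun g hg => ?_, ?_⟩
    · by_cases h : g ∈ H'
      · rw [hs', if_pos h, hs1 g h]
      · rw [hs', if_neg h, map_mul, hs1 _ ((hcos g hg).resolve_left h), hpe₂, inv_mul_cancel_right]
    · intro g hg h hh
      rw [hs' g, hs' h, hs' (g * h)]
      by_cases hgH : g ∈ H' <;> by_cases hhH : h ∈ H'
      · rw [if_pos hgH, if_pos hhH, if_pos (H'.mul_mem hgH hhH), hs2 g hgH h hhH]
      · have e1 : g * h ∉ H' := fun e => hhH (by
          have := H'.mul_mem (H'.inv_mem hgH) e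
          rwa [inv_mul_cancel_left] at this)
        have e2 := (hcos h hh).resolve_left hhH
        rw [if_pos hgH, if_neg hhH, if_neg e1, mul_assoc g h, hs2 g hgH _ e2, mul_assoc]
      · have e1 : g * h ∉ H' := fun e => hgH (by
          have := H'.mul_mem e (H'.inv_mem hhH)
          rwa [mul_inv_cancel_right] at this)
        have e2 := (hcos g hg).resolve_left hgH
        have e3 := hn g₀ hg₀ h hhH
        rw [if_neg hgH, if_pos hhH, if_neg e1, mul_assoc (s (g * g₀⁻¹)), h2' h hhH, ← mul_assoc,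
          ← hs2 _ e2 _ e3]
        congr 2
        group
      · have e2 := (hcos g hg).resolve_left hgH
        have e3 := (hcos h hh).resolve_left hhH
        have e4 := hn g₀ hg₀ _ e3
        have e5 : g * h ∈ H' := by
          have : g * h = (g * g₀⁻¹) * (g₀ * (h * g₀⁻¹) * g₀⁻¹) * (g₀ * g₀) := by group
          rw [this]
          exact H'.mul_mem (H'.mul_mem e2 e4) hsq
        rw [if_neg hgH, if_neg hhH, if_pos e5]
        have e6 : s (g * g₀⁻¹) * e₂ * (s (h * g₀⁻¹) * e₂) =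
            s (g * g₀⁻¹) * (e₂ * s (h * g₀⁻¹)) * e₂ := by simp only [mul_assoc]
        rw [e6, h2' _ e3]
        have e7 : s (g * g₀⁻¹) * (s (g₀ * (h * g₀⁻¹) * g₀⁻¹) * e₂) * e₂ =
            s (g * g₀⁻¹) * s (g₀ * (h * g₀⁻¹) * g₀⁻¹) * (e₂ * e₂) := by simp only [mul_assoc]
        rw [e7, h22, ← hs2 _ e2 _ e4, ← hs2 _ (H'.mul_mem e2 e4) _ hsq]
        congr 1
        group

/-- Extensions of a finite `2`-group by the units of a field split if all conics have points. -/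
theorem spl (h2 : (2 : L) ≠ 0) (hT : HasC Γ L) (hΓ : IsPGroup 2 Γ) (z : Γ → Γ → Lˣ)
    (hz : IsM2 z) : ∃ c : Γ → Lˣ, ∀ g h, z g h = c g * g • c h / c (g * h) := by
  have : Fact (Nat.Prime 2) := ⟨Nat.prime_two⟩
  obtain ⟨n, hn⟩ := IsPGroup.iff_card.1 hΓ
  obtain ⟨s, hs1, hs2⟩ := splE h2 hT (Ex.pr hz) (fun g => ⟨Ex.sec hz g, rfl⟩) (Ex.inc hz)
    (fun _ _ h => Ex.inc_inj hz h) (fun e e' h => Ex.eq_inc hz h) (fun _ => rfl)
    (fun e x => Ex.mul_inc hz e x) n ⊤ (by rw [← hn]; exact Nat.card_congr Subgroup.topEquiv.toEquiv)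
  refine ⟨fun g => (s g).m⁻¹, fun g h => ?_⟩
  have e1 := congrArg Ex.m (hs2 g trivial h trivial)
  have e2 : (s g).g = g := hs1 g trivial
  have e3 : (s h).g = h := hs1 h trivial
  rw [Ex.mul_def, e2, e3] at e1
  change (s (g * h)).m = (s g).m * g • (s h).m * z g h at e1
  rw [smul_inv', div_inv_eq_mul, e1]
  have e4 : (s g).m⁻¹ * (g • (s h).m)⁻¹ * ((s g).m * g • (s h).m * z g h) =
      ((s g).m⁻¹ * (s g).m) * ((g • (s h).m)⁻¹ * g • (s h).m) * z g h := by
    simp only [mul_comm, mul_left_comm, mul_assoc]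
  rw [e4, inv_mul_cancel, inv_mul_cancel, one_mul, one_mul]

end

end Pool.Agent.MP72S.E
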