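import Pool.Agent.Lib.MP_72e2e6_nt.Sm.E.RecG
import Pool.Agent.Lib.MP_72e2e6_nt.Sm.E.Cof

/-!
# MP_72e2e6_nt, `Sm`, block E: the uniqueness axiom `Ax.uni`
-/

set_option linter.unusedSectionVars false

namespace Pool.Agent.MP72S.E

open Polynomial Finset

attribute [local instance] Units.mulDistribMulActionRight

variable {k Q G N P : Type} [Field k] [Group G] [Field Q] [Algebra k Q] [MulSemiringAction G Q]
  [TopologicalSpace G] {D : Dat G N P} {t : Q} {q : ℕ} {dg : P → ℕ} {rt : P → k}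
  [IsTopologicalGroup G] [CompactSpace G] [IsAlgClosed k]

theorem kap_pow (h : Qd D k Q t q dg rt) {m : ℕ} {r : k → Qˣ}
    (hr : ∀ c, (r c : Q) ^ 2 ^ m = t - algebraMap k Q c) {g : G} (hg : g ∈ Tr k Q G) (c : k) :
    (g • r c / r c) ^ 2 ^ m = 1 := by
  rw [div_pow, ← smul_pow', div_eq_one]
  apply Units.ext
  rw [Units.coe_smul, Units.val_pow_eq_pow_val, hr, smul_sub, h.tfix, hg]

/-- For characters with values `±1` only the parity of the exponents matters. -/
theorem fpr_par {K : k → Qˣ} (hK : ∀ c, K c ^ 2 = 1) {n n' : k →₀ ℤ}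
    (hn : ∀ c, ∃ e : ℤ, n c = n' c + 2 * e) : fpr K n = fpr K n' := by
  classical
  have h1 : ∀ c : k, K c ^ n c = K c ^ n' c := by
    intro c
    obtain ⟨e, he⟩ := hn c
    have h2 : K c ^ (2 : ℤ) = 1 := by
      rw [← hK c]
      exact zpow_ofNat _ 2
    rw [he, zpow_add, zpow_mul, h2, one_zpow, mul_one]
  have e1 : fpr K n = ∏ c ∈ n.support ∪ n'.support, K c ^ n c := by
    rw [fpr, Finsupp.prod_of_support_subset n subset_union_left _ fun c _ => zpow_zero _]
  have e2 : fpr K n' = ∏ c ∈ n.support ∪ n'.support, K c ^ n' c := by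
    rw [fpr, Finsupp.prod_of_support_subset n' subset_union_right _ fun c _ => zpow_zero _]
  rw [e1, e2]
  exact prod_congr rfl fun c _ => h1 c

theorem dvd_of_zpow {Z : Qˣ} (hZ : IsPrimitiveRoot Z (2 ^ 1)) (hq : q % 4 = 1) {j : ℕ} {A : ℤ}
    (h1 : Z ^ ((q : ℤ) ^ j * A) = 1) : (2 : ℤ) ∣ A := by
  have h2 := (hZ.zpow_eq_one_iff_dvd _).1 h1
  rw [pow_one] at h2
  rcases Int.prime_two.dvd_mul.1 h2 with h3 | h3
  · have h4 := Int.prime_two.dvd_of_dvd_pow h3
    omega
  · exact h3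

/-- `Ax.uni`. -/
theorem uni (h : Qd D k Q t q dg rt) (f : G → ZMod 2) (hf : IsCh f) (hτ : ∀ v, f (D.tau v) = 0)
    (hF : f (D.phi D.inf) = 0) (σ : G) : f σ = 0 := by
  classical
  have hf1 : f 1 = 0 := by
    have h1 := ch_pow hf 1 0
    rw [pow_zero, Nat.cast_zero, zero_mul] at h1
    exact h1
  have hfi : ∀ g, f g⁻¹ = f g := by
    intro g
    have h1 := hf.mul g⁻¹ g
    rw [inv_mul_cancel, hf1] at h1
    have h2 : f g + f g = 0 := by
      rcases zmod2' (f g) with h0 | h0 <;> rw [h0] <;> rfl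
    linear_combination -h1 - h2
  obtain ⟨s, hs, hsf⟩ := lc1 h.stab h.bas f hf.lc
  obtain ⟨r, hr⟩ := exists_r h 1
  have hχ2 : ∀ x : ZMod 2, (rho2 Q x).toMul ^ 2 = 1 := by
    intro x
    rcases zmod2' x with rfl | rfl
    · rw [map_zero, toMul_zero, one_pow]
    · rw [rho2_one, toMul_ofMul]
      exact neg_one_sq
  obtain ⟨n, hn⟩ := kum h hr (fun g => (rho2 Q (f g)).toMul) hs
    (fun g _ u _ hus => by
      change (rho2 Q (f (g * u))).toMul = (rho2 Q (f g)).toMul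
      rw [hsf u hus])
    (fun g _ j _ => by
      change (rho2 Q (f (g * j))).toMul = (rho2 Q (f g)).toMul * (rho2 Q (f j)).toMul
      rw [hf.mul, map_add, toMul_add])
    (fun g _ => by rw [pow_one]; exact hχ2 _)
  have hpar : ∀ c, (2 : ℤ) ∣ n c := by
    intro c
    obtain ⟨⟨v, i⟩, ⟨hv, hi, hc⟩, -⟩ := h.orb c
    obtain ⟨Z, hZ, hZv⟩ := val_fin h hr hn v hv
    have h1 := hZv i
    simp only at h1 hc
    have h2 : f (D.phi D.inf ^ i * D.tau v * (D.phi D.inf ^ i)⁻¹) = 0 := by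
      rw [hf.mul, hf.mul, hfi, hτ, add_zero]
      rcases zmod2' (f (D.phi D.inf ^ i)) with h0 | h0 <;> rw [h0] <;> rfl
    rw [h2, map_zero, toMul_zero, hc] at h1
    exact dvd_of_zpow hZ h.q4 h1.symm
  have hT : ∀ g ∈ Tr k Q G, f g = 0 := by
    intro g hg
    have h1 := hn g hg
    rw [fpr_par (n' := 0) (fun c => by
      have := kap_pow h hr hg c
      rwa [pow_one] at this) (fun c => by
        obtain ⟨e, he⟩ := hpar c
        exact ⟨e, by rw [he]; simp⟩), fpr_zero] at h1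
    apply rho2_inj h
    rw [map_zero]
    exact h1
  obtain ⟨a, σ', hσ', u, hu, rfl⟩ := cof h (s := s) σ
  rw [hsf u hu, hf.mul, hT σ' hσ', ch_pow hf, hF, mul_zero, add_zero]

end Pool.Agent.MP72S.E
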